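import Mathlib
import Pool.Agent.Lib.MP_1fca17_co.Stmts

/-!
# MP_1fca17_co : k-planar graphs of bounded degree are O(√k)-quasiplanar

Definitions and the statements of the modules.  Complete proofs: team store `QP_proof92.md`.
Every module takes the statements that it uses as hypotheses.
-/

namespace Pool.Agent.Lib.MP_1fca17_co.Q

open Finset
open scoped Classical
open Pool.Agent.Lib.MP_1fca17_co (sg GenPos Btw LC MonoFam StCount StNum1)

noncomputable section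

/-! ## 1. Plane maps and k-planar graphs -/

/-- A finite connected plane map on the vertex set `X` with the darts (directed edges) `D`:
`vert d` is the tail of `d`, `α d` the reverse dart, `σ` the rotation around the vertices, and the
faces are the cycles of `σ * α`.  Euler's formula `V - E + F = 2` says that it lies in the
sphere.  Loops and multiple edges are allowed. -/
structure PlaneMap (X D : Type) [Fintype X] [Fintype D] where
  vert : D → X
  σ : Equiv.Perm D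
  α : Equiv.Perm D
  invol : ∀ d, α (α d) = d
  nofix : ∀ d, α d ≠ d
  surj : Function.Surjective vert
  orbit : ∀ d d', vert d = vert d' ↔ σ.SameCycle d d'
  conn : ∀ x y : X, Relation.ReflTransGen (fun a b => ∃ d, vert d = a ∧ vert (α d) = b) x y
  euler : 2 * (Fintype.card X + Nat.card (Quotient (Equiv.Perm.SameCycle.setoid (σ * α)))) =
    Fintype.card D + 4

/-- adjacency in a plane map -/
def PlaneMap.Adj {X D : Type} [Fintype X] [Fintype D] (M : PlaneMap X D) (x y : X) : Prop :=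
  ∃ d, M.vert d = x ∧ M.vert (M.α d) = y

/-- `G` has a planarization with at most `k` crossing points on every edge: a connected plane map
whose vertices are the vertices of `G` (embedded by `ι`) and further points, every edge `uv` of `G`
is a walk from `ι u` to `ι v` with at most `k` interior vertices `path u v`, none of them a vertex
of `G`, and every further point lies on at most two edges of `G`. -/
def KPlanar {V : Type} (k : ℕ) (G : SimpleGraph V) : Prop :=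
  ∃ (X D : Type) (_ : Fintype X) (_ : Fintype D) (M : PlaneMap X D) (ι : V → X)
    (path : V → V → List X), Function.Injective ι ∧
    (∀ u v, G.Adj u v → (path u v).length ≤ k ∧ (∀ x ∈ path u v, x ∉ Set.range ι) ∧
      path v u = (path u v).reverse ∧
      List.IsChain M.Adj (ι u :: (path u v ++ [ι v]))) ∧
    ∀ x, x ∉ Set.range ι →
      Set.ncard {e : Sym2 V | ∃ u v, e = s(u, v) ∧ G.Adj u v ∧ x ∈ path u v} ≤ 2

/-! ## 2. Geometry -/

/-- bottoms and tops in the same order -/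
def Par {V : Type} (β τ : V → ℕ) (F : Finset (V × V)) : Prop :=
  ∀ e ∈ F, ∀ f ∈ F, e ≠ f → (β e.1 < β f.1 ∧ τ e.2 < τ f.2) ∨ (β f.1 < β e.1 ∧ τ f.2 < τ e.2)

/-- bottoms and tops in opposite orders -/
def Anti {V : Type} (β κ : V → ℕ) (F : Finset (V × V)) : Prop :=
  ∀ e ∈ F, ∀ f ∈ F, e ≠ f → (β e.1 < β f.1 ∧ κ f.2 < κ e.2) ∨ (β f.1 < β e.1 ∧ κ e.2 < κ f.2)

/-- GP: general position with prescribed first coordinates and almost prescribed second ones -/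
def StGP : Prop := ∀ (V : Type) [Fintype V] (x y : V → ℝ) (ε : ℝ), Function.Injective x →
  0 < ε → ∃ P : V → ℝ × ℝ, GenPos P ∧ (∀ v, (P v).1 = x v) ∧ ∀ v, |(P v).2 - y v| < ε

/-- The open segment that represents the edge `e` in the drawing with the vertices `P v`. -/
def edgeSeg {V : Type} (P : V → ℝ × ℝ) (e : Sym2 V) : Set (ℝ × ℝ) :=
  {z | ∃ u v : V, e = s(u, v) ∧ z ∈ openSegment ℝ (P u) (P v)}

/-- GEOM: the decoupling lemma.  `ℓ` level, `c` colour (`false` is drawn lower), `β` order from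
left to right and `τ` order from bottom to top inside a level. -/
def StGeom : Prop := ∀ (V : Type) [Fintype V] (G : SimpleGraph V) (ℓ β τ : V → ℕ) (c : V → Bool)
  (M1 M2 M3 : ℕ),
  (∀ u v, G.Adj u v → ℓ u ≤ ℓ v + 1) →
  (∀ u v, ℓ u = ℓ v → β u = β v → u = v) →
  (∀ u v, ℓ u = ℓ v → τ u = τ v → u = v) →
  (∀ (j : ℕ) (b : Bool) (F : Finset (V × V)),
    (∀ e ∈ F, G.Adj e.1 e.2 ∧ ℓ e.1 = j ∧ ℓ e.2 = j + 1 ∧ c e.2 = b) → Par β τ F →
    F.card ≤ M1) →
  (∀ (j : ℕ) (F : Finset (V × V)),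
    (∀ e ∈ F, G.Adj e.1 e.2 ∧ ℓ e.1 = j ∧ ℓ e.2 = j ∧ c e.1 = false ∧ c e.2 = true) →
    Anti β β F → F.card ≤ M2) →
  (∀ (j : ℕ) (F : Finset (V × V)),
    (∀ e ∈ F, G.Adj e.1 e.2 ∧ ℓ e.1 = j ∧ ℓ e.2 = j ∧ c e.1 = c e.2 ∧ τ e.1 < τ e.2) →
    (∀ e ∈ F, ∀ f ∈ F, e ≠ f → LC β τ f e ∨ LC β τ e f) → F.card ≤ M3) →
  ∃ P : V → ℝ × ℝ, GenPos P ∧ ∀ F : Finset (Sym2 V), (∀ e ∈ F, e ∈ G.edgeSet) →
    (∀ e ∈ F, ∀ f ∈ F, e ≠ f → (edgeSeg P e ∩ edgeSeg P f).Nonempty) →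
    F.card ≤ 4 * M1 + M2 + M3

/-! ## 3. One window -/

/-- the addresses of two adjacent vertices in a tree partition: the same bag or parent and child
(the parent of the bag `x :: l` is `l`) -/
def Rel (l l' : List ℕ) : Prop := l = l' ∨ (∃ x, l' = x :: l) ∨ (∃ x, l = x :: l')

/-- `G[W]` has a tree partition with bags of size at most `s` -/
def TP {V : Type} (s : ℕ) (G : SimpleGraph V) (W : Finset V) : Prop :=
  ∃ a : V → List ℕ, (∀ u ∈ W, ∀ v ∈ W, G.Adj u v → Rel (a u) (a v)) ∧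
    ∀ l, (W.filter (fun v => a v = l)).card ≤ s

/-- maximum degree at most `Δ` -/
def DegLE {V : Type} (Δ : ℕ) (G : SimpleGraph V) : Prop :=
  ∀ v, Set.ncard {u | G.Adj v u} ≤ Δ

/-- WIN: orders for one window `A ∪ B`, given an order `τ` of `A` -/
def StWin : Prop := ∀ (V : Type) [Fintype V] (G : SimpleGraph V) (A B : Finset V)
  (a : V → List ℕ) (s Δ m : ℕ) (τ : V → ℕ), Disjoint A B → DegLE Δ G →
  (∀ u ∈ A ∪ B, ∀ v ∈ A ∪ B, G.Adj u v → Rel (a u) (a v)) →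
  (∀ l, ((A ∪ B).filter (fun v => a v = l)).card ≤ s) → Set.InjOn τ A →
  48 * (s * Δ + 4) ≤ m ^ 2 →
  ∃ β κ : V → ℕ, Function.Injective β ∧ Function.Injective κ ∧
    (∀ F : Finset (V × V), (∀ e ∈ F, G.Adj e.1 e.2 ∧ e.1 ∈ A ∧ e.2 ∈ B) → Anti β κ F →
      F.card ≤ 3 * m) ∧
    (∀ F : Finset (V × V), (∀ e ∈ F, G.Adj e.1 e.2 ∧ e.1 ∈ A ∧ e.2 ∈ A ∧
      Even (a e.1).length ∧ ¬ Even (a e.2).length) → Anti β β F → F.card ≤ 2 * m) ∧
    (∀ F : Finset (V × V), (∀ e ∈ F, G.Adj e.1 e.2 ∧ e.1 ∈ A ∧ e.2 ∈ A ∧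
      (Even (a e.1).length ↔ Even (a e.2).length) ∧ τ e.1 < τ e.2) →
      (∀ e ∈ F, ∀ f ∈ F, e ≠ f → LC β τ f e ∨ LC β τ e f) → F.card ≤ 2 * m)

/-- the rank of an address: base `b` expansion with the leading digit 1 -/
def rk (b : ℕ) : List ℕ → ℕ
  | [] => 1
  | x :: l => rk b l * b + x

/-- the order of the vertices: bags by rank, inside a bag by label, ties by `id` -/
def key {V : Type} (b m n : ℕ) (a : V → List ℕ) (lab id : V → ℕ) (v : V) : ℕ :=
  (rk b (a v) * m + lab v) * n + id v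

/-- RK: properties of the rank -/
def StRk : Prop := ∀ b : ℕ, 2 ≤ b →
  (∀ l x, rk b l < rk b (x :: l)) ∧
  (∀ l l' x x', x < b → x' < b → rk b l < rk b l' → rk b (x :: l) < rk b (x' :: l')) ∧
  (∀ l l' : List ℕ, (∀ x ∈ l, x < b) → (∀ x ∈ l', x < b) → rk b l = rk b l' → l = l')

/-- the pairs (other end, end in the bag `l`) with both ends in `A` resp. `B`;
`B`-end in the bag `l` or in a child of it, `A`-end in the bag -/
def E1 {V : Type} [Fintype V] (G : SimpleGraph V) (A B : Finset V) (a : V → List ℕ)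
    (l : List ℕ) : Finset (V × V) :=
  univ.filter (fun e => G.Adj e.1 e.2 ∧ e.1 ∈ B ∧ e.2 ∈ A ∧ a e.2 = l ∧
    (a e.1 = l ∨ ∃ x, a e.1 = x :: l))

/-- the pairs (end in `C` in a child of the bag `l`, end in `A` in the bag `l`) -/
def E2 {V : Type} [Fintype V] (G : SimpleGraph V) (A C : Finset V) (a : V → List ℕ)
    (l : List ℕ) : Finset (V × V) :=
  univ.filter (fun e => G.Adj e.1 e.2 ∧ e.1 ∈ C ∧ e.2 ∈ A ∧ a e.2 = l ∧ ∃ x, a e.1 = x :: l)

/-- the pairs of adjacent vertices of `A` in the bag `l` -/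
def E3 {V : Type} [Fintype V] (G : SimpleGraph V) (A : Finset V) (a : V → List ℕ)
    (l : List ℕ) : Finset (V × V) :=
  univ.filter (fun e => G.Adj e.1 e.2 ∧ e.1 ∈ A ∧ e.2 ∈ A ∧ a e.1 = l ∧ a e.2 = l)

/-- the labels are good in the bag `l` -/
def GoodBag {V : Type} [Fintype V] (G : SimpleGraph V) (A B : Finset V) (a : V → List ℕ)
    (b m n : ℕ) (τ id : V → ℕ) (lA lB : V → Fin m) (l : List ℕ) : Prop :=
  (∀ F ⊆ E1 G A B a l, F.card = m → ¬ MonoFam
    (fun v => - ((key b m n a (fun u => (lB u : ℕ)) id v : ℕ) : ℤ)) (fun v => (lA v : ℕ)) F) ∧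
  (∀ F ⊆ E2 G A A a l, F.card = m → ¬ MonoFam
    (fun v => - ((key b m n a (fun u => (lA u : ℕ)) id v : ℕ) : ℤ)) (fun v => (lA v : ℕ)) F) ∧
  (∀ F ⊆ E3 G A a l, F.card = m → ¬ MonoFam
    (fun v => (τ v : ℤ)) (fun v => (lA v : ℕ)) F) ∧
  (∀ F ⊆ E3 G A a l, F.card = m → ¬ MonoFam
    (fun v => - (τ v : ℤ)) (fun v => (lA v : ℕ)) F) ∧
  (∀ F ⊆ E2 G B A a l, F.card = m → ¬ MonoFam
    (fun v => - ((key b m n a (fun u => (lA u : ℕ)) id v : ℕ) : ℤ)) (fun v => (lB v : ℕ)) F)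

/-- LAB: there are labels that are good in every bag -/
def StLab : Prop := ∀ (V : Type) [Fintype V] (G : SimpleGraph V) (A B : Finset V)
  (a : V → List ℕ) (s Δ b m n : ℕ) (τ id : V → ℕ), DegLE Δ G → Disjoint A B →
  (∀ l, ((A ∪ B).filter (fun v => a v = l)).card ≤ s) →
  2 ≤ b → (∀ v, ∀ x ∈ a v, x < b) → 48 * (s * Δ + 4) ≤ m ^ 2 →
  ∃ lA lB : V → Fin m, ∀ l, GoodBag G A B a b m n τ id lA lB l

/-- separators: every `U ⊆ W` has a separator of size at most `w` that splits `S` 1/3 : 2/3 -/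
def Sep {V : Type} (w : ℕ) (G : SimpleGraph V) (W : Finset V) : Prop :=
  ∀ U ⊆ W, ∀ S ⊆ U, ∃ X A B : Finset V, X ∪ A ∪ B = U ∧ Disjoint X A ∧ Disjoint X B ∧
    Disjoint A B ∧ X.card ≤ w ∧ (∀ a ∈ A, ∀ b ∈ B, ¬ G.Adj a b) ∧
    3 * (S ∩ A).card ≤ 2 * S.card ∧ 3 * (S ∩ B).card ≤ 2 * S.card

/-- TPART: tree partitions of graphs of bounded degree with small separators -/
def StTP : Prop := ∀ (V : Type) [Fintype V] (G : SimpleGraph V) (W : Finset V) (w Δ : ℕ),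
  1 ≤ w → 1 ≤ Δ → DegLE Δ G → Sep w G W → TP (24 * w * Δ) G W

/-! ## 4. Rooted tree decompositions -/

/-- rooted tree decomposition (as a forest) of `G[W]` with bags of size at most `w` -/
def TD {V : Type} (w : ℕ) (G : SimpleGraph V) (W : Finset V) : Prop :=
  ∃ (I : Type) (_ : Fintype I) (par : I → I) (dep : I → ℕ) (bag : I → Finset V),
    (∀ i, dep i ≠ 0 → dep (par i) + 1 = dep i) ∧
    (∀ v ∈ W, ∃ t, v ∈ bag t ∧ ∀ i, v ∈ bag i → i ≠ t → dep i ≠ 0 ∧ v ∈ bag (par i)) ∧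
    (∀ u ∈ W, ∀ v ∈ W, G.Adj u v → ∃ i, u ∈ bag i ∧ v ∈ bag i) ∧
    ∀ i, (bag i).card ≤ w

/-- SEP -/
def StSep : Prop := ∀ (V : Type) [Fintype V] (G : SimpleGraph V) (W : Finset V) (w : ℕ),
  TD w G W → Sep w G W

/-- TREE: rooted form of a finite tree given as a connected relation with few edges -/
def StTree : Prop := ∀ (I : Type) [Fintype I] (T : SimpleGraph I) (r : I), T.Connected →
  Set.ncard T.edgeSet + 1 ≤ Fintype.card I →
  ∃ (par : I → I) (dep : I → ℕ), dep r = 0 ∧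
    (∀ i, i ≠ r → dep i ≠ 0 ∧ T.Adj i (par i) ∧ dep (par i) + 1 = dep i) ∧
    ∀ i j, T.Adj i j → (i ≠ r ∧ j = par i) ∨ (j ≠ r ∧ i = par j)

/-- TOP: a set of nodes that is connected inside itself has a top -/
def StTop : Prop := ∀ (I : Type) [Fintype I] (T : SimpleGraph I) (r : I) (par : I → I)
  (dep : I → ℕ), (∀ i, i ≠ r → dep i ≠ 0 ∧ dep (par i) + 1 = dep i) →
  (∀ i j, T.Adj i j → (i ≠ r ∧ j = par i) ∨ (j ≠ r ∧ i = par j)) →
  ∀ S : Set I, S.Nonempty → (∀ i ∈ S, ∀ j ∈ S,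
    Relation.ReflTransGen (fun x y => x ∈ S ∧ y ∈ S ∧ T.Adj x y) i j) →
  ∃ t ∈ S, ∀ i ∈ S, i ≠ t → i ≠ r ∧ par i ∈ S

/-- MAP: the layered tree decomposition of a plane map.  `dist` is a layering, `T` a tree on the
darts. -/
def StMap : Prop := ∀ (X D : Type) [Fintype X] [Fintype D] (M : PlaneMap X D),
  ∃ (dist : X → ℕ) (T : SimpleGraph D) (bag : D → Finset X),
    (∀ x y, M.Adj x y → dist y ≤ dist x + 1) ∧
    T.Connected ∧ Set.ncard T.edgeSet + 1 ≤ Fintype.card D ∧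
    (∀ d, M.vert d ∈ bag d ∧ M.vert (M.α d) ∈ bag d) ∧
    (∀ d n, ((bag d).filter (fun x => dist x = n)).card ≤ 3) ∧
    ∀ x, ∀ d d', x ∈ bag d → x ∈ bag d' →
      Relation.ReflTransGen (fun e f => x ∈ bag e ∧ x ∈ bag f ∧ T.Adj e f) d d'

/-- KPL: k-planar graphs have a layering whose windows have small tree decompositions -/
def StKpl : Prop := ∀ (V : Type) [Fintype V] (G : SimpleGraph V) (k : ℕ), KPlanar k G →
  ∃ ℓ : V → ℕ, (∀ u v, G.Adj u v → ℓ u ≤ ℓ v + 1) ∧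
    ∀ j, TD (48 * (k + 1)) G (univ.filter (fun v => ℓ v = j ∨ ℓ v = j + 1))

/-- ASM: the assembly of the windows -/
def StAsm : Prop := ∀ (V : Type) [Fintype V] (G : SimpleGraph V) (ℓ : V → ℕ) (s Δ m : ℕ),
  (∀ u v, G.Adj u v → ℓ u ≤ ℓ v + 1) → DegLE Δ G → 48 * (s * Δ + 4) ≤ m ^ 2 →
  (∀ j, TP s G (univ.filter (fun v => ℓ v = j ∨ ℓ v = j + 1))) →
  ∃ P : V → ℝ × ℝ, GenPos P ∧ ∀ F : Finset (Sym2 V), (∀ e ∈ F, e ∈ G.edgeSet) →
    (∀ e ∈ F, ∀ f ∈ F, e ≠ f → (edgeSeg P e ∩ edgeSeg P f).Nonempty) → F.card ≤ 16 * m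

/-- MAIN -/
def StMain : Prop := ∀ (V : Type) [Fintype V] (k Δ : ℕ), 1 ≤ k → ∀ G : SimpleGraph V,
  KPlanar k G → DegLE Δ G →
  ∃ P : V → ℝ × ℝ, GenPos P ∧ ∀ F : Finset (Sym2 V), (∀ e ∈ F, e ∈ G.edgeSet) →
    (∀ e ∈ F, ∀ f ∈ F, e ≠ f → (edgeSeg P e ∩ edgeSeg P f).Nonempty) →
    (F.card : ℝ) ≤ 5400 * Δ * Real.sqrt k

end

end Pool.Agent.Lib.MP_1fca17_co.Q
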