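import Mathlib
import Pool.Agent.Lib.MP_1fca17_co.Q.Defs

/-!
# MP_1fca17_co : the statements for plane maps
-/

namespace Pool.Agent.Lib.MP_1fca17_co.Q

open Finset
open scoped Classical

noncomputable section

/-- breadth first search data of a plane map: root `r`, distance, and for every other vertex `x` a
dart `pd x` with tail `x` towards the root -/
structure BFS {X D : Type} [Fintype X] [Fintype D] (M : PlaneMap X D) where
  r : X
  dist : X → ℕ
  pd : X → D
  dist_r : dist r = 0
  pd_tail : ∀ x, x ≠ r → M.vert (pd x) = x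
  pd_head : ∀ x, x ≠ r → dist (M.vert (M.α (pd x))) + 1 = dist x
  lip : ∀ x y, M.Adj x y → dist y ≤ dist x + 1

/-- BFS data exist -/
def StBfs : Prop := ∀ (X D : Type) [Fintype X] [Fintype D] (M : PlaneMap X D), Nonempty (BFS M)

variable {X D : Type} [Fintype X] [Fintype D] {M : PlaneMap X D}

/-- the parent of a vertex -/
def BFS.up (S : BFS M) (x : X) : X := M.vert (M.α (S.pd x))

/-- `x` lies on the path from `y` to the root -/
def BFS.On (S : BFS M) (x y : X) : Prop :=
  Relation.ReflTransGen (fun a b => a ≠ S.r ∧ b = S.up a) y x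

/-- the darts of the tree -/
def BFS.tree (S : BFS M) (d : D) : Prop := ∃ x, x ≠ S.r ∧ (d = S.pd x ∨ d = M.α (S.pd x))

/-- a choice of a base dart in every face; the faces are the cycles of `σ * α` -/
structure BaseD (M : PlaneMap X D) where
  base : D → D
  same : ∀ d, (M.σ * M.α).SameCycle d (base d)
  const : ∀ d d', (M.σ * M.α).SameCycle d d' → base d = base d'

/-- base darts exist -/
def StBase : Prop := ∀ (X D : Type) [Fintype X] [Fintype D] (M : PlaneMap X D),
  Nonempty (BaseD M)

/-- the bag of a dart: the three root paths -/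
def bagD (S : BFS M) (b : BaseD M) (d : D) : Finset X :=
  univ.filter (fun x => S.On x (M.vert d) ∨ S.On x (M.vert (M.α d)) ∨ S.On x (M.vert (b.base d)))

/-- the tree on the darts: consecutive darts of a face (cut before the base dart), and the two
darts of every edge that is not in the search tree -/
def linkG (S : BFS M) (b : BaseD M) : SimpleGraph D where
  Adj d d' := d ≠ d' ∧ ((d' = M.σ (M.α d) ∧ b.base d' ≠ d') ∨ (d = M.σ (M.α d') ∧ b.base d ≠ d) ∨
    (d' = M.α d ∧ ¬ S.tree d))
  symm := ⟨by
    rintro d d' ⟨h, h1 | h1 | h1⟩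
    · exact ⟨h.symm, Or.inr (Or.inl h1)⟩
    · exact ⟨h.symm, Or.inl h1⟩
    · refine ⟨h.symm, Or.inr (Or.inr ⟨?_, ?_⟩)⟩
      · rw [h1.1, M.invol]
      · rintro ⟨x, hx, h2 | h2⟩
        · exact h1.2 ⟨x, hx, Or.inr (by rw [← h2, h1.1, M.invol])⟩
        · exact h1.2 ⟨x, hx, Or.inl (by
            have := congrArg M.α h2
            rwa [h1.1, M.invol, M.invol] at this)⟩⟩
  loopless := ⟨fun d h => h.1 rfl⟩

/-- MCONN: the darts whose bag contains `x` are connected -/
def StMConn : Prop := ∀ (X D : Type) [Fintype X] [Fintype D] (M : PlaneMap X D) (S : BFS M)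
  (b : BaseD M) (x : X) (d d' : D), x ∈ bagD S b d → x ∈ bagD S b d' →
  Relation.ReflTransGen (fun e f => x ∈ bagD S b e ∧ x ∈ bagD S b f ∧ (linkG S b).Adj e f) d d'

/-- MCOUNT: the number of links -/
def StMCount : Prop := ∀ (X D : Type) [Fintype X] [Fintype D] (M : PlaneMap X D) (S : BFS M)
  (b : BaseD M), Set.ncard (linkG S b).edgeSet + 1 ≤ Fintype.card D

/-- MBAG: at most three vertices at every distance in a bag -/
def StMBag : Prop := ∀ (X D : Type) [Fintype X] [Fintype D] (M : PlaneMap X D) (S : BFS M)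
  (b : BaseD M) (d : D) (n : ℕ), ((bagD S b d).filter (fun x => S.dist x = n)).card ≤ 3

end

end Pool.Agent.Lib.MP_1fca17_co.Q
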