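import Mathlib
import Pool.Agent.Lib.MP_1fca17_co.Q.Defs

/-!
# MP_1fca17_co : the statements for the geometry (decoupling lemma)
-/

namespace Pool.Agent.Lib.MP_1fca17_co.Q

open Finset
open scoped Classical
open Pool.Agent.Lib.MP_1fca17_co (sg GenPos Btw LC MonoFam StCount StNum1)

noncomputable section

/-- the basis `R = 4 n` of the heights inside a colour class -/
def gR (n : ℕ) : ℕ := 4 * n
/-- the height of the second colour class -/
def gV (n : ℕ) : ℕ := 8 * n * gR n ^ n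
/-- the ratio of the heights of two consecutive levels -/
def gB (n : ℕ) : ℕ := 64 * n * gV n
/-- the horizontal distance of two consecutive levels -/
def gD (n : ℕ) : ℕ := 32 * n * gV n
/-- the height of the base line of level `j` -/
def gY (n : ℕ) : ℕ → ℕ
  | 0 => 0
  | j + 1 => gY n j + 8 * gV n * gB n ^ j * gD n
/-- the height inside the level -/
def gh (n : ℕ) (c : Bool) (t : ℕ) : ℕ := (if c then gV n else 0) + gR n ^ t

/-- `P` is (almost) the standard position for the level `ℓ`, the orders `β`, `τ` and the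
colour `c`. -/
structure StdPos {V : Type} (n : ℕ) (ℓ β τ : V → ℕ) (c : V → Bool) (P : V → ℝ × ℝ) : Prop where
  n1 : 1 ≤ n
  hβ : ∀ v, β v < n
  hτ : ∀ v, τ v < n
  injβ : ∀ u v, ℓ u = ℓ v → β u = β v → u = v
  injτ : ∀ u v, ℓ u = ℓ v → τ u = τ v → u = v
  px : ∀ v, (P v).1 = ((gD n * ℓ v + β v : ℕ) : ℝ)
  py : ∀ v, |(P v).2 - ((gY n (ℓ v) + gB n ^ ℓ v * gh n (c v) (τ v) : ℕ) : ℝ)| < 1 / 4

/-- G2: two edges between the levels `j`, `j + 1` with tops of the same colour -/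
def StG2 : Prop := ∀ (V : Type) (n : ℕ) (ℓ β τ : V → ℕ) (c : V → Bool) (P : V → ℝ × ℝ),
  StdPos n ℓ β τ c P → ∀ (q p q' p' : V), ℓ q' = ℓ q → ℓ p = ℓ q + 1 → ℓ p' = ℓ q + 1 →
  q ≠ q' → p ≠ p' → c p = c p' → (sg P (q, p) ∩ sg P (q', p')).Nonempty → β q < β q' →
  τ p < τ p'

/-- G3: two edges of one level between the two colours -/
def StG3 : Prop := ∀ (V : Type) (n : ℕ) (ℓ β τ : V → ℕ) (c : V → Bool) (P : V → ℝ × ℝ),
  StdPos n ℓ β τ c P → ∀ (q p q' p' : V), ℓ q' = ℓ q → ℓ p = ℓ q → ℓ p' = ℓ q →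
  c q = false → c q' = false → c p = true → c p' = true → q ≠ q' → p ≠ p' →
  (sg P (q, p) ∩ sg P (q', p')).Nonempty → β q < β q' → β p' < β p

/-- G4: two edges of one level, all the ends of the same colour -/
def StG4 : Prop := ∀ (V : Type) (n : ℕ) (ℓ β τ : V → ℕ) (c : V → Bool) (P : V → ℝ × ℝ),
  StdPos n ℓ β τ c P → ∀ (q p q' p' : V), ℓ q' = ℓ q → ℓ p = ℓ q → ℓ p' = ℓ q →
  c q' = c q → c p = c q → c p' = c q → q ≠ q' → q ≠ p' → p ≠ q' → p ≠ p' →
  τ q < τ p → τ q' < τ p' → (sg P (q, p) ∩ sg P (q', p')).Nonempty →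
  LC β τ (q', p') (q, p) ∨ LC β τ (q, p) (q', p')

/-- G6: edges that cannot meet: (a) both ends left of both ends (levels), (b) one level, one
edge inside each colour -/
def StG6 : Prop := ∀ (V : Type) (n : ℕ) (ℓ β τ : V → ℕ) (c : V → Bool) (P : V → ℝ × ℝ),
  StdPos n ℓ β τ c P → ∀ (q p q' p' : V), (sg P (q, p) ∩ sg P (q', p')).Nonempty →
  ¬ (ℓ q < ℓ q' ∧ ℓ q < ℓ p' ∧ ℓ p < ℓ q' ∧ ℓ p < ℓ p') ∧
  ¬ (ℓ q' = ℓ q ∧ ℓ p = ℓ q ∧ ℓ p' = ℓ q ∧ c q = false ∧ c p = false ∧ c q' = true ∧ c p' = true)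

end

end Pool.Agent.Lib.MP_1fca17_co.Q
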