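import Mathlib
import Pool.Agent.Lib.MP_1fca17_co.Q.GDefs

/-!
# MP_1fca17_co : coordinates and numbers of the standard position
-/

namespace Pool.Agent.Lib.MP_1fca17_co.Q.GA

open Finset
open scoped Classical
open Pool.Agent.Lib.MP_1fca17_co (sg GenPos Btw LC MonoFam StCount StNum1)

noncomputable section

/-- coordinates of a point of an open segment -/
theorem mem_sg {V : Type} {P : V → ℝ × ℝ} {a b : V} {z : ℝ × ℝ} (h : z ∈ sg P (a, b)) :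
    ∃ t : ℝ, 0 < t ∧ t < 1 ∧ z.1 = (P a).1 + t * ((P b).1 - (P a).1) ∧
      z.2 = (P a).2 + t * ((P b).2 - (P a).2) := by
  obtain ⟨s, t, hs, ht, hst, rfl⟩ := h
  refine ⟨t, ht, by linarith, ?_, ?_⟩
  · simp only [Prod.fst_add, Prod.smul_fst, smul_eq_mul]
    have : s = 1 - t := by linarith
    rw [this]
    ring
  · simp only [Prod.snd_add, Prod.smul_snd, smul_eq_mul]
    have : s = 1 - t := by linarith
    rw [this]
    ring

/-- the real number `R ^ n` -/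
def rr (n : ℕ) : ℝ := (4 * (n : ℝ)) ^ n

theorem gR_cast (n : ℕ) : ((gR n : ℕ) : ℝ) = 4 * (n : ℝ) := by
  unfold gR; push_cast; ring

theorem gV_cast (n : ℕ) : ((gV n : ℕ) : ℝ) = 8 * (n : ℝ) * rr n := by
  unfold gV rr gR; push_cast; ring

theorem gB_cast (n : ℕ) : ((gB n : ℕ) : ℝ) = 64 * (n : ℝ) * (gV n : ℝ) := by
  unfold gB; push_cast; ring

theorem gD_cast (n : ℕ) : ((gD n : ℕ) : ℝ) = 32 * (n : ℝ) * (gV n : ℝ) := by
  unfold gD; push_cast; ring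

theorem gY_cast (n j : ℕ) : ((gY n (j + 1) : ℕ) : ℝ) =
    (gY n j : ℝ) + 8 * (gV n : ℝ) * (gB n : ℝ) ^ j * (gD n : ℝ) := by
  simp only [gY]; push_cast; ring

theorem pow_pos' {n : ℕ} (hn : 1 ≤ n) (t : ℕ) : 1 ≤ (4 * (n : ℝ)) ^ t := by
  have h : (1 : ℝ) ≤ n := by exact_mod_cast hn
  exact one_le_pow₀ (by linarith)

theorem pow_grow {n : ℕ} (hn : 1 ≤ n) {s t : ℕ} (h : s < t) :
    4 * (n : ℝ) * (4 * (n : ℝ)) ^ s ≤ (4 * (n : ℝ)) ^ t := by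
  have h1 : (1 : ℝ) ≤ n := by exact_mod_cast hn
  rw [← pow_succ']
  exact pow_le_pow_right₀ (by linarith) h

theorem rr_ge {n : ℕ} (hn : 1 ≤ n) : 4 * (n : ℝ) ≤ rr n := by
  have := pow_grow hn (s := 0) (t := n) (by omega)
  simpa [rr] using this

theorem n_ge {n : ℕ} (hn : 1 ≤ n) : (1 : ℝ) ≤ n := by exact_mod_cast hn

theorem gV_ge {n : ℕ} (hn : 1 ≤ n) : (32 : ℝ) ≤ (gV n : ℝ) := by
  rw [gV_cast]
  have h1 := n_ge hn
  have h2 := rr_ge hn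
  nlinarith

theorem gB_ge {n : ℕ} (hn : 1 ≤ n) : (1 : ℝ) ≤ (gB n : ℝ) := by
  rw [gB_cast]
  have h1 := n_ge hn
  have h2 := gV_ge hn
  nlinarith

theorem b_ge {n : ℕ} (hn : 1 ≤ n) (j : ℕ) : (1 : ℝ) ≤ (gB n : ℝ) ^ j :=
  one_le_pow₀ (gB_ge hn)

/-- the real height inside the level -/
def hh (n : ℕ) (c : Bool) (t : ℕ) : ℝ := (if c then (gV n : ℝ) else 0) + (4 * (n : ℝ)) ^ t

theorem gh_cast (n : ℕ) (c : Bool) (t : ℕ) : ((gh n c t : ℕ) : ℝ) = hh n c t := by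
  unfold gh hh
  cases c <;> simp [gR]

section

variable {V : Type} {n : ℕ} {ℓ β τ : V → ℕ} {c : V → Bool} {P : V → ℝ × ℝ}

theorem px (H : StdPos n ℓ β τ c P) (v : V) :
    (P v).1 = (gD n : ℝ) * (ℓ v : ℝ) + (β v : ℝ) := by
  rw [H.px v]; push_cast; ring

theorem py (H : StdPos n ℓ β τ c P) (v : V) :
    (gY n (ℓ v) : ℝ) + (gB n : ℝ) ^ ℓ v * hh n (c v) (τ v) - 1 / 4 < (P v).2 ∧
    (P v).2 < (gY n (ℓ v) : ℝ) + (gB n : ℝ) ^ ℓ v * hh n (c v) (τ v) + 1 / 4 := by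
  have h := H.py v
  rw [abs_lt] at h
  push_cast at h
  rw [gh_cast] at h
  constructor <;> linarith [h.1, h.2]

theorem hβ' (H : StdPos n ℓ β τ c P) (v : V) : 0 ≤ (β v : ℝ) ∧ (β v : ℝ) + 1 ≤ n := by
  refine ⟨Nat.cast_nonneg _, ?_⟩
  exact_mod_cast H.hβ v

theorem hτ' (H : StdPos n ℓ β τ c P) (v : V) : 1 ≤ (4 * (n : ℝ)) ^ τ v ∧
    4 * (n : ℝ) * (4 * (n : ℝ)) ^ τ v ≤ rr n :=
  ⟨pow_pos' H.n1 _, pow_grow H.n1 (H.hτ v)⟩

/-- bounds for the height inside the level: `1 ≤ h ≤ 2 V` -/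
theorem hh_bd (H : StdPos n ℓ β τ c P) (v : V) :
    1 ≤ hh n (c v) (τ v) ∧ hh n (c v) (τ v) ≤ 2 * (gV n : ℝ) := by
  obtain ⟨h1, h2⟩ := hτ' H v
  have h3 := n_ge H.n1
  have h4 := gV_ge H.n1
  have h5 := gV_cast n
  have h6 := rr_ge H.n1
  have h7 : (4 * (n : ℝ)) ^ τ v ≤ rr n := by nlinarith
  have h8 : rr n ≤ (gV n : ℝ) := by rw [h5]; nlinarith
  unfold hh
  split
  · constructor <;> linarith
  · constructor <;> linarith

end

end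

end Pool.Agent.Lib.MP_1fca17_co.Q.GA
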