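import Mathlib
import Pool.Agent.Lib.MP_1fca17_co.Q.GDefs
import Pool.Agent.Lib.MP_1fca17_co.Geo

/-!
# MP_1fca17_co : the decoupling lemma from the statements about two edges (helper93)
-/

namespace Pool.Agent.Lib.MP_1fca17_co.Q

open Finset
open scoped Classical
open Pool.Agent.Lib.MP_1fca17_co (sg GenPos Btw LC MonoFam StCount StNum1)

/-- two edges with a common end do not meet -/
theorem share93 {V : Type} {P : V → ℝ × ℝ} (hP : GenPos P) {a b d : V} (hab : a ≠ b)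
    (had : a ≠ d) (hbd : b ≠ d) {z : ℝ × ℝ} (hz1 : z ∈ sg P (a, b)) (hz2 : z ∈ sg P (a, d)) :
    False := by
  apply hP.col a b d hab had hbd
  rw [collinear_iff_of_mem (p₀ := P a) (by simp)]
  obtain ⟨t, ht, -, e1, e2⟩ := GeoAux.mem_sg hz1
  obtain ⟨s, hs, -, e3, e4⟩ := GeoAux.mem_sg hz2
  refine ⟨z - P a, ?_⟩
  intro p hp
  have aux : ∀ (c : V) (r : ℝ), 0 < r → z.1 = (P a).1 + r * ((P c).1 - (P a).1) →
      z.2 = (P a).2 + r * ((P c).2 - (P a).2) → P c = r⁻¹ • (z - P a) +ᵥ P a := by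
    intro c r hr h1 h2
    have hr' : r ≠ 0 := hr.ne'
    apply Prod.ext
    · simp only [vadd_eq_add, Prod.fst_add, Prod.smul_fst, Prod.fst_sub, smul_eq_mul]
      rw [h1]; field_simp; ring
    · simp only [vadd_eq_add, Prod.snd_add, Prod.smul_snd, Prod.snd_sub, smul_eq_mul]
      rw [h2]; field_simp; ring
  simp only [Set.mem_insert_iff, Set.mem_singleton_iff] at hp
  rcases hp with rfl | rfl | rfl
  · exact ⟨0, by simp⟩
  · exact ⟨t⁻¹, aux b t ht e1 e2⟩
  · exact ⟨s⁻¹, aux d s hs e3 e4⟩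

theorem sg_symm93 {V : Type} (P : V → ℝ × ℝ) (a b : V) : sg P (a, b) = sg P (b, a) := by
  unfold sg
  exact openSegment_symm ℝ _ _

theorem edgeSeg93 {V : Type} (P : V → ℝ × ℝ) (a b : V) : edgeSeg P s(a, b) = sg P (a, b) := by
  ext z
  unfold edgeSeg
  constructor
  · rintro ⟨u, v, h, hz⟩
    rcases Sym2.eq_iff.1 h with ⟨rfl, rfl⟩ | ⟨rfl, rfl⟩
    · exact hz
    · rw [sg_symm93]; exact hz
  · intro hz
    exact ⟨a, b, rfl, hz⟩

/-- the four ends of two different edges that meet are different -/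
theorem four93 {V : Type} {P : V → ℝ × ℝ} (hP : GenPos P) {G : SimpleGraph V} {e f : V × V}
    (he : G.Adj e.1 e.2) (hf : G.Adj f.1 f.2) (hne : s(e.1, e.2) ≠ s(f.1, f.2))
    (h : (sg P e ∩ sg P f).Nonempty) : e.1 ≠ f.1 ∧ e.1 ≠ f.2 ∧ e.2 ≠ f.1 ∧ e.2 ≠ f.2 := by
  obtain ⟨a, b⟩ := e
  obtain ⟨c, d⟩ := f
  obtain ⟨z, hz1, hz2⟩ := h
  simp only at he hf hne ⊢
  have hab := he.ne
  have hcd := hf.ne
  refine ⟨?_, ?_, ?_, ?_⟩
  · rintro rfl
    exact share93 hP hab hcd (fun h => hne (by rw [h])) hz1 hz2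
  · rintro rfl
    rw [sg_symm93 P c a] at hz2
    exact share93 hP hab hcd.symm (fun h => hne (by rw [h]; exact Sym2.eq_swap)) hz1 hz2
  · rintro rfl
    rw [sg_symm93 P a b] at hz1
    exact share93 hP hab.symm hcd (fun h => hne (by rw [h]; exact Sym2.eq_swap)) hz1 hz2
  · rintro rfl
    rw [sg_symm93 P a b] at hz1
    rw [sg_symm93 P c b] at hz2
    exact share93 hP hab.symm hcd.symm (fun h => hne (by rw [h])) hz1 hz2

/-- the orientations that are used -/
def Typ93 {V : Type} (ℓ τ : V → ℕ) (c : V → Bool) (e : V × V) : Prop :=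
  ℓ e.2 = ℓ e.1 + 1 ∨ (ℓ e.2 = ℓ e.1 ∧ c e.1 = false ∧ c e.2 = true) ∨
    (ℓ e.2 = ℓ e.1 ∧ c e.1 = c e.2 ∧ τ e.1 < τ e.2)

theorem orient93 {V : Type} (G : SimpleGraph V) (ℓ τ : V → ℕ) (c : V → Bool)
    (hl : ∀ u v, G.Adj u v → ℓ u ≤ ℓ v + 1)
    (hτ : ∀ u v, ℓ u = ℓ v → τ u = τ v → u = v) (e : Sym2 V) (he : e ∈ G.edgeSet) :
    ∃ o : V × V, s(o.1, o.2) = e ∧ G.Adj o.1 o.2 ∧ Typ93 ℓ τ c o := by
  induction e using Sym2.ind with
  | _ u v =>
    have h : G.Adj u v := he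
    have h1 := hl u v h
    have h2 := hl v u h.symm
    have hne := h.ne
    rcases Nat.lt_trichotomy (ℓ u) (ℓ v) with h3 | h3 | h3
    · exact ⟨(u, v), rfl, h, Or.inl (by simp only; omega)⟩
    · by_cases hc : c u = c v
      · rcases Nat.lt_trichotomy (τ u) (τ v) with h4 | h4 | h4
        · exact ⟨(u, v), rfl, h, Or.inr (Or.inr ⟨h3.symm, hc, h4⟩)⟩
        · exact absurd (hτ u v h3 h4) hne
        · exact ⟨(v, u), Sym2.eq_swap, h.symm, Or.inr (Or.inr ⟨h3, hc.symm, h4⟩)⟩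
      · cases hu : c u with
        | false =>
          have hv : c v = true := by
            cases hv : c v with
            | false => exact absurd (hu.trans hv.symm) hc
            | true => rfl
          exact ⟨(u, v), rfl, h, Or.inr (Or.inl ⟨h3.symm, hu, hv⟩)⟩
        | true =>
          have hv : c v = false := by
            cases hv : c v with
            | true => exact absurd (hu.trans hv.symm) hc
            | false => rfl
          exact ⟨(v, u), Sym2.eq_swap, h.symm, Or.inr (Or.inl ⟨h3, hv, hu⟩)⟩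
    · exact ⟨(v, u), Sym2.eq_swap, h.symm, Or.inl (by simp only; omega)⟩

/-- the count -/
theorem count93 {V : Type} (G : SimpleGraph V) (ℓ β τ : V → ℕ) (c : V → Bool)
    (M1 M2 M3 : ℕ)
    (H1 : ∀ (j : ℕ) (b : Bool) (F : Finset (V × V)),
      (∀ e ∈ F, G.Adj e.1 e.2 ∧ ℓ e.1 = j ∧ ℓ e.2 = j + 1 ∧ c e.2 = b) → Par β τ F →
      F.card ≤ M1)
    (H2 : ∀ (j : ℕ) (F : Finset (V × V)),
      (∀ e ∈ F, G.Adj e.1 e.2 ∧ ℓ e.1 = j ∧ ℓ e.2 = j ∧ c e.1 = false ∧ c e.2 = true) →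
      Anti β β F → F.card ≤ M2)
    (H3 : ∀ (j : ℕ) (F : Finset (V × V)),
      (∀ e ∈ F, G.Adj e.1 e.2 ∧ ℓ e.1 = j ∧ ℓ e.2 = j ∧ c e.1 = c e.2 ∧ τ e.1 < τ e.2) →
      (∀ e ∈ F, ∀ f ∈ F, e ≠ f → LC β τ f e ∨ LC β τ e f) → F.card ≤ M3)
    (F : Finset (V × V)) (hadj : ∀ e ∈ F, G.Adj e.1 e.2) (htyp : ∀ e ∈ F, Typ93 ℓ τ c e)
    (hfar : ∀ e ∈ F, ∀ f ∈ F, ¬ (ℓ e.1 < ℓ f.1 ∧ ℓ e.1 < ℓ f.2 ∧ ℓ e.2 < ℓ f.1 ∧ ℓ e.2 < ℓ f.2))
    (hcol : ∀ e ∈ F, ∀ f ∈ F, ¬ (ℓ f.1 = ℓ e.1 ∧ ℓ e.2 = ℓ e.1 ∧ ℓ f.2 = ℓ e.1 ∧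
      c e.1 = false ∧ c e.2 = false ∧ c f.1 = true ∧ c f.2 = true))
    (h2 : ∀ e ∈ F, ∀ f ∈ F, e ≠ f → ℓ f.1 = ℓ e.1 → ℓ e.2 = ℓ e.1 + 1 → ℓ f.2 = ℓ e.1 + 1 →
      c e.2 = c f.2 → (β e.1 < β f.1 ∧ τ e.2 < τ f.2) ∨ (β f.1 < β e.1 ∧ τ f.2 < τ e.2))
    (h3 : ∀ e ∈ F, ∀ f ∈ F, e ≠ f → ℓ f.1 = ℓ e.1 → ℓ e.2 = ℓ e.1 → ℓ f.2 = ℓ e.1 →
      c e.1 = false → c f.1 = false → c e.2 = true → c f.2 = true →
      (β e.1 < β f.1 ∧ β f.2 < β e.2) ∨ (β f.1 < β e.1 ∧ β e.2 < β f.2))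
    (h4 : ∀ e ∈ F, ∀ f ∈ F, e ≠ f → ℓ f.1 = ℓ e.1 → ℓ e.2 = ℓ e.1 → ℓ f.2 = ℓ e.1 →
      c f.1 = c e.1 → c e.2 = c e.1 → c f.2 = c e.1 → τ e.1 < τ e.2 → τ f.1 < τ f.2 →
      LC β τ f e ∨ LC β τ e f) :
    F.card ≤ 4 * M1 + M2 + M3 := by
  set FA := F.filter (fun e => ℓ e.2 = ℓ e.1 + 1) with hFA
  set FB := F.filter (fun e => ℓ e.2 = ℓ e.1 ∧ c e.1 = false ∧ c e.2 = true) with hFB
  set FC := F.filter (fun e => ℓ e.2 = ℓ e.1 ∧ c e.1 = c e.2 ∧ τ e.1 < τ e.2) with hFC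
  have hsub : F ⊆ FA ∪ FB ∪ FC := by
    intro e he
    simp only [hFA, hFB, hFC, mem_union, mem_filter]
    rcases htyp e he with h | h | h
    · exact Or.inl (Or.inl ⟨he, h⟩)
    · exact Or.inl (Or.inr ⟨he, h⟩)
    · exact Or.inr ⟨he, h⟩
  -- edges inside the levels
  have cB : FB.card ≤ M2 := by
    rcases FB.eq_empty_or_nonempty with h0 | ⟨e0, he0⟩
    · rw [h0]; simp
    · have m0 := (mem_filter.1 (hFB ▸ he0))
      have key : ∀ e ∈ FB, ℓ e.1 = ℓ e0.1 := by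
        intro e he
        have m := (mem_filter.1 (hFB ▸ he))
        have f1 := hfar e m.1 e0 m0.1
        have f2 := hfar e0 m0.1 e m.1
        have := m.2.1
        have := m0.2.1
        omega
      apply H2 (ℓ e0.1) FB
      · intro e he
        have m := (mem_filter.1 (hFB ▸ he))
        exact ⟨hadj e m.1, key e he, by rw [m.2.1, key e he], m.2.2.1, m.2.2.2⟩
      · intro e he f hf hef
        have m := (mem_filter.1 (hFB ▸ he))
        have m' := (mem_filter.1 (hFB ▸ hf))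
        have k1 := key e he
        have k2 := key f hf
        exact h3 e m.1 f m'.1 hef (by omega) m.2.1 (by have := m'.2.1; omega) m.2.2.1 m'.2.2.1
          m.2.2.2 m'.2.2.2
  have cC : FC.card ≤ M3 := by
    rcases FC.eq_empty_or_nonempty with h0 | ⟨e0, he0⟩
    · rw [h0]; simp
    · have m0 := (mem_filter.1 (hFC ▸ he0))
      have key : ∀ e ∈ FC, ℓ e.1 = ℓ e0.1 := by
        intro e he
        have m := (mem_filter.1 (hFC ▸ he))
        have f1 := hfar e m.1 e0 m0.1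
        have f2 := hfar e0 m0.1 e m.1
        have := m.2.1
        have := m0.2.1
        omega
      apply H3 (ℓ e0.1) FC
      · intro e he
        have m := (mem_filter.1 (hFC ▸ he))
        exact ⟨hadj e m.1, key e he, by rw [m.2.1, key e he], m.2.2.1, m.2.2.2⟩
      · intro e he f hf hef
        have m := (mem_filter.1 (hFC ▸ he))
        have m' := (mem_filter.1 (hFC ▸ hf))
        have k1 := key e he
        have k2 := key f hf
        have l1 := m.2.1
        have l2 := m'.2.1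
        have hc : c f.1 = c e.1 := by
          have g1 := hcol e m.1 f m'.1
          have g2 := hcol f m'.1 e m.1
          have c1 := m.2.2.1
          have c2 := m'.2.2.1
          cases ha : c e.1 with
          | false =>
            cases hb : c f.1 with
            | false => rfl
            | true =>
              exact absurd ⟨by omega, l1, by omega, ha, by rw [← c1, ha], hb, by rw [← c2, hb]⟩ g1
          | true =>
            cases hb : c f.1 with
            | true => rfl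
            | false =>
              exact absurd ⟨by omega, l2, by omega, hb, by rw [← c2, hb], ha, by rw [← c1, ha]⟩ g2
        exact h4 e m.1 f m'.1 hef (by omega) l1 (by omega) hc m.2.2.1.symm
          (by rw [← m'.2.2.1, hc]) m.2.2.2 m'.2.2.2
  have cA : FA.card ≤ 4 * M1 := by
    rcases FA.eq_empty_or_nonempty with h0 | hn
    · rw [h0]; simp
    · obtain ⟨e0, he0, hmin⟩ := exists_min_image FA (fun e => ℓ e.1) hn
      have m0 := (mem_filter.1 (hFA ▸ he0))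
      have key : ∀ e ∈ FA, ℓ e.1 = ℓ e0.1 ∨ ℓ e.1 = ℓ e0.1 + 1 := by
        intro e he
        have m := (mem_filter.1 (hFA ▸ he))
        have f2 := hfar e0 m0.1 e m.1
        have h1 : ℓ e0.1 ≤ ℓ e.1 := hmin e he
        have := m.2
        have := m0.2
        omega
      have piece : ∀ (j : ℕ) (b : Bool),
          (FA.filter (fun e => ℓ e.1 = j ∧ c e.2 = b)).card ≤ M1 := by
        intro j b
        apply H1 j b
        · intro e he
          have m1 := mem_filter.1 he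
          have m := (mem_filter.1 (hFA ▸ m1.1))
          exact ⟨hadj e m.1, m1.2.1, by rw [m.2, m1.2.1], m1.2.2⟩
        · intro e he f hf hef
          have m1 := mem_filter.1 he
          have m := (mem_filter.1 (hFA ▸ m1.1))
          have m1' := mem_filter.1 hf
          have m' := (mem_filter.1 (hFA ▸ m1'.1))
          have a1 := m1.2.1
          have a2 := m1'.2.1
          have a3 := m.2
          have a4 := m'.2
          exact h2 e m.1 f m'.1 hef (by omega) (by omega) (by omega)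
            (by rw [m1.2.2, m1'.2.2])
      have hsub2 : FA ⊆ (FA.filter (fun e => ℓ e.1 = ℓ e0.1 ∧ c e.2 = false) ∪
          FA.filter (fun e => ℓ e.1 = ℓ e0.1 ∧ c e.2 = true)) ∪
          (FA.filter (fun e => ℓ e.1 = ℓ e0.1 + 1 ∧ c e.2 = false) ∪
          FA.filter (fun e => ℓ e.1 = ℓ e0.1 + 1 ∧ c e.2 = true)) := by
        intro e he
        simp only [mem_union, mem_filter]
        rcases key e he with h | h
        · cases hb : c e.2 with
          | false => exact Or.inl (Or.inl ⟨he, h, rfl⟩)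
          | true => exact Or.inl (Or.inr ⟨he, h, rfl⟩)
        · cases hb : c e.2 with
          | false => exact Or.inr (Or.inl ⟨he, h, rfl⟩)
          | true => exact Or.inr (Or.inr ⟨he, h, rfl⟩)
      have q1 := card_le_card hsub2
      have q2 := card_union_le (FA.filter (fun e => ℓ e.1 = ℓ e0.1 ∧ c e.2 = false) ∪
          FA.filter (fun e => ℓ e.1 = ℓ e0.1 ∧ c e.2 = true))
          (FA.filter (fun e => ℓ e.1 = ℓ e0.1 + 1 ∧ c e.2 = false) ∪
          FA.filter (fun e => ℓ e.1 = ℓ e0.1 + 1 ∧ c e.2 = true))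
      have q3 := card_union_le (FA.filter (fun e => ℓ e.1 = ℓ e0.1 ∧ c e.2 = false))
          (FA.filter (fun e => ℓ e.1 = ℓ e0.1 ∧ c e.2 = true))
      have q4 := card_union_le (FA.filter (fun e => ℓ e.1 = ℓ e0.1 + 1 ∧ c e.2 = false))
          (FA.filter (fun e => ℓ e.1 = ℓ e0.1 + 1 ∧ c e.2 = true))
      have p1 := piece (ℓ e0.1) false
      have p2 := piece (ℓ e0.1) true
      have p3 := piece (ℓ e0.1 + 1) false
      have p4 := piece (ℓ e0.1 + 1) true
      omega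
  have q1 := card_le_card hsub
  have q2 := card_union_le (FA ∪ FB) FC
  have q3 := card_union_le FA FB
  omega

/-- GEOM -/
theorem stGeom (hgp : StGP) (hG2 : StG2) (hG3 : StG3) (hG4 : StG4) (hG6 : StG6) : StGeom := by
  intro V _ G ℓ β τ c M1 M2 M3 hl hβ hτ H1 H2 H3
  -- the bound `n`
  obtain ⟨n, hn1, hnβ, hnτ⟩ : ∃ n : ℕ, 1 ≤ n ∧ (∀ v, β v < n) ∧ ∀ v, τ v < n := by
    refine ⟨(univ : Finset V).sup β + (univ : Finset V).sup τ + 1, by omega, ?_, ?_⟩
    · intro v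
      have := le_sup (f := β) (mem_univ v)
      omega
    · intro v
      have := le_sup (f := τ) (mem_univ v)
      omega
  have hnD : n ≤ gD n := by
    have hR : 1 ≤ gR n ^ n := Nat.one_le_pow _ _ (by unfold gR; omega)
    have hV : 1 ≤ gV n := by
      unfold gV
      exact Nat.one_le_iff_ne_zero.2 (by positivity)
    unfold gD
    nlinarith
  have hxinj : Function.Injective (fun v : V => ((gD n * ℓ v + β v : ℕ) : ℝ)) := by
    intro u v h
    have h2 : ((gD n * ℓ u + β u : ℕ) : ℝ) = ((gD n * ℓ v + β v : ℕ) : ℝ) := h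
    have h' : gD n * ℓ u + β u = gD n * ℓ v + β v := by exact_mod_cast h2
    have bu := hnβ u
    have bv := hnβ v
    have hll : ℓ u = ℓ v := by
      rcases Nat.lt_trichotomy (ℓ u) (ℓ v) with h1 | h1 | h1
      · have : gD n * (ℓ u + 1) ≤ gD n * ℓ v := Nat.mul_le_mul_left _ h1
        rw [Nat.mul_add, Nat.mul_one] at this
        omega
      · exact h1
      · have : gD n * (ℓ v + 1) ≤ gD n * ℓ u := Nat.mul_le_mul_left _ h1
        rw [Nat.mul_add, Nat.mul_one] at this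
        omega
    rw [hll] at h'
    exact hβ u v hll (by omega)
  obtain ⟨P, hP, hPx, hPy⟩ := hgp V (fun v : V => ((gD n * ℓ v + β v : ℕ) : ℝ))
    (fun v => ((gY n (ℓ v) + gB n ^ ℓ v * gh n (c v) (τ v) : ℕ) : ℝ)) (1 / 4) hxinj (by norm_num)
  have hstd : StdPos n ℓ β τ c P := ⟨hn1, hnβ, hnτ, hβ, hτ, hPx, hPy⟩
  refine ⟨P, hP, ?_⟩
  intro F hF hcross
  -- orientation
  have hex : ∀ e : Sym2 V, ∃ o : V × V, e ∈ G.edgeSet →
      s(o.1, o.2) = e ∧ G.Adj o.1 o.2 ∧ Typ93 ℓ τ c o := by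
    intro e
    by_cases he : e ∈ G.edgeSet
    · obtain ⟨o, h⟩ := orient93 G ℓ τ c hl hτ e he
      exact ⟨o, fun _ => h⟩
    · induction e using Sym2.ind with
      | _ u v => exact ⟨(u, v), fun h => absurd h he⟩
  choose o ho using hex
  have ho1 := fun e he => (ho e he).1
  have ho2 := fun e he => (ho e he).2.1
  have ho3 := fun e he => (ho e he).2.2
  have hoF : ∀ e ∈ F, s((o e).1, (o e).2) = e := fun e he => ho1 e (hF e he)
  have hinj : Set.InjOn o (F : Set (Sym2 V)) := by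
    intro e he f hf h
    rw [← hoF e he, ← hoF f hf, h]
  have hcard : (F.image o).card = F.card := card_image_of_injOn hinj
  rw [← hcard]
  have hadj : ∀ e ∈ F.image o, G.Adj e.1 e.2 := by
    intro e he
    obtain ⟨e', he', rfl⟩ := mem_image.1 he
    exact ho2 e' (hF e' he')
  have htyp : ∀ e ∈ F.image o, Typ93 ℓ τ c e := by
    intro e he
    obtain ⟨e', he', rfl⟩ := mem_image.1 he
    exact ho3 e' (hF e' he')
  have hdist : ∀ e ∈ F.image o, ∀ f ∈ F.image o, e ≠ f → s(e.1, e.2) ≠ s(f.1, f.2) := by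
    intro e he f hf hef h
    obtain ⟨e', he', rfl⟩ := mem_image.1 he
    obtain ⟨f', hf', rfl⟩ := mem_image.1 hf
    rw [hoF e' he', hoF f' hf'] at h
    exact hef (by rw [h])
  have hmeet : ∀ e ∈ F.image o, ∀ f ∈ F.image o, e ≠ f → (sg P e ∩ sg P f).Nonempty := by
    intro e he f hf hef
    obtain ⟨e', he', rfl⟩ := mem_image.1 he
    obtain ⟨f', hf', rfl⟩ := mem_image.1 hf
    have h1 := hcross e' he' f' hf' (fun h => hef (by rw [h]))
    rw [← hoF e' he', ← hoF f' hf', edgeSeg93, edgeSeg93] at h1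
    exact h1
  have hfour : ∀ e ∈ F.image o, ∀ f ∈ F.image o, e ≠ f →
      e.1 ≠ f.1 ∧ e.1 ≠ f.2 ∧ e.2 ≠ f.1 ∧ e.2 ≠ f.2 := fun e he f hf hef =>
    four93 hP (hadj e he) (hadj f hf) (hdist e he f hf hef) (hmeet e he f hf hef)
  apply count93 G ℓ β τ c M1 M2 M3 H1 H2 H3 (F.image o) hadj htyp
  · intro e he f hf
    by_cases hef : e = f
    · subst hef
      rintro ⟨h, -⟩
      exact lt_irrefl _ h
    · exact (hG6 V n ℓ β τ c P hstd e.1 e.2 f.1 f.2 (hmeet e he f hf hef)).1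
  · intro e he f hf
    by_cases hef : e = f
    · subst hef
      rintro ⟨-, -, -, h1, -, h2, -⟩
      rw [h1] at h2
      exact Bool.noConfusion h2
    · exact (hG6 V n ℓ β τ c P hstd e.1 e.2 f.1 f.2 (hmeet e he f hf hef)).2
  · intro e he f hf hef l1 l2 l3 hc
    obtain ⟨d1, d2, d3, d4⟩ := hfour e he f hf hef
    have hm := hmeet e he f hf hef
    have hm' := hmeet f hf e he (Ne.symm hef)
    rcases Nat.lt_trichotomy (β e.1) (β f.1) with hb | hb | hb
    · exact Or.inl ⟨hb, hG2 V n ℓ β τ c P hstd e.1 e.2 f.1 f.2 l1 l2 l3 d1 d4 hc hm hb⟩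
    · exact absurd (hβ _ _ l1.symm hb) d1
    · exact Or.inr ⟨hb, hG2 V n ℓ β τ c P hstd f.1 f.2 e.1 e.2 l1.symm (by omega) (by omega)
        d1.symm d4.symm hc.symm hm' hb⟩
  · intro e he f hf hef l1 l2 l3 c1 c2 c3 c4
    obtain ⟨d1, d2, d3, d4⟩ := hfour e he f hf hef
    have hm := hmeet e he f hf hef
    have hm' := hmeet f hf e he (Ne.symm hef)
    rcases Nat.lt_trichotomy (β e.1) (β f.1) with hb | hb | hb
    · exact Or.inl ⟨hb, hG3 V n ℓ β τ c P hstd e.1 e.2 f.1 f.2 l1 l2 l3 c1 c2 c3 c4 d1 d4 hm hb⟩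
    · exact absurd (hβ _ _ l1.symm hb) d1
    · exact Or.inr ⟨hb, hG3 V n ℓ β τ c P hstd f.1 f.2 e.1 e.2 l1.symm (by omega) (by omega)
        c2 c1 c4 c3 d1.symm d4.symm hm' hb⟩
  · intro e he f hf hef l1 l2 l3 c1 c2 c3 t1 t2
    obtain ⟨d1, d2, d3, d4⟩ := hfour e he f hf hef
    have hm := hmeet e he f hf hef
    exact hG4 V n ℓ β τ c P hstd e.1 e.2 f.1 f.2 l1 l2 l3 c1 c2 c3 d1 d2 d3 d4 t1 t2 hm

end Pool.Agent.Lib.MP_1fca17_co.Q
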