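import Mathlib
import Pool.Agent.Lib.MP_1fca17_co.Q.Defs
import Pool.Agent.Lib.MP_1fca17_co.Geo

/-!
# MP_1fca17_co : general position with prescribed first coordinates
-/

namespace Pool.Agent.Lib.MP_1fca17_co.Q

open Finset
open scoped Classical
open Pool.Agent.Lib.MP_1fca17_co (sg GenPos Btw LC MonoFam StCount StNum1)

noncomputable section

namespace GPAux

open Pool.Agent.Lib.MP_1fca17_co.GeoAux

variable {V : Type}

/-- the points -/
def pq (x h : V → ℝ) (v : V) : ℝ × ℝ := (x v, h v)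

/-- three segments through one point -/
def Conc (x h : V → ℝ) (a b c d e f : V) : Prop :=
  ∃ z, z ∈ sg (pq x h) (a, b) ∧ z ∈ sg (pq x h) (c, d) ∧ z ∈ sg (pq x h) (e, f)

theorem sg_symm (P : V → ℝ × ℝ) (a b : V) : sg P (a, b) = sg P (b, a) := by
  unfold sg
  rw [openSegment_symm]

theorem conc_s1 {x h : V → ℝ} {a b c d e f : V} (H : Conc x h a b c d e f) :
    Conc x h b a c d e f := by
  obtain ⟨z, h1, h2, h3⟩ := H
  exact ⟨z, by rwa [sg_symm], h2, h3⟩

theorem conc_r {x h : V → ℝ} {a b c d e f : V} (H : Conc x h a b c d e f) :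
    Conc x h c d a b e f := by
  obtain ⟨z, h1, h2, h3⟩ := H
  exact ⟨z, h2, h1, h3⟩

theorem conc_r' {x h : V → ℝ} {a b c d e f : V} (H : Conc x h a b c d e f) :
    Conc x h e f a b c d := by
  obtain ⟨z, h1, h2, h3⟩ := H
  exact ⟨z, h3, h1, h2⟩

/-- the height of `a` is determined -/
theorem conc_uniq {x h h' : V → ℝ} (hx : Function.Injective x) {a b c d e f : V}
    (hab : a ≠ b) (hcd : c ≠ d)
    (hb : h' b = h b) (hc : h' c = h c) (hd : h' d = h d) (he : h' e = h e) (hf : h' f = h f)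
    (hcr : cr (pq x h) c d e ≠ 0)
    (H : Conc x h a b c d e f) (H' : Conc x h' a b c d e f) : h a = h' a := by
  obtain ⟨z, z1, z2, z3⟩ := H
  obtain ⟨w, w1, w2, w3⟩ := H'
  obtain ⟨t, t0, t1, e1, e2⟩ := mem_sg z1
  obtain ⟨s, s0, s1, e3, e4⟩ := mem_sg z2
  obtain ⟨u, u0, u1, e5, e6⟩ := mem_sg z3
  obtain ⟨t', t0', t1', e1', e2'⟩ := mem_sg w1
  obtain ⟨s', s0', s1', e3', e4'⟩ := mem_sg w2
  obtain ⟨u', u0', u1', e5', e6'⟩ := mem_sg w3
  simp only [pq] at e1 e2 e3 e4 e5 e6 e1' e2' e3' e4' e5' e6'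
  rw [hb] at e2'
  rw [hc, hd] at e4'
  rw [he, hf] at e6'
  have xab : x b - x a ≠ 0 := fun k => hab (hx (by linarith))
  have xcd : x d - x c ≠ 0 := fun k => hcd (hx (by linarith))
  have l1 : (z.2 - h c) * (x d - x c) = (z.1 - x c) * (h d - h c) := by
    rw [e3, e4]; ring
  have l2 : (w.2 - h c) * (x d - x c) = (w.1 - x c) * (h d - h c) := by
    rw [e3', e4']; ring
  have l3 : (z.2 - h e) * (x f - x e) = (z.1 - x e) * (h f - h e) := by
    rw [e5, e6]; ring
  have l4 : (w.2 - h e) * (x f - x e) = (w.1 - x e) * (h f - h e) := by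
    rw [e5', e6']; ring
  have k1 : z.1 = w.1 := by
    by_contra hne
    have hne' : z.1 - w.1 ≠ 0 := sub_ne_zero.2 hne
    have m1 : (z.2 - w.2) * (x d - x c) = (z.1 - w.1) * (h d - h c) := by linarith
    have m2 : (z.2 - w.2) * (x f - x e) = (z.1 - w.1) * (h f - h e) := by linarith
    have m3 : (z.1 - w.1) * ((h d - h c) * (x f - x e) - (h f - h e) * (x d - x c)) = 0 := by
      have : (z.1 - w.1) * ((h d - h c) * (x f - x e) - (h f - h e) * (x d - x c)) =
        ((z.1 - w.1) * (h d - h c)) * (x f - x e) -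
        ((z.1 - w.1) * (h f - h e)) * (x d - x c) := by ring
      rw [this, ← m1, ← m2]
      ring
    have m4 : (h d - h c) * (x f - x e) - (h f - h e) * (x d - x c) = 0 := by
      rcases mul_eq_zero.1 m3 with k | k
      · exact absurd k hne'
      · exact k
    apply hcr
    unfold cr
    simp only [pq]
    have m5 : (z.2 - h c) * (x d - x c) - (z.1 - x c) * (h d - h c) = 0 := by linarith
    rw [e5, e6] at m5
    have m6 : (h d - h c) * (x e - x c) - (h e - h c) * (x d - x c) =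
        - ((h e + u * (h f - h e) - h c) * (x d - x c) -
          (x e + u * (x f - x e) - x c) * (h d - h c)) -
        u * ((h d - h c) * (x f - x e) - (h f - h e) * (x d - x c)) := by ring
    rw [m6, m5, m4]
    ring
  have k2 : z.2 = w.2 := by
    rw [k1] at l1
    have : (z.2 - w.2) * (x d - x c) = 0 := by linarith
    rcases mul_eq_zero.1 this with k | k
    · linarith
    · exact absurd k xcd
  have k3 : t = t' := by
    have : (t - t') * (x b - x a) = 0 := by
      rw [e1, e1'] at k1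
      linarith
    rcases mul_eq_zero.1 this with k | k
    · linarith
    · exact absurd k xab
  subst k3
  rw [e2, e2'] at k2
  have : (1 - t) * (h a - h' a) = 0 := by linarith
  rcases mul_eq_zero.1 this with k | k
  · linarith
  · linarith

theorem cr_uniq {x h h' : V → ℝ} (hx : Function.Injective x) {a u w : V} (huw : u ≠ w)
    (hu : h' u = h u) (hw : h' w = h w)
    (H : cr (pq x h) a u w = 0) (H' : cr (pq x h') a u w = 0) : h a = h' a := by
  unfold cr at H H'
  simp only [pq] at H H'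
  rw [hu, hw] at H'
  have xuw : x u - x w ≠ 0 := fun k => huw (hx (by linarith))
  have : (h a - h' a) * (x u - x w) = 0 := by linarith
  rcases mul_eq_zero.1 this with k | k
  · linarith
  · exact absurd k xuw

/-- the property of the processed vertices -/
def Good (x h : V → ℝ) (S : Finset V) : Prop :=
  (∀ u ∈ S, ∀ v ∈ S, ∀ w ∈ S, u ≠ v → u ≠ w → v ≠ w → cr (pq x h) u v w ≠ 0) ∧
  ∀ a ∈ S, ∀ b ∈ S, ∀ c ∈ S, ∀ d ∈ S, ∀ e ∈ S, ∀ f ∈ S, [a, b, c, d, e, f].Nodup →
    ¬ Conc x h a b c d e f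

theorem step [Fintype V] {x y h : V → ℝ} {ε : ℝ} (hx : Function.Injective x) (hε : 0 < ε)
    {S : Finset V} (hS : Good x h S) (hy : ∀ v, |h v - y v| < ε) {a : V} (ha : a ∉ S) :
    ∃ h' : V → ℝ, Good x h' (insert a S) ∧ ∀ v, |h' v - y v| < ε := by
  have F1 : (⋃ p : V × V, {t : ℝ | p.1 ∈ S ∧ p.2 ∈ S ∧ p.1 ≠ p.2 ∧
      cr (pq x (Function.update h a t)) a p.1 p.2 = 0}).Finite := by
    refine Set.finite_iUnion fun p => Set.Subsingleton.finite ?_
    rintro t ⟨h1, h2, h3, h4⟩ t' ⟨-, -, -, h5⟩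
    have n1 : p.1 ≠ a := fun k => ha (k ▸ h1)
    have n2 : p.2 ≠ a := fun k => ha (k ▸ h2)
    have := cr_uniq hx h3 (h := Function.update h a t) (h' := Function.update h a t')
      (by simp [n1]) (by simp [n2]) h4 h5
    simpa using this
  have F2 : (⋃ p : (V × V) × (V × V) × V, {t : ℝ | p.1.1 ∈ S ∧ p.1.2 ∈ S ∧ p.2.1.1 ∈ S ∧
      p.2.1.2 ∈ S ∧ p.2.2 ∈ S ∧ [a, p.1.1, p.1.2, p.2.1.1, p.2.1.2, p.2.2].Nodup ∧
      Conc x (Function.update h a t) a p.1.1 p.1.2 p.2.1.1 p.2.1.2 p.2.2}).Finite := by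
    refine Set.finite_iUnion fun p => Set.Subsingleton.finite ?_
    obtain ⟨⟨b, c⟩, ⟨d, e⟩, f⟩ := p
    rintro t ⟨hb, hc, hd, he, hf, hn, h4⟩ t' ⟨-, -, -, -, -, -, h5⟩
    simp only at hb hc hd he hf hn h4 h5
    simp only [List.nodup_cons, List.mem_cons, List.not_mem_nil, or_false, not_or,
      List.nodup_nil, and_true, not_false_eq_true] at hn
    obtain ⟨⟨n1, n2, n3, n4, n5⟩, ⟨n6, n7, n8, n9⟩, ⟨n10, n11, n12⟩, ⟨n13, n14⟩, n15⟩ := hn
    have hcr : cr (pq x (Function.update h a t)) c d e ≠ 0 := by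
      have := hS.1 c hc d hd e he n10 n11 n13
      unfold cr pq at this ⊢
      simpa [Ne.symm n2, Ne.symm n3, Ne.symm n4] using this
    have := conc_uniq hx (h := Function.update h a t) (h' := Function.update h a t') n1 n10
      (by simp [Ne.symm n1]) (by simp [Ne.symm n2]) (by simp [Ne.symm n3])
      (by simp [Ne.symm n4]) (by simp [Ne.symm n5]) hcr h4 h5
    simpa using this
  have hinf : (Set.Ioo (y a - ε) (y a + ε)).Infinite := Set.Ioo_infinite (by linarith)
  obtain ⟨t, ht, hbad⟩ := (hinf.sdiff (F1.union F2)).nonempty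
  have B1 : ∀ u ∈ S, ∀ w ∈ S, u ≠ w → cr (pq x (Function.update h a t)) a u w ≠ 0 := by
    intro u hu w hw huw hz
    exact hbad (Or.inl (Set.mem_iUnion.2 ⟨(u, w), hu, hw, huw, hz⟩))
  have B2 : ∀ b ∈ S, ∀ c ∈ S, ∀ d ∈ S, ∀ e ∈ S, ∀ f ∈ S, [a, b, c, d, e, f].Nodup →
      ¬ Conc x (Function.update h a t) a b c d e f := by
    intro b hb c hc d hd e he f hf hn hz
    exact hbad (Or.inr (Set.mem_iUnion.2 ⟨((b, c), (d, e), f), hb, hc, hd, he, hf, hn, hz⟩))
  refine ⟨Function.update h a t, ⟨?_, ?_⟩, ?_⟩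
  · intro u hu v hv w hw h1 h2 h3
    rcases Finset.mem_insert.1 hu with rfl | hu'
    · exact B1 v (Finset.mem_of_mem_insert_of_ne hv (Ne.symm h1)) w
        (Finset.mem_of_mem_insert_of_ne hw (Ne.symm h2)) h3
    rcases Finset.mem_insert.1 hv with rfl | hv'
    · have := B1 u hu' w (Finset.mem_of_mem_insert_of_ne hw (Ne.symm h3)) h2
      rw [cr_swap]
      exact neg_ne_zero.2 this
    rcases Finset.mem_insert.1 hw with rfl | hw'
    · have := B1 u hu' v hv' h1
      rw [← cr_rot] at this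
      exact this
    · have := hS.1 u hu' v hv' w hw' h1 h2 h3
      have n1 : u ≠ a := fun k => ha (k ▸ hu')
      have n2 : v ≠ a := fun k => ha (k ▸ hv')
      have n3 : w ≠ a := fun k => ha (k ▸ hw')
      unfold cr pq at this ⊢
      simpa [n1, n2, n3] using this
  · intro u1 m1 u2 m2 u3 m3 u4 m4 u5 m5 u6 m6 hn hC
    have hn' := hn
    simp only [List.nodup_cons, List.mem_cons, List.not_mem_nil, or_false, not_or,
      List.nodup_nil, and_true, not_false_eq_true] at hn'
    obtain ⟨⟨n1, n2, n3, n4, n5⟩, ⟨n6, n7, n8, n9⟩, ⟨n10, n11, n12⟩, ⟨n13, n14⟩, n15⟩ := hn'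
    rcases Finset.mem_insert.1 m1 with rfl | m1'
    · exact B2 u2 (mem_of_mem_insert_of_ne m2 (Ne.symm n1)) u3
        (mem_of_mem_insert_of_ne m3 (Ne.symm n2)) u4 (mem_of_mem_insert_of_ne m4 (Ne.symm n3)) u5
        (mem_of_mem_insert_of_ne m5 (Ne.symm n4)) u6 (mem_of_mem_insert_of_ne m6 (Ne.symm n5))
        hn hC
    rcases Finset.mem_insert.1 m2 with rfl | m2'
    · refine B2 u1 m1' u3
        (mem_of_mem_insert_of_ne m3 (Ne.symm n6)) u4 (mem_of_mem_insert_of_ne m4 (Ne.symm n7)) u5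
        (mem_of_mem_insert_of_ne m5 (Ne.symm n8)) u6 (mem_of_mem_insert_of_ne m6 (Ne.symm n9))
        ?_ (conc_s1 hC)
      simp only [List.nodup_cons, List.mem_cons, List.not_mem_nil, or_false, not_or,
        List.nodup_nil, and_true, not_false_eq_true]
      tauto
    rcases Finset.mem_insert.1 m3 with rfl | m3'
    · refine B2 u4 (mem_of_mem_insert_of_ne m4 (Ne.symm n10)) u1 m1' u2 m2' u5
        (mem_of_mem_insert_of_ne m5 (Ne.symm n11)) u6 (mem_of_mem_insert_of_ne m6 (Ne.symm n12))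
        ?_ (conc_r hC)
      simp only [List.nodup_cons, List.mem_cons, List.not_mem_nil, or_false, not_or,
        List.nodup_nil, and_true, not_false_eq_true, eq_comm] at n1 n2 n3 n4 n5 n6 n7 n8 n9 n10 n11 n12 n13 n14 n15 ⊢
      tauto
    rcases Finset.mem_insert.1 m4 with rfl | m4'
    · refine B2 u3 m3' u1 m1' u2 m2' u5
        (mem_of_mem_insert_of_ne m5 (Ne.symm n13)) u6 (mem_of_mem_insert_of_ne m6 (Ne.symm n14))
        ?_ (conc_s1 (conc_r hC))
      simp only [List.nodup_cons, List.mem_cons, List.not_mem_nil, or_false, not_or,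
        List.nodup_nil, and_true, not_false_eq_true, eq_comm] at n1 n2 n3 n4 n5 n6 n7 n8 n9 n10 n11 n12 n13 n14 n15 ⊢
      tauto
    rcases Finset.mem_insert.1 m5 with rfl | m5'
    · refine B2 u6 (mem_of_mem_insert_of_ne m6 (Ne.symm n15)) u1 m1' u2 m2' u3 m3' u4 m4'
        ?_ (conc_r' hC)
      simp only [List.nodup_cons, List.mem_cons, List.not_mem_nil, or_false, not_or,
        List.nodup_nil, and_true, not_false_eq_true, eq_comm] at n1 n2 n3 n4 n5 n6 n7 n8 n9 n10 n11 n12 n13 n14 n15 ⊢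
      tauto
    rcases Finset.mem_insert.1 m6 with rfl | m6'
    · refine B2 u5 m5' u1 m1' u2 m2' u3 m3' u4 m4'
        ?_ (conc_s1 (conc_r' hC))
      simp only [List.nodup_cons, List.mem_cons, List.not_mem_nil, or_false, not_or,
        List.nodup_nil, and_true, not_false_eq_true, eq_comm] at n1 n2 n3 n4 n5 n6 n7 n8 n9 n10 n11 n12 n13 n14 n15 ⊢
      tauto
    · refine hS.2 u1 m1' u2 m2' u3 m3' u4 m4' u5 m5' u6 m6' hn ?_
      have q : ∀ u ∈ S, u ≠ a := fun u hu k => ha (k ▸ hu)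
      have q1 := q u1 m1'
      have q2 := q u2 m2'
      have q3 := q u3 m3'
      have q4 := q u4 m4'
      have q5 := q u5 m5'
      have q6 := q u6 m6'
      unfold Conc sg pq at hC ⊢
      simpa [q1, q2, q3, q4, q5, q6] using hC
  · intro v
    by_cases hv : v = a
    · subst hv
      rw [Function.update_self, abs_lt]
      constructor <;> linarith [ht.1, ht.2]
    · rw [Function.update_of_ne hv]
      exact hy v

end GPAux

open GPAux in
/-- GP -/
theorem stGP : StGP := by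
  intro V _ x y ε hx hε
  have key : ∀ S : Finset V, ∃ h : V → ℝ, Good x h S ∧ ∀ v, |h v - y v| < ε := by
    intro S
    induction S using Finset.induction_on with
    | empty =>
      refine ⟨y, ⟨?_, ?_⟩, ?_⟩
      · intro u hu
        exact absurd hu (Finset.notMem_empty _)
      · intro u hu
        exact absurd hu (Finset.notMem_empty _)
      · intro v
        simpa using hε
    | insert a S ha ih =>
      obtain ⟨h, h1, h2⟩ := ih
      exact step hx hε h1 h2 ha
  obtain ⟨h, ⟨h1, h2⟩, h3⟩ := key univ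
  refine ⟨pq x h, ⟨?_, ?_, ?_⟩, fun v => rfl, h3⟩
  · intro u v huv
    exact hx (congrArg Prod.fst huv)
  · intro u v w k1 k2 k3 hc
    exact h1 u (mem_univ _) v (mem_univ _) w (mem_univ _) k1 k2 k3 (GeoAux.cr_of_col hc)
  · intro a b c d e f hn
    rw [Set.eq_empty_iff_forall_notMem]
    rintro z ⟨⟨z1, z2⟩, z3⟩
    exact h2 a (mem_univ _) b (mem_univ _) c (mem_univ _) d (mem_univ _) e (mem_univ _) f
      (mem_univ _) hn ⟨z, z1, z2, z3⟩

end

end Pool.Agent.Lib.MP_1fca17_co.Q
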