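import Pool.Agent.Lib.MP_1fca17_co.Q.Defs

/-!
# MP_1fca17_co : row KPL (helper4)

k-planar graphs have a layering whose windows have small rooted tree decompositions.
-/

namespace Pool.Agent.Lib.MP_1fca17_co.Q

open Finset
open scoped Classical

noncomputable section

namespace KplAux

variable {V X D : Type} [Fintype V] [Fintype X] [Fintype D]

theorem adj_symm (M : PlaneMap X D) {x y : X} (h : M.Adj x y) : M.Adj y x := by
  obtain ⟨d, h1, h2⟩ := h
  exact ⟨M.α d, h2, by rw [M.invol]; exact h1⟩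

/-- the layering along a walk -/
theorem chain_dist (M : PlaneMap X D) (dist : X → ℕ)
    (lip : ∀ x y, M.Adj x y → dist y ≤ dist x + 1) :
    ∀ (l : List X) (x : X), List.IsChain M.Adj (x :: l) → ∀ y ∈ l,
      dist y ≤ dist x + l.length ∧ dist x ≤ dist y + l.length := by
  intro l
  induction l with
  | nil => intro x _ y hy; simp at hy
  | cons z l ih =>
    intro x hx y hy
    rw [List.isChain_cons_cons] at hx
    have h1 := lip _ _ hx.1
    have h2 := lip _ _ (adj_symm M hx.1)
    rw [List.length_cons]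
    rcases List.mem_cons.1 hy with rfl | hy
    · omega
    · have := ih z hx.2 y hy
      omega

/-- the nodes whose bags meet a walk are connected -/
theorem chain_conn (M : PlaneMap X D) (T : SimpleGraph D) (bag : D → Finset X) (S : Set D)
    (hbag : ∀ d, M.vert d ∈ bag d ∧ M.vert (M.α d) ∈ bag d)
    (hconn : ∀ x, ∀ d d', x ∈ bag d → x ∈ bag d' →
      Relation.ReflTransGen (fun e f => x ∈ bag e ∧ x ∈ bag f ∧ T.Adj e f) d d') (d0 : D) :
    ∀ (l : List X) (x : X), List.IsChain M.Adj (x :: l) →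
      (∀ y ∈ l, ∀ d, y ∈ bag d → d ∈ S) →
      (∀ d, x ∈ bag d → Relation.ReflTransGen (fun e f => e ∈ S ∧ f ∈ S ∧ T.Adj e f) d0 d) →
      ∀ y ∈ l, ∀ d, y ∈ bag d →
        Relation.ReflTransGen (fun e f => e ∈ S ∧ f ∈ S ∧ T.Adj e f) d0 d := by
  intro l
  induction l with
  | nil => intro x _ _ _ y hy; simp at hy
  | cons z l ih =>
    intro x hx hS h0
    rw [List.isChain_cons_cons] at hx
    obtain ⟨⟨e, he1, he2⟩, hx2⟩ := hx
    have hz : ∀ d, z ∈ bag d →
        Relation.ReflTransGen (fun e f => e ∈ S ∧ f ∈ S ∧ T.Adj e f) d0 d := by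
      intro d hd
      have h1 : Relation.ReflTransGen (fun e f => e ∈ S ∧ f ∈ S ∧ T.Adj e f) d0 e :=
        h0 e (he1 ▸ (hbag e).1)
      refine h1.trans ?_
      refine Relation.ReflTransGen.mono ?_ _ _ (hconn z e d (he2 ▸ (hbag e).2) hd)
      rintro a b ⟨ha, hb, hab⟩
      exact ⟨hS z (by simp) a ha, hS z (by simp) b hb, hab⟩
    intro y hy
    rcases List.mem_cons.1 hy with rfl | hy
    · exact hz
    · exact ih z hx2 (fun y hy => hS y (List.mem_cons_of_mem _ hy)) hz y hy

end KplAux

theorem stKpl (hm : StMap) (ht : StTree) (hp : StTop) : StKpl := by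
  rintro V _ G k ⟨X, D, _, _, M, ι, path, hι, hpath, hcr⟩
  obtain ⟨dist, T, bag, hlip, hTc, hTe, hbag, h3, hconn⟩ := hm X D M
  obtain ⟨r⟩ := hTc.nonempty
  obtain ⟨par, dep, hr0, hpar, hadj⟩ := ht D T r hTc hTe
  have hch : ∀ u v, G.Adj u v → List.IsChain M.Adj (ι u :: path u v) := by
    intro u v huv
    have h4 := (hpath u v huv).2.2.2
    rw [← List.cons_append] at h4
    exact h4.left_of_append
  have hd1 : ∀ u v, G.Adj u v → dist (ι v) ≤ dist (ι u) + (k + 1) := by
    intro u v huv
    obtain ⟨h1, _, _, h4⟩ := hpath u v huv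
    have := (KplAux.chain_dist M dist hlip _ _ h4 (ι v) (by simp)).1
    simp only [List.length_append, List.length_singleton] at this
    omega
  have hd2 : ∀ u v, G.Adj u v → ∀ x ∈ path u v,
      dist x ≤ dist (ι u) + k ∧ dist (ι u) ≤ dist x + k := by
    intro u v huv x hx
    have h1 := (hpath u v huv).1
    have := KplAux.chain_dist M dist hlip _ _ (hch u v huv) x hx
    omega
  refine ⟨fun v => dist (ι v) / (k + 1), ?_, ?_⟩
  · intro u v huv
    have := hd1 v u huv.symm
    calc dist (ι u) / (k + 1) ≤ (dist (ι v) + (k + 1)) / (k + 1) := Nat.div_le_div_right this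
      _ = dist (ι v) / (k + 1) + 1 := Nat.add_div_right _ (Nat.succ_pos k)
  intro j
  -- the vertices of the map that belong to `v`
  let own : V → X → Prop := fun v x => x = ι v ∨ ∃ u, G.Adj v u ∧ x ∈ path v u
  have hown4 : ∀ x, (univ.filter (fun v => own v x)).card ≤ 4 := by
    intro x
    by_cases hx : x ∈ Set.range ι
    · obtain ⟨v0, rfl⟩ := hx
      have : (univ.filter (fun v => own v (ι v0))) ⊆ {v0} := by
        intro v hv
        rw [mem_filter] at hv
        rw [mem_singleton]
        rcases hv.2 with h | ⟨u, hu, h⟩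
        · exact (hι h).symm
        · exact absurd ⟨v0, rfl⟩ ((hpath v u hu).2.1 _ h)
      exact (card_le_card this).trans (by simp)
    · have h2 := hcr x hx
      set E := {e : Sym2 V | ∃ u v, e = s(u, v) ∧ G.Adj u v ∧ x ∈ path u v} with hE
      have hEfin : E.Finite := Set.toFinite E
      have hsub : (univ.filter (fun v => own v x)) ⊆
          hEfin.toFinset.biUnion (fun e => e.toFinset) := by
        intro v hv
        rw [mem_filter] at hv
        rcases hv.2 with h | ⟨u, hu, h⟩
        · exact absurd ⟨v, h.symm⟩ hx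
        · rw [mem_biUnion]
          refine ⟨s(v, u), ?_, by simp⟩
          rw [Set.Finite.mem_toFinset]
          exact ⟨v, u, rfl, hu, h⟩
      refine (card_le_card hsub).trans ?_
      have h4 : (hEfin.toFinset.biUnion (fun e => e.toFinset)).card ≤ hEfin.toFinset.card * 2 := by
        refine card_biUnion_le_card_mul _ _ _ ?_
        intro e _
        induction e with
        | _ a b =>
          rw [Sym2.toFinset_mk_eq]
          exact card_le_two
      have h5 : hEfin.toFinset.card ≤ 2 := by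
        rw [← Set.ncard_eq_toFinset_card E hEfin]
        exact h2
      omega
  refine ⟨D, inferInstance, par, dep, fun d => univ.filter (fun v =>
    (dist (ι v) / (k + 1) = j ∨ dist (ι v) / (k + 1) = j + 1) ∧ ∃ x ∈ bag d, own v x),
    ?_, ?_, ?_, ?_⟩
  · intro i hi
    by_cases h : i = r
    · exact absurd (h ▸ hr0) hi
    · exact (hpar i h).2.2
  · intro v hv
    rw [mem_filter] at hv
    have hvW := hv.2
    let S : Set D := {d | ∃ x ∈ bag d, own v x}
    obtain ⟨d0, hd0⟩ := M.surj (ι v)
    have hd0S : d0 ∈ S := ⟨ι v, hd0 ▸ (hbag d0).1, Or.inl rfl⟩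
    have hιv : ∀ d, ι v ∈ bag d →
        Relation.ReflTransGen (fun e f => e ∈ S ∧ f ∈ S ∧ T.Adj e f) d0 d := by
      intro d hd
      refine Relation.ReflTransGen.mono ?_ _ _ (hconn (ι v) d0 d (hd0 ▸ (hbag d0).1) hd)
      rintro a b ⟨ha, hb, hab⟩
      exact ⟨⟨ι v, ha, Or.inl rfl⟩, ⟨ι v, hb, Or.inl rfl⟩, hab⟩
    have hall : ∀ d ∈ S, Relation.ReflTransGen (fun e f => e ∈ S ∧ f ∈ S ∧ T.Adj e f) d0 d := by
      rintro d ⟨x, hx, h | ⟨u, hu, h⟩⟩
      · exact hιv d (h ▸ hx)
      · exact KplAux.chain_conn M T bag S hbag hconn d0 (path v u) (ι v) (hch v u hu)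
          (fun y hy d hd => ⟨y, hd, Or.inr ⟨u, hu, hy⟩⟩) hιv x h d hx
    have hsymm : ∀ a b, Relation.ReflTransGen (fun e f => e ∈ S ∧ f ∈ S ∧ T.Adj e f) a b →
        Relation.ReflTransGen (fun e f => e ∈ S ∧ f ∈ S ∧ T.Adj e f) b a := by
      intro a b hab
      induction hab with
      | refl => exact Relation.ReflTransGen.refl
      | tail _ h ih => exact Relation.ReflTransGen.head ⟨h.2.1, h.1, h.2.2.symm⟩ ih
    obtain ⟨t, htS, htop⟩ := hp D T r par dep (fun i hi => ⟨(hpar i hi).1, (hpar i hi).2.2⟩) hadj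
      S ⟨d0, hd0S⟩ (fun a ha b hb => (hsymm _ _ (hall a ha)).trans (hall b hb))
    refine ⟨t, ?_, ?_⟩
    · rw [mem_filter]
      exact ⟨mem_univ _, hvW, htS⟩
    · intro i hi hit
      rw [mem_filter] at hi
      obtain ⟨hir, hiS⟩ := htop i hi.2.2 hit
      refine ⟨(hpar i hir).1, ?_⟩
      rw [mem_filter]
      exact ⟨mem_univ _, hvW, hiS⟩
  · intro u hu v hv huv
    rw [mem_filter] at hu hv
    obtain ⟨h1, h2, h3', h4⟩ := hpath u v huv
    rcases hl : path u v with _ | ⟨x, l⟩
    · rw [hl] at h4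
      simp only [List.nil_append] at h4
      rw [List.isChain_cons_cons] at h4
      obtain ⟨⟨d, hd1, hd2⟩, _⟩ := h4
      refine ⟨d, ?_, ?_⟩
      · rw [mem_filter]
        exact ⟨mem_univ _, hu.2, ι u, hd1 ▸ (hbag d).1, Or.inl rfl⟩
      · rw [mem_filter]
        exact ⟨mem_univ _, hv.2, ι v, hd2 ▸ (hbag d).2, Or.inl rfl⟩
    · obtain ⟨d, hd⟩ := M.surj x
      have hx : x ∈ path u v := by rw [hl]; simp
      have hx' : x ∈ path v u := by rw [h3', List.mem_reverse]; exact hx
      have hxd : x ∈ bag d := hd ▸ (hbag d).1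
      refine ⟨d, ?_, ?_⟩
      · rw [mem_filter]
        exact ⟨mem_univ _, hu.2, x, hxd, Or.inr ⟨v, huv, hx⟩⟩
      · rw [mem_filter]
        exact ⟨mem_univ _, hv.2, x, hxd, Or.inr ⟨u, huv.symm, hx'⟩⟩
  · intro d
    -- the vertices of the bag with distances in the range
    set A := (bag d).filter (fun x => j * (k + 1) ≤ dist x + k ∧
      dist x < (j + 2) * (k + 1) + k) with hA
    have hAc : A.card ≤ 3 * (4 * (k + 1)) := by
      have h1 : A.card ≤ 3 * (Finset.Ico (j * (k + 1) - k) ((j + 2) * (k + 1) + k)).card := by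
        refine card_le_mul_card_image_of_maps_to (f := dist) ?_ 3 ?_
        · intro x hx
          rw [hA, mem_filter] at hx
          rw [mem_Ico]
          exact ⟨by omega, hx.2.2⟩
        · intro n _
          refine (card_le_card ?_).trans (h3 d n)
          intro x hx
          rw [mem_filter] at hx ⊢
          rw [hA, mem_filter] at hx
          exact ⟨hx.1.1, hx.2⟩
      rw [Nat.card_Ico] at h1
      have h2 : (j + 2) * (k + 1) = j * (k + 1) + 2 * (k + 1) := by ring
      rw [h2] at h1
      refine h1.trans ?_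
      apply Nat.mul_le_mul_left
      omega
    have hsub : (univ.filter (fun v => (dist (ι v) / (k + 1) = j ∨
        dist (ι v) / (k + 1) = j + 1) ∧ ∃ x ∈ bag d, own v x)) ⊆
        A.biUnion (fun x => univ.filter (fun v => own v x)) := by
      intro v hv
      rw [mem_filter] at hv
      obtain ⟨_, hw, x, hx, hvx⟩ := hv
      rw [mem_biUnion]
      refine ⟨x, ?_, by rw [mem_filter]; exact ⟨mem_univ _, hvx⟩⟩
      rw [hA, mem_filter]
      have hk : 0 < k + 1 := Nat.succ_pos k
      have hlow : j * (k + 1) ≤ dist (ι v) := by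
        rw [← Nat.le_div_iff_mul_le hk]
        omega
      have hhigh : dist (ι v) < (j + 2) * (k + 1) := by
        rw [← Nat.div_lt_iff_lt_mul hk]
        omega
      refine ⟨hx, ?_⟩
      rcases hvx with h | ⟨u, hu, h⟩
      · subst h
        omega
      · have := hd2 v u hu x h
        omega
    refine (card_le_card hsub).trans ?_
    refine (card_biUnion_le_card_mul _ _ 4 (fun x _ => hown4 x)).trans ?_
    calc A.card * 4 ≤ (3 * (4 * (k + 1))) * 4 := Nat.mul_le_mul_right 4 hAc
      _ = 48 * (k + 1) := by ring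

end

end Pool.Agent.Lib.MP_1fca17_co.Q
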