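import Mathlib
import Pool.Agent.Lib.MP_1fca17_co.Q.MapDefs

/-!
# MP_1fca17_co : search data, base darts and the sizes of the bags
-/

namespace Pool.Agent.Lib.MP_1fca17_co.Q

open Finset
open scoped Classical

namespace BFS64

/-- the graph of a plane map -/
def gr {X D : Type} [Fintype X] [Fintype D] (M : PlaneMap X D) : SimpleGraph X where
  Adj x y := x ≠ y ∧ M.Adj x y
  symm := ⟨by
    rintro x y ⟨h, d, h1, h2⟩
    exact ⟨h.symm, M.α d, h2, by rw [M.invol]; exact h1⟩⟩
  loopless := ⟨fun x h => h.1 rfl⟩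

lemma reach {X D : Type} [Fintype X] [Fintype D] (M : PlaneMap X D) (x y : X) :
    (gr M).Reachable x y := by
  have h := M.conn x y
  induction h with
  | refl => exact SimpleGraph.Reachable.refl _
  | @tail b c _ h2 ih =>
    by_cases hbc : b = c
    · rw [← hbc]; exact ih
    · exact ih.trans (SimpleGraph.Adj.reachable ⟨hbc, h2⟩)

lemma nonempty {X D : Type} [Fintype X] [Fintype D] (M : PlaneMap X D) : Nonempty X := by
  by_contra hX
  rw [not_nonempty_iff] at hX
  have hD : IsEmpty D := ⟨fun d => hX.elim (M.vert d)⟩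
  have h := M.euler
  have h1 : Fintype.card X = 0 := Fintype.card_eq_zero
  have h2 : Fintype.card D = 0 := Fintype.card_eq_zero
  have h3 : Nat.card (Quotient (Equiv.Perm.SameCycle.setoid (M.σ * M.α))) = 0 := by
    have : IsEmpty (Quotient (Equiv.Perm.SameCycle.setoid (M.σ * M.α))) :=
      ⟨fun q => hD.elim (Quotient.out q)⟩
    exact Nat.card_of_isEmpty
  omega

end BFS64

open BFS64 in
/-- BFS -/
theorem stBfs : StBfs := by
  intro X D _ _ M
  obtain ⟨r⟩ := BFS64.nonempty M
  have hconn : (gr M).Connected := by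
    have : Nonempty X := ⟨r⟩
    exact SimpleGraph.Connected.mk (fun x y => reach M x y)
  have hex : ∀ x, x ≠ r → ∃ d, M.vert d = x ∧
      (gr M).dist r (M.vert (M.α d)) + 1 = (gr M).dist r x := by
    intro x hx
    obtain ⟨p, hp⟩ := (reach M x r).exists_walk_length_eq_dist
    cases p with
    | nil => exact absurd rfl hx
    | @cons _ y _ hadj q =>
      have hp' : q.length + 1 = (gr M).dist x r := by
        rw [← hp]; rfl
      obtain ⟨hne, d, hd1, hd2⟩ := hadj
      refine ⟨d, hd1, ?_⟩
      rw [hd2]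
      have h1 : (gr M).dist y r ≤ q.length := SimpleGraph.dist_le q
      have h2 : (gr M).dist x r ≤ (gr M).dist x y + (gr M).dist y r := hconn.dist_triangle
      have h3 : (gr M).dist x y = 1 := SimpleGraph.dist_eq_one_iff_adj.2 ⟨hne, d, hd1, hd2⟩
      rw [SimpleGraph.dist_comm (u := r) (v := y), SimpleGraph.dist_comm (u := r) (v := x)]
      omega
  obtain ⟨d0, _⟩ := M.surj r
  refine ⟨{
    r := r
    dist := fun x => (gr M).dist r x
    pd := fun x => if h : x ≠ r then (hex x h).choose else d0
    dist_r := SimpleGraph.dist_self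
    pd_tail := ?_
    pd_head := ?_
    lip := ?_ }⟩
  · intro x hx
    simp only [dif_pos hx]
    exact (hex x hx).choose_spec.1
  · intro x hx
    simp only [dif_pos hx]
    exact (hex x hx).choose_spec.2
  · intro x y hxy
    by_cases hne : x = y
    · rw [hne]; simp
    · have h2 : (gr M).dist r y ≤ (gr M).dist r x + (gr M).dist x y := hconn.dist_triangle
      have h3 : (gr M).dist x y = 1 := SimpleGraph.dist_eq_one_iff_adj.2 ⟨hne, hxy⟩
      omega

/-- BASE -/
theorem stBase : StBase := by
  intro X D _ _ M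
  refine ⟨{
    base := fun d => (Quotient.mk (Equiv.Perm.SameCycle.setoid (M.σ * M.α)) d).out
    same := ?_
    const := ?_ }⟩
  · intro d
    have h := Quotient.exact
      (Quotient.out_eq (Quotient.mk (Equiv.Perm.SameCycle.setoid (M.σ * M.α)) d))
    exact (Equiv.Perm.SameCycle.symm h)
  · intro d d' h
    have h1 : (Quotient.mk (Equiv.Perm.SameCycle.setoid (M.σ * M.α)) d) =
        (Quotient.mk (Equiv.Perm.SameCycle.setoid (M.σ * M.α)) d') := Quotient.sound h
    simp only [h1]

namespace BFS64

variable {X D : Type} [Fintype X] [Fintype D] {M : PlaneMap X D} {S : BFS M} {b : BaseD M}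

lemma on_iter {x y : X} (h : S.On x y) : ∃ k, x = (S.up)^[k] y ∧ S.dist y = S.dist x + k := by
  unfold BFS.On at h
  induction h with
  | refl => exact ⟨0, rfl, rfl⟩
  | @tail z w _ h2 ih =>
    obtain ⟨k, hk1, hk2⟩ := ih
    obtain ⟨h3, h4⟩ := h2
    refine ⟨k + 1, ?_, ?_⟩
    · rw [Function.iterate_succ_apply', ← hk1, h4]
    · have h5 := S.pd_head z h3
      have h6 : S.dist w + 1 = S.dist z := by rw [h4]; exact h5
      omega

lemma one (S : BFS M) (y : X) (n : ℕ) :
    (univ.filter (fun x => S.On x y ∧ S.dist x = n)).card ≤ 1 := by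
  rw [Finset.card_le_one]
  intro a ha c hc
  simp only [mem_filter, mem_univ, true_and] at ha hc
  obtain ⟨k, hk1, hk2⟩ := on_iter ha.1
  obtain ⟨l, hl1, hl2⟩ := on_iter hc.1
  have h : k = l := by omega
  rw [hk1, hl1, h]

end BFS64

open BFS64 in
/-- MBAG -/
theorem stMBag : StMBag := by
  intro X D _ _ M S b d n
  have h : (bagD S b d).filter (fun x => S.dist x = n) ⊆
      univ.filter (fun x => S.On x (M.vert d) ∧ S.dist x = n) ∪
      (univ.filter (fun x => S.On x (M.vert (M.α d)) ∧ S.dist x = n) ∪
      univ.filter (fun x => S.On x (M.vert (b.base d)) ∧ S.dist x = n)) := by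
    intro x hx
    simp only [bagD, mem_filter, mem_univ, true_and, mem_union] at hx ⊢
    tauto
  have h1 := one S (M.vert d) n
  have h2 := one S (M.vert (M.α d)) n
  have h3 := one S (M.vert (b.base d)) n
  refine (Finset.card_le_card h).trans ((Finset.card_union_le _ _).trans ?_)
  have h4 := Finset.card_union_le
    (univ.filter (fun x => S.On x (M.vert (M.α d)) ∧ S.dist x = n))
    (univ.filter (fun x => S.On x (M.vert (b.base d)) ∧ S.dist x = n))
  omega

end Pool.Agent.Lib.MP_1fca17_co.Q
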