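import Pool.Agent.Lib.MP_1fca17_co.Q.Defs

/-!
# MP_1fca17_co : rows TREE and TOP (helper5)

A connected set of nodes has a top; rooted form of a tree.
-/

namespace Pool.Agent.Lib.MP_1fca17_co.Q

open Finset
open scoped Classical

theorem stTop : StTop := by
  intro I _ T r par dep hdep hadj S hS hconn
  obtain ⟨t, ht, hmin⟩ : ∃ t ∈ S, ∀ i ∈ S, dep t ≤ dep i := by
    obtain ⟨t, ht, hmin⟩ := Set.exists_min_image S dep S.toFinite hS
    exact ⟨t, ht, hmin⟩
  refine ⟨t, ht, fun i hi hit => ?_⟩
  have key : ∀ x, Relation.ReflTransGen (fun x y => x ∈ S ∧ y ∈ S ∧ T.Adj x y) t x →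
      Relation.ReflTransGen (fun a b => a ∈ S ∧ b ∈ S ∧ a ≠ r ∧ b = par a) x t := by
    intro x hx
    induction hx with
    | refl => exact Relation.ReflTransGen.refl
    | tail _ hbc ih =>
      obtain ⟨hb, hc, hab⟩ := hbc
      rcases hadj _ _ hab with ⟨h1, h2⟩ | ⟨h1, h2⟩
      · rcases ih.cases_head with h | ⟨d, hd, h⟩
        · subst h
          have := (hdep _ h1).2
          rw [← h2] at this
          have := hmin _ hc
          omega
        · obtain ⟨_, _, _, h3⟩ := hd
          rw [h2, ← h3]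
          exact h
      · exact Relation.ReflTransGen.head ⟨hc, hb, h1, h2⟩ ih
  rcases (key i (hconn t ht i hi)).cases_head with h | ⟨d, hd, _⟩
  · exact absurd h hit
  · obtain ⟨_, h1, h2, h3⟩ := hd
    exact ⟨h2, h3 ▸ h1⟩

theorem stTree : StTree := by
  intro I _ T r hT hcard
  have hex : ∀ i, ∃ j, i ≠ r → T.Adj i j ∧ T.dist r j + 1 = T.dist r i := by
    intro i
    by_cases hi : i = r
    · exact ⟨r, fun h => absurd hi h⟩
    obtain ⟨p, hp⟩ := hT.exists_walk_length_eq_dist i r
    cases p with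
    | nil => exact absurd rfl hi
    | cons h q =>
      rename_i j
      refine ⟨j, fun _ => ⟨h, ?_⟩⟩
      have h1 : T.dist j r ≤ q.length := SimpleGraph.dist_le q
      rw [SimpleGraph.Walk.length_cons] at hp
      have h2 : T.dist i r ≤ T.dist i j + T.dist j r := hT.dist_triangle
      have h3 : T.dist i j = 1 := SimpleGraph.dist_eq_one_iff_adj.2 h
      rw [SimpleGraph.dist_comm (u := r) (v := j), SimpleGraph.dist_comm (u := r) (v := i)]
      omega
  choose par hpar using hex
  have hr : T.dist r r = 0 := SimpleGraph.dist_self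
  refine ⟨par, fun i => T.dist r i, hr, fun i hi => ⟨?_, (hpar i hi).1, (hpar i hi).2⟩, ?_⟩
  · have := (hpar i hi).2
    show T.dist r i ≠ 0
    omega
  -- the edges `{i, par i}` are all the edges
  have hinj : Set.InjOn (fun i => s(i, par i)) {i | i ≠ r} := by
    intro i hi j hj hij
    simp only [Sym2.eq_iff] at hij
    rcases hij with ⟨h, _⟩ | ⟨h1, h2⟩
    · exact h
    · exfalso
      have a1 := (hpar i hi).2
      have a2 := (hpar j hj).2
      rw [h2] at a1
      rw [← h1] at a2
      omega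
  have hsub : (fun i => s(i, par i)) '' {i | i ≠ r} ⊆ T.edgeSet := by
    rintro _ ⟨i, hi, rfl⟩
    exact (hpar i hi).1
  have hcard1 : ((fun i => s(i, par i)) '' {i | i ≠ r}).ncard + 1 = Fintype.card I := by
    rw [hinj.ncard_image]
    have h1 : ({i | i ≠ r} : Set I) = {r}ᶜ := by
      ext i
      simp
    rw [h1, Set.ncard_compl, Set.ncard_singleton, Nat.card_eq_fintype_card]
    have : 0 < Fintype.card I := Fintype.card_pos_iff.2 ⟨r⟩
    omega
  have heq : (fun i => s(i, par i)) '' {i | i ≠ r} = T.edgeSet := by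
    apply Set.eq_of_subset_of_ncard_le hsub
    omega
  intro i j hij
  have hmem : s(i, j) ∈ T.edgeSet := hij
  rw [← heq] at hmem
  obtain ⟨k, hk, hk2⟩ := hmem
  simp only [Sym2.eq_iff] at hk2
  rcases hk2 with ⟨h1, h2⟩ | ⟨h1, h2⟩
  · left
    subst h1
    exact ⟨hk, h2.symm⟩
  · right
    subst h1
    exact ⟨hk, h2.symm⟩

end Pool.Agent.Lib.MP_1fca17_co.Q
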