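import Pool.Agent.Lib.MP_1fca17_co.Q.Word52

/-!
MP_1fca17_co, unbounded degree: types of the regions, hub paths, patterns (helper52).

`Hd l` is the set of the depths of the birth regions of the hubs of the region `l` (an address, last
step first).
-/

namespace Pool.Agent.Lib.MP_1fca17_co.Q.W52

/-- depth of the last region of type at least `i` -/
def st (w : Wd) (i : ℕ) : ℕ := (w.dropWhile (fun p => decide (p.1 < i))).length

/-- no birth depth in the interval number `i` -/
def Free (w : Wd) (H : Finset ℕ) (i : ℕ) : Prop := ∀ d ∈ H, ¬(st w (i + 1) ≤ d ∧ d < st w i)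

open Classical in
/-- the greedy type -/
noncomputable def tp (m : ℕ) (w : Wd) (H : Finset ℕ) : ℕ :=
  Nat.findGreatest (fun i => Free w H i) m

/-- typed address -/
noncomputable def ty (m : ℕ) (Hd : List ℕ → Finset ℕ) : List ℕ → Wd
  | [] => []
  | x :: l => (tp m (ty m Hd l) (Hd (x :: l)), x) :: ty m Hd l

variable {m : ℕ} {Hd : List ℕ → Finset ℕ}

theorem st_nil (i : ℕ) : st [] i = 0 := rfl

theorem st_le (w : Wd) (i : ℕ) : st w i ≤ w.length :=
  (List.dropWhile_sublist _).length_le

theorem st_cons_lt {p : ℕ × ℕ} {w : Wd} {i : ℕ} (h : p.1 < i) : st (p :: w) i = st w i := by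
  simp [st, h]

theorem st_cons_ge {p : ℕ × ℕ} {w : Wd} {i : ℕ} (h : ¬p.1 < i) :
    st (p :: w) i = w.length + 1 := by
  simp [st, h]

theorem st_append {z q : Wd} {i : ℕ} (h : ∀ p ∈ z, p.1 < i) : st (z ++ q) i = st q i := by
  induction z with
  | nil => rfl
  | cons p z ih =>
    rw [List.cons_append, st_cons_lt (h p (by simp)), ih (fun r hr => h r (by simp [hr]))]

theorem st_gt {z q : Wd} {i : ℕ} (h : ∃ p ∈ z, ¬p.1 < i) : q.length < st (z ++ q) i := by
  induction z with
  | nil => simp at h
  | cons p z ih =>
    by_cases hp : p.1 < i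
    · rw [List.cons_append, st_cons_lt hp]
      apply ih
      obtain ⟨r, hr, h2⟩ := h
      rcases List.mem_cons.mp hr with rfl | hr
      · exact absurd hp h2
      · exact ⟨r, hr, h2⟩
    · rw [List.cons_append, st_cons_ge hp, List.length_append]; omega

theorem st_anti : ∀ (w : Wd) (i : ℕ), st w (i + 1) ≤ st w i
  | [], _ => le_rfl
  | p :: w, i => by
    by_cases h1 : p.1 < i
    · rw [st_cons_lt h1, st_cons_lt (Nat.lt_succ_of_lt h1)]
      exact st_anti w i
    · rw [st_cons_ge h1]
      exact (st_le _ _).trans (by simp)

theorem st_anti' (w : Wd) {i j : ℕ} (h : i ≤ j) : st w j ≤ st w i := by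
  induction h with
  | refl => exact le_rfl
  | step _ ih => exact (st_anti w _).trans ih

theorem card_ge {H : Finset ℕ} {m : ℕ} (f : ℕ → ℕ) (h1 : ∀ i ≤ m, f i ∈ H)
    (h2 : ∀ i j, i < j → j ≤ m → f j < f i) : m + 1 ≤ H.card := by
  have := Finset.card_le_card_of_injOn (s := Finset.range (m + 1)) (t := H) f
    (fun i hi => h1 i (by simp at hi; omega)) (by
      intro i hi j hj hij
      simp at hi hj
      rcases lt_trichotomy i j with h | h | h
      · have := h2 i j h (by omega); omega
      · exact h
      · have := h2 j i h (by omega); omega)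
  simpa using this

theorem exists_free (w : Wd) {H : Finset ℕ} (h : H.card ≤ m) : ∃ i ≤ m, Free w H i := by
  classical
  by_contra hc
  push Not at hc
  have hex : ∀ i, ∃ d, i ≤ m → d ∈ H ∧ st w (i + 1) ≤ d ∧ d < st w i := by
    intro i
    by_cases hi : i ≤ m
    · have := hc i hi
      unfold Free at this
      push Not at this
      obtain ⟨d, hd, h1, h2⟩ := this
      exact ⟨d, fun _ => ⟨hd, h1, h2⟩⟩
    · exact ⟨0, fun h => absurd h hi⟩
  choose f hf using hex
  have := card_ge (H := H) (m := m) f (fun i hi => (hf i hi).1) (by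
    intro i j hij hj
    have h1 := (hf i (by omega)).2.1
    have h2 := (hf j hj).2.2
    have h3 := st_anti' w (show i + 1 ≤ j from hij)
    omega)
  omega

theorem tp_le (m : ℕ) (w : Wd) (H : Finset ℕ) : tp m w H ≤ m := by
  classical
  unfold tp
  convert Nat.findGreatest_le (P := fun i => Free w H i) m

theorem tp_free (w : Wd) {H : Finset ℕ} (h : H.card ≤ m) : Free w H (tp m w H) := by
  classical
  obtain ⟨i, hi, hf⟩ := exists_free w h
  exact Nat.findGreatest_spec (P := fun i => Free w H i) hi hf

theorem tp_max {w : Wd} {H : Finset ℕ} {k : ℕ} (h : tp m w H < k) (hk : k ≤ m) :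
    ¬Free w H k := by
  classical
  exact Nat.findGreatest_is_greatest (P := fun i => Free w H i) h hk

theorem ty_length (l : List ℕ) : (ty m Hd l).length = l.length := by
  induction l with
  | nil => rfl
  | cons x l ih => simp [ty, ih]

theorem ty_snd (l : List ℕ) : (ty m Hd l).map Prod.snd = l := by
  induction l with
  | nil => rfl
  | cons x l ih => simp [ty, ih]

theorem ty_inj {l l' : List ℕ} (h : ty m Hd l = ty m Hd l') : l = l' := by
  rw [← ty_snd (m := m) (Hd := Hd) l, h, ty_snd]

theorem ty_append (y Q : List ℕ) : ∃ z, ty m Hd (y ++ Q) = z ++ ty m Hd Q ∧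
    z.length = y.length ∧ z.map Prod.snd = y := by
  induction y with
  | nil => exact ⟨[], rfl, rfl, rfl⟩
  | cons x y ih =>
    obtain ⟨z, h1, h2, h3⟩ := ih
    exact ⟨(tp m (ty m Hd (y ++ Q)) (Hd (x :: (y ++ Q))), x) :: z, by simp [ty, h1],
      by simp [h2], by simp [h3]⟩

theorem ty_types (l : List ℕ) : ∀ p ∈ ty m Hd l, p.1 ≤ m := by
  induction l with
  | nil => simp [ty]
  | cons x l ih =>
    intro p hp
    simp only [ty, List.mem_cons] at hp
    rcases hp with rfl | hp
    · exact tp_le _ _ _
    · exact ih p hp

theorem ty_val {B : ℕ} {l : List ℕ} (h : ∀ x ∈ l, x < B) : Val B m (ty m Hd l) := by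
  intro p hp
  refine ⟨ty_types l p hp, h _ ?_⟩
  have := List.mem_map_of_mem (f := Prod.snd) hp
  rwa [ty_snd] at this

theorem HP_nil : ∀ m, HP m []
  | 0 => rfl
  | m + 1 => Or.inl (HP_nil m)

/-- the condition of `TYP` for the words: hub depth `d` between a region and its birth region -/
theorem typ_aux (hc : ∀ l, (Hd l).card ≤ m) (Q : List ℕ) :
    ∀ (i : ℕ) (y : List ℕ) (z : Wd), i ≤ m → ty m Hd (y ++ Q) = z ++ ty m Hd Q →
      z.length = y.length → (∀ p ∈ z, p.1 ≤ i) →
      (∀ y', y' <:+ y → y' ≠ [] → Q.length ∈ Hd (y' ++ Q)) → HP i z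
  | 0, y, z, _, hz, hl, hp, hd => by
    -- the letter next to `Q`
    change z = []
    rcases List.eq_nil_or_concat y with rfl | ⟨y1, x, rfl⟩
    · exact List.length_eq_zero_iff.mp hl
    exfalso
    have hQ : Q.length ∈ Hd (x :: Q) := by
      have := hd [x] ⟨y1, by simp⟩ (by simp)
      simpa using this
    have ht : tp m (ty m Hd Q) (Hd (x :: Q)) = 0 := by
      obtain ⟨z1, h1, h2, -⟩ := ty_append (m := m) (Hd := Hd) y1 (x :: Q)
      have h3 : ty m Hd (y1.concat x ++ Q) = z1 ++
          (tp m (ty m Hd Q) (Hd (x :: Q)), x) :: ty m Hd Q := by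
        have : y1.concat x ++ Q = y1 ++ x :: Q := by simp
        rw [this, h1]; rfl
      rw [h3] at hz
      have h4 : z = z1 ++ [(tp m (ty m Hd Q) (Hd (x :: Q)), x)] := by
        have : z1 ++ [(tp m (ty m Hd Q) (Hd (x :: Q)), x)] ++ ty m Hd Q = z ++ ty m Hd Q := by
          rw [← hz]; simp
        exact (List.append_cancel_right this).symm
      have h5 := hp (tp m (ty m Hd Q) (Hd (x :: Q)), x) (by rw [h4]; simp)
      simpa using h5
    have hex : ∀ i, ∃ d, (1 ≤ i → i ≤ m → d ∈ Hd (x :: Q) ∧ st (ty m Hd Q) (i + 1) ≤ d ∧
        d < st (ty m Hd Q) i) ∧ (i = 0 → d = Q.length) := by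
      intro i
      by_cases hi : i = 0
      · exact ⟨Q.length, by omega, fun _ => rfl⟩
      · by_cases him : i ≤ m
        · have := tp_max (m := m) (w := ty m Hd Q) (H := Hd (x :: Q)) (k := i) (by omega) him
          unfold Free at this
          push Not at this
          obtain ⟨d, hd, h1, h2⟩ := this
          exact ⟨d, fun _ _ => ⟨hd, h1, h2⟩, fun h => absurd h hi⟩
        · exact ⟨0, fun _ h => absurd h him, fun h => absurd h hi⟩
    choose f hf using hex
    have hcard := card_ge (H := Hd (x :: Q)) (m := m) f (by
      intro i hi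
      rcases Nat.eq_zero_or_pos i with h0 | h0
      · rw [(hf i).2 h0]; exact hQ
      · exact ((hf i).1 h0 hi).1) (by
      intro i j hij hj
      have h2 := ((hf j).1 (by omega) hj).2.2
      rcases Nat.eq_zero_or_pos i with h0 | h0
      · rw [(hf i).2 h0]
        have := st_le (ty m Hd Q) j
        rw [ty_length] at this
        omega
      · have h1 := ((hf i).1 h0 (by omega)).2.1
        have h3 := st_anti' (ty m Hd Q) (show i + 1 ≤ j from hij)
        omega)
    have := hc (x :: Q)
    omega
  | i + 1, y, z, hi, hz, hl, hp, hd => by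
    by_cases hno : ∀ p ∈ z, p.1 ≤ i
    · exact Or.inl (typ_aux hc Q i y z (by omega) hz hl hno hd)
    · -- the letter `i + 1` closest to `Q`
      right
      have hsplit : ∀ z : Wd, (∀ p ∈ z, p.1 ≤ i + 1) → (¬∀ p ∈ z, p.1 ≤ i) →
          ∃ z2 x z1, z = z2 ++ (i + 1, x) :: z1 ∧ ∀ p ∈ z1, p.1 ≤ i := by
        intro z
        induction z with
        | nil => intro _ h; exact absurd (by simp) h
        | cons p z ih =>
          intro h1 h2
          by_cases hz : ∀ p ∈ z, p.1 ≤ i
          · refine ⟨[], p.2, z, ?_, hz⟩
            have : p.1 = i + 1 := by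
              have h3 := h1 p (by simp)
              by_contra hc
              apply h2
              intro r hr
              rcases List.mem_cons.mp hr with rfl | hr
              · omega
              · exact hz r hr
            rw [← this]; rfl
          · obtain ⟨z2, x, z1, h3, h4⟩ := ih (fun r hr => h1 r (by simp [hr])) hz
            exact ⟨p :: z2, x, z1, by rw [h3]; rfl, h4⟩
      obtain ⟨z2, x, z1, rfl, hz1⟩ := hsplit z hp hno
      -- split `y` in the same way
      have hy : ∃ y2 x' y1, y = y2 ++ x' :: y1 ∧ y2.length = z2.length ∧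
          y1.length = z1.length := by
        refine ⟨y.take z2.length, y.getD z2.length 0, y.drop (z2.length + 1), ?_, ?_, ?_⟩
        · have hlt : z2.length < y.length := by
            rw [← hl]; simp
          rw [List.getD_eq_getElem _ _ hlt, List.cons_getElem_drop_succ]
          exact (List.take_append_drop _ _).symm
        · rw [List.length_take]
          have : z2.length < y.length := by rw [← hl]; simp
          omega
        · rw [List.length_drop, ← hl]
          simp only [List.length_append, List.length_cons]
          omega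
      obtain ⟨y2, x', y1, rfl, hy2, hy1⟩ := hy
      -- the typed addresses of the parts
      obtain ⟨a1, ha1, hla1, -⟩ := ty_append (m := m) (Hd := Hd) y1 Q
      obtain ⟨a2, ha2, hla2, -⟩ := ty_append (m := m) (Hd := Hd) y2 (x' :: (y1 ++ Q))
      have e : y2 ++ x' :: y1 ++ Q = y2 ++ (x' :: (y1 ++ Q)) := by simp
      have hz' : a2 ++ (tp m (ty m Hd (y1 ++ Q)) (Hd (x' :: (y1 ++ Q))), x') ::
          (a1 ++ ty m Hd Q) = z2 ++ (i + 1, x) :: z1 ++ ty m Hd Q := by
        rw [← hz, e, ha2]
        simp only [ty, ha1]
      have hz'' : a2 ++ (tp m (ty m Hd (y1 ++ Q)) (Hd (x' :: (y1 ++ Q))), x') ::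
          a1 = z2 ++ (i + 1, x) :: z1 := by
        apply List.append_cancel_right (bs := ty m Hd Q)
        rw [← hz']; simp
      obtain ⟨e2, e3⟩ := List.append_inj hz'' (by omega)
      obtain ⟨e4, e5⟩ := List.cons.inj e3
      subst e2
      subst e5
      refine ⟨a2, x, a1, rfl, ?_, ?_⟩
      · exact typ_aux hc Q i y1 a1 (by omega) ha1 hla1 hz1 (fun y' h1 h2 =>
          hd y' (h1.trans ⟨y2 ++ [x'], by simp⟩) h2)
      · -- no second letter `i + 1`
        have key : ∀ y2 : List ℕ, ∀ a2 : Wd, a2.length = y2.length →
            ty m Hd (y2 ++ x' :: (y1 ++ Q)) = a2 ++ ty m Hd (x' :: (y1 ++ Q)) →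
            (∀ p ∈ a2, p.1 ≤ i + 1) →
            (∀ y', y' <:+ (y2 ++ x' :: y1) → y' ≠ [] → Q.length ∈ Hd (y' ++ Q)) →
            ∀ p ∈ a2, p.1 ≤ i := by
          intro y2
          induction y2 with
          | nil =>
            intro a2 h1 _ _ _
            rw [List.length_eq_zero_iff.mp h1]; simp
          | cons b y2 ih =>
            intro a2 h1 h2 h3 h4
            cases a2 with
            | nil => simp at h1
            | cons p a2 =>
              simp only [List.cons_append, ty, List.cons.injEq] at h2
              obtain ⟨h5, h6⟩ := h2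
              have ihh := ih a2 (by simpa using h1) h6 (fun r hr => h3 r (by simp [hr]))
                (fun y' g1 g2 => h4 y' (g1.trans ⟨[b], by simp⟩) g2)
              intro r hr
              rcases List.mem_cons.mp hr with rfl | hr
              · by_contra hcon
                have h7 : r.1 = i + 1 := by
                  have := h3 r (by simp); omega
                have hmem : Q.length ∈ Hd (b :: (y2 ++ x' :: (y1 ++ Q))) := by
                  have := h4 (b :: (y2 ++ x' :: y1)) (by simp) (by simp)
                  simpa using this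
                have hfree := tp_free (m := m) (ty m Hd (y2 ++ x' :: (y1 ++ Q)))
                  (hc (b :: (y2 ++ x' :: (y1 ++ Q))))
                have h8 : tp m (ty m Hd (y2 ++ x' :: (y1 ++ Q)))
                    (Hd (b :: (y2 ++ x' :: (y1 ++ Q)))) = i + 1 := by
                  rw [← h7]; rw [← h5]
                rw [h8] at hfree
                apply hfree _ hmem
                -- the word of the parent
                have hw : ty m Hd (y2 ++ x' :: (y1 ++ Q)) =
                    (a2 ++ (i + 1, x) :: a1) ++ ty m Hd Q := by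
                  rw [h6, e4, ha1]
                  simp
                rw [hw]
                constructor
                · rw [st_append]
                  · have := st_le (ty m Hd Q) (i + 1 + 1)
                    rwa [ty_length] at this
                  · intro q hq
                    rw [List.mem_append, List.mem_cons] at hq
                    rcases hq with hq | rfl | hq
                    · have := ihh q hq; omega
                    · simp
                    · have := hz1 q hq; omega
                · have := st_gt (z := a2 ++ (i + 1, x) :: a1) (q := ty m Hd Q) (i := i + 1)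
                    ⟨(i + 1, x), by simp, by simp⟩
                  rwa [ty_length] at this
              · exact ihh r hr
        refine key y2 a2 hla2 ha2 (fun p hp' => hp p (by simp [hp'])) ?_
        intro y' h1 h2
        exact hd y' h1 h2

/-- TYP: the letters between the birth region of a hub and the region form a hub path -/
theorem typ (hc : ∀ l, (Hd l).card ≤ m)
    (hq : ∀ x l d, d ∈ Hd (x :: l) → d < l.length → d ∈ Hd l) (y Q : List ℕ)
    (hd : Q.length ∈ Hd (y ++ Q)) :
    ∃ z, ty m Hd (y ++ Q) = z ++ ty m Hd Q ∧ z.length = y.length ∧ HP m z := by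
  obtain ⟨z, h1, h2, h3⟩ := ty_append (m := m) (Hd := Hd) y Q
  refine ⟨z, h1, h2, typ_aux hc Q m y z le_rfl h1 h2 ?_ ?_⟩
  · intro p hp
    exact ty_types (y ++ Q) p (by rw [h1]; simp [hp])
  · -- the hub is alive at all regions on the way
    have key : ∀ y2 y' : List ℕ, y' ≠ [] → Q.length ∈ Hd (y2 ++ y' ++ Q) →
        Q.length ∈ Hd (y' ++ Q) := by
      intro y2
      induction y2 with
      | nil => intro y' _ h; simpa using h
      | cons b y2 ih =>
        intro y' hy' h
        apply ih y' hy'
        have h4 : Q.length ∈ Hd (b :: (y2 ++ y' ++ Q)) := by simpa using h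
        refine hq b _ _ h4 ?_
        have : 0 < y'.length := List.length_pos_iff.mpr hy'
        simp only [List.length_append]
        omega
    rintro y' ⟨y2, rfl⟩ hne
    exact key y2 y' hne hd

/-- PAT: the same type pattern keeps the order -/
theorem pat {B L : ℕ} (hB : 1 ≤ B) : ∀ (w w' Q Q' : Wd), w.map Prod.fst = w'.map Prod.fst →
    Val B m (w ++ Q) → Val B m (w' ++ Q') → (w ++ Q).length ≤ L → (w' ++ Q').length ≤ L →
    code B L m Q < code B L m Q' → code B L m (w ++ Q) < code B L m (w' ++ Q')
  | [], w', Q, Q', h, _, _, _, _, hlt => by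
    have : w' = [] := by
      cases w' with
      | nil => rfl
      | cons p w' => simp at h
    subst this
    exact hlt
  | p :: w, w', Q, Q', h, hv, hv', hl, hl', hlt => by
    cases w' with
    | nil => simp at h
    | cons p' w' =>
      simp only [List.map_cons, List.cons.injEq] at h
      have ih := pat hB w w' Q Q' h.2 hv.tail hv'.tail
        (by simp only [List.cons_append, List.length_cons] at hl; omega)
        (by simp only [List.cons_append, List.length_cons] at hl'; omega) hlt
      have h1 := hv p (by simp)
      have h2 := hv' p' (by simp)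
      have := kp1 (B := B) (L := L) hB m p.1 p.2 p'.2 (w ++ Q) (w' ++ Q') h1.1 hv.tail hv'.tail
        h1.2 h2.2 (by simp only [List.cons_append, List.length_cons] at hl; omega)
        (by simp only [List.cons_append, List.length_cons] at hl'; omega) ih
      have e : p' = (p.1, p'.2) := Prod.ext h.1.symm rfl
      rw [List.cons_append, List.cons_append, e]
      exact this

/-- the first step below `Q` decides -/
theorem pat_first {B L : ℕ} (hB : 1 ≤ B) (w w' Q : Wd) (t x x' : ℕ)
    (h : w.map Prod.fst = w'.map Prod.fst) (hv : Val B m (w ++ (t, x) :: Q))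
    (hv' : Val B m (w' ++ (t, x') :: Q)) (hl : (w ++ (t, x) :: Q).length ≤ L)
    (hl' : (w' ++ (t, x') :: Q).length ≤ L) (hx : x < x') :
    code B L m (w ++ (t, x) :: Q) < code B L m (w' ++ (t, x') :: Q) := by
  refine pat hB w w' _ _ h hv hv' hl hl' ?_
  have h1 := hv.right
  have h2 := hv'.right
  refine kp1_sib hB m t x x' Q (h1 (t, x) (by simp)).1 h1.tail hx (h2 (t, x') (by simp)).2 ?_
  simp only [List.length_append, List.length_cons] at hl
  omega

end Pool.Agent.Lib.MP_1fca17_co.Q.W52
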