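import Mathlib
import Pool.Agent.Lib.MP_1fca17_co.Q.Defs

/-!
# MP_1fca17_co : the assembly of the windows

The windows are laid out one after another: the second order of the level `j + 1` is the reverse
of the order `κ` of the window `j`.
-/

namespace Pool.Agent.Lib.MP_1fca17_co.Q

open Finset
open scoped Classical
open Pool.Agent.Lib.MP_1fca17_co (sg GenPos Btw LC MonoFam StCount StNum1)

noncomputable section

namespace RAsm

/-- the conclusion of the window `j` -/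
def Con {V : Type} (G : SimpleGraph V) (ℓ : V → ℕ) (m j : ℕ) (a : V → List ℕ)
    (τ β κ : V → ℕ) : Prop :=
  Function.Injective β ∧ Function.Injective κ ∧
    (∀ F : Finset (V × V), (∀ e ∈ F, G.Adj e.1 e.2 ∧ ℓ e.1 = j ∧ ℓ e.2 = j + 1) → Anti β κ F →
      F.card ≤ 3 * m) ∧
    (∀ F : Finset (V × V), (∀ e ∈ F, G.Adj e.1 e.2 ∧ ℓ e.1 = j ∧ ℓ e.2 = j ∧
      Even (a e.1).length ∧ ¬ Even (a e.2).length) → Anti β β F → F.card ≤ 2 * m) ∧
    (∀ F : Finset (V × V), (∀ e ∈ F, G.Adj e.1 e.2 ∧ ℓ e.1 = j ∧ ℓ e.2 = j ∧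
      (Even (a e.1).length ↔ Even (a e.2).length) ∧ τ e.1 < τ e.2) →
      (∀ e ∈ F, ∀ f ∈ F, e ≠ f → LC β τ f e ∨ LC β τ e f) → F.card ≤ 2 * m)

theorem exists_con (hw : StWin) {V : Type} [Fintype V] {G : SimpleGraph V} {ℓ : V → ℕ}
    {s Δ m : ℕ} (hd : DegLE Δ G) (hm : 48 * (s * Δ + 4) ≤ m ^ 2) (j : ℕ) (a : V → List ℕ)
    (ha : ∀ u ∈ (univ.filter (fun v => ℓ v = j ∨ ℓ v = j + 1)),
      ∀ v ∈ (univ.filter (fun v => ℓ v = j ∨ ℓ v = j + 1)), G.Adj u v → Rel (a u) (a v))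
    (hb : ∀ l, ((univ.filter (fun v => ℓ v = j ∨ ℓ v = j + 1)).filter
      (fun v => a v = l)).card ≤ s) (τ : V → ℕ) (hτ : Function.Injective τ) :
    ∃ β κ : V → ℕ, Con G ℓ m j a τ β κ := by
  have hAB : (univ.filter (fun v => ℓ v = j)) ∪ (univ.filter (fun v => ℓ v = j + 1)) =
      univ.filter (fun v => ℓ v = j ∨ ℓ v = j + 1) := by
    ext v
    simp
  have hdis : Disjoint (univ.filter (fun v => ℓ v = j)) (univ.filter (fun v => ℓ v = j + 1)) := by
    rw [Finset.disjoint_left]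
    intro v h1 h2
    rw [mem_filter] at h1 h2
    omega
  obtain ⟨β, κ, h1, h2, h3, h4, h5⟩ := hw V G (univ.filter (fun v => ℓ v = j))
    (univ.filter (fun v => ℓ v = j + 1)) a s Δ m τ hdis hd (by rw [hAB]; exact ha)
    (by rw [hAB]; exact hb) hτ.injOn hm
  refine ⟨β, κ, h1, h2, ?_, ?_, ?_⟩
  · intro F hF hA
    refine h3 F (fun e he => ?_) hA
    obtain ⟨p1, p2, p3⟩ := hF e he
    exact ⟨p1, by simp [p2], by simp [p3]⟩
  · intro F hF hA
    refine h4 F (fun e he => ?_) hA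
    obtain ⟨p1, p2, p3, p4⟩ := hF e he
    exact ⟨p1, by simp [p2], by simp [p3], p4⟩
  · intro F hF hA
    refine h5 F (fun e he => ?_) hA
    obtain ⟨p1, p2, p3, p4⟩ := hF e he
    exact ⟨p1, by simp [p2], by simp [p3], p4⟩

end RAsm

open RAsm in
theorem stAsm (hw : StWin) (hg : StGeom) : StAsm := by
  intro V _ G ℓ s Δ m hℓ hd hm hTP
  choose a ha hb using hTP
  have hstep : ∀ (j : ℕ) (τ : {τ : V → ℕ // Function.Injective τ}),
      ∃ β κ : V → ℕ, Con G ℓ m j (a j) τ.1 β κ := fun j τ =>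
    exists_con hw hd hm j (a j) (ha j) (hb j) τ.1 τ.2
  choose β κ hc using hstep
  have hN : ∀ f : V → ℕ, ∀ v, f v ≤ ∑ u, f u := fun f v =>
    Finset.single_le_sum (f := f) (fun _ _ => Nat.zero_le _) (Finset.mem_univ v)
  have hrev : ∀ f : V → ℕ, Function.Injective f →
      Function.Injective (fun v => (∑ u, f u) - f v) := by
    intro f hf u v huv
    apply hf
    have h1 := hN f u
    have h2 := hN f v
    simp only at huv
    omega
  obtain ⟨τ0, hτ0⟩ : ∃ τ0 : V → ℕ, Function.Injective τ0 :=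
    ⟨fun v => (Fintype.equivFin V v : ℕ), fun u v h => (Fintype.equivFin V).injective
      (Fin.ext h)⟩
  let T : ℕ → {τ : V → ℕ // Function.Injective τ} := fun j => Nat.rec ⟨τ0, hτ0⟩
    (fun j τ => ⟨fun v => (∑ u, κ j τ u) - κ j τ v, hrev _ (hc j τ).2.1⟩) j
  have hT : ∀ j v, (T (j + 1)).1 v = (∑ u, κ j (T j) u) - κ j (T j) v := fun j v => rfl
  have hmain : ∃ P : V → ℝ × ℝ, GenPos P ∧ ∀ F : Finset (Sym2 V), (∀ e ∈ F, e ∈ G.edgeSet) →
      (∀ e ∈ F, ∀ f ∈ F, e ≠ f → (edgeSeg P e ∩ edgeSeg P f).Nonempty) →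
      F.card ≤ 4 * (3 * m) + 2 * m + 2 * m := by
    refine hg V G ℓ (fun v => β (ℓ v) (T (ℓ v)) v) (fun v => (T (ℓ v)).1 v)
      (fun v => decide (¬ Even (a (ℓ v) v).length)) (3 * m) (2 * m) (2 * m) hℓ ?_ ?_ ?_ ?_ ?_
    · intro u v h1 h2
      rw [h1] at h2
      exact (hc _ _).1 h2
    · intro u v h1 h2
      rw [h1] at h2
      exact (T _).2 h2
    · intro j b F hF hpar
      refine (hc j (T j)).2.2.1 F (fun e he => ⟨(hF e he).1, (hF e he).2.1, (hF e he).2.2.1⟩) ?_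
      intro e he f hf hne
      obtain ⟨-, e1, e2, -⟩ := hF e he
      obtain ⟨-, f1, f2, -⟩ := hF f hf
      have h := hpar e he f hf hne
      simp only [e1, e2, f1, f2, hT] at h
      have n1 := hN (κ j (T j)) e.2
      have n2 := hN (κ j (T j)) f.2
      rcases h with ⟨h1, h2⟩ | ⟨h1, h2⟩
      · left
        exact ⟨h1, by omega⟩
      · right
        exact ⟨h1, by omega⟩
    · intro j F hF hanti
      refine (hc j (T j)).2.2.2.1 F (fun e he => ?_) ?_
      · obtain ⟨h1, h2, h3, h4, h5⟩ := hF e he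
        simp only [h2, h3, decide_eq_false_iff_not, decide_eq_true_eq, not_not] at h4 h5
        exact ⟨h1, h2, h3, h4, h5⟩
      · intro e he f hf hne
        obtain ⟨-, e1, e2, -⟩ := hF e he
        obtain ⟨-, f1, f2, -⟩ := hF f hf
        have h := hanti e he f hf hne
        simp only [e1, e2, f1, f2] at h
        exact h
    · intro j F hF hlc
      refine (hc j (T j)).2.2.2.2 F (fun e he => ?_) ?_
      · obtain ⟨h1, h2, h3, h4, h5⟩ := hF e he
        simp only [h2, h3] at h4 h5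
        refine ⟨h1, h2, h3, ?_, h5⟩
        have h6 := decide_eq_decide.mp h4
        tauto
      · intro e he f hf hne
        obtain ⟨-, e1, e2, -⟩ := hF e he
        obtain ⟨-, f1, f2, -⟩ := hF f hf
        have h := hlc e he f hf hne
        simp only [LC, Btw, e1, e2, f1, f2] at h
        exact h
  obtain ⟨P, hP, hF⟩ := hmain
  refine ⟨P, hP, fun F h1 h2 => (hF F h1 h2).trans ?_⟩
  omega

end

end Pool.Agent.Lib.MP_1fca17_co.Q
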