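import Mathlib
import Pool.Agent.Lib.MP_1fca17_co.Q.GAux

/-!
# MP_1fca17_co : rows G4, G6 (edges inside one colour; edges that cannot meet)
-/

namespace Pool.Agent.Lib.MP_1fca17_co.Q

open Finset
open scoped Classical
open Pool.Agent.Lib.MP_1fca17_co (sg GenPos Btw LC MonoFam StCount StNum1)

noncomputable section

namespace GA

section

variable {V : Type} {n : ℕ} {ℓ β τ : V → ℕ} {c : V → Bool} {P : V → ℝ × ℝ}

/-- the half of G4 with the second top lower -/
theorem lcHalf (H : StdPos n ℓ β τ c P) {q p q' p' : V} (hq' : ℓ q' = ℓ q) (hp : ℓ p = ℓ q)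
    (hp' : ℓ p' = ℓ q) (cq' : c q' = c q) (cp : c p = c q) (cp' : c p' = c q)
    (hqq : q ≠ q') (hqp : q ≠ p') (hτ1 : τ q < τ p) (hτ2 : τ q' < τ p')
    {z : ℝ × ℝ} (hz : z ∈ sg P (q, p)) (hz' : z ∈ sg P (q', p')) (hlt : τ p' < τ p) :
    LC β τ (q', p') (q, p) := by
  obtain ⟨t, ht, ht1, e1, e2⟩ := mem_sg hz
  obtain ⟨t', ht', ht1', e1', e2'⟩ := mem_sg hz'
  have hN := n_ge H.n1
  have hb := b_ge H.n1 (ℓ q)
  have hy1 := py H q
  have hy1' := py H q'
  have hy2 := py H p
  have hy2' := py H p'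
  obtain ⟨r1, -⟩ := hτ' H q
  obtain ⟨r1', -⟩ := hτ' H q'
  have g1 := pow_grow H.n1 hτ1
  have g2 := pow_grow H.n1 hτ2
  have g3 := pow_grow H.n1 hlt
  have hxq := px H q
  have hxq' := px H q'
  have hxp := px H p
  have hxp' := px H p'
  have b1 := hβ' H q
  have b2 := hβ' H p
  rw [hq', cq'] at hy1'
  rw [hp, cp] at hy2
  rw [hp', cp'] at hy2'
  rw [hq'] at hxq'
  rw [hp] at hxp
  rw [hp'] at hxp'
  unfold hh at hy1 hy1' hy2 hy2'
  set K : ℝ := (if c q then (gV n : ℝ) else 0) with hK
  have hτn : τ q ≠ τ p' := fun h => hqp (H.injτ q p' (by rw [hp']) h)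
  set N : ℝ := (n : ℝ) with hNd
  set b : ℝ := (gB n : ℝ) ^ ℓ q with hbd
  set Y : ℝ := (gY n (ℓ q) : ℝ) with hYd
  set Q : ℝ := (4 * N) ^ τ q with hQ
  set Q' : ℝ := (4 * N) ^ τ q' with hQ'
  set R : ℝ := (4 * N) ^ τ p with hR
  set R' : ℝ := (4 * N) ^ τ p' with hR'
  rw [mul_add] at hy1 hy1' hy2 hy2'
  have hb0 : (0 : ℝ) ≤ b := by linarith
  have n1 : 1 ≤ b * Q := one_le_mul_of_one_le_of_one_le hb r1
  have n1' : 1 ≤ b * Q' := one_le_mul_of_one_le_of_one_le hb r1'
  have k2 : 4 * (b * Q') ≤ b * R' := by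
    have a1 : 4 * Q' ≤ 4 * N * Q' := mul_le_mul_of_nonneg_right (by linarith) (by linarith)
    have a2 := mul_le_mul_of_nonneg_left (a1.trans g2) hb0
    linarith
  have k1 : 4 * (b * Q) ≤ b * R := by
    have a1 : 4 * Q ≤ 4 * N * Q := mul_le_mul_of_nonneg_right (by linarith) (by linarith)
    have a2 := mul_le_mul_of_nonneg_left (a1.trans g1) hb0
    linarith
  have k3 : 4 * N * (b * R') ≤ b * R := by
    have a2 := mul_le_mul_of_nonneg_left g3 hb0
    linarith
  -- the point is below `p'` and above `q`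
  have u1 : z.2 < (P p').2 := by
    have : 0 < (1 - t') * ((P p').2 - (P q').2) := by
      apply mul_pos (by linarith)
      linarith [hy1'.2, hy2'.1]
    linarith
  have u2 : (P q).2 < z.2 := by
    have : 0 < t * ((P p).2 - (P q).2) := by
      apply mul_pos ht
      linarith [hy1.2, hy2.1]
    linarith
  -- `τ q < τ p'`
  have hτ3 : τ q < τ p' := by
    by_contra hc
    have hc' : τ p' < τ q := by omega
    have g4 := pow_grow H.n1 hc'
    rw [← hNd, ← hR', ← hQ] at g4
    have r2 : 1 ≤ R' := pow_pos' H.n1 (τ p')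
    have a1 : 4 * R' ≤ 4 * N * R' := mul_le_mul_of_nonneg_right (by linarith) (by linarith)
    have a2 := mul_le_mul_of_nonneg_left (a1.trans g4) hb0
    linarith [hy1.1, hy2'.2]
  refine ⟨hlt, hτ3, ?_⟩
  -- the parameter `t` is small
  have t1 : t * (2 * N) < 1 := by
    have a1 : t * ((P p).2 - (P q).2) < (P p').2 - (P q).2 := by linarith
    -- relative heights
    have a2 : t * (b * R - 1 / 4) ≤ t * ((P p).2 - (Y + b * K)) :=
      mul_le_mul_of_nonneg_left (by linarith [hy2.1]) ht.le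
    have a3 : 0 < (1 - t) * ((P q).2 - (Y + b * K)) := by
      apply mul_pos (by linarith)
      linarith [hy1.1]
    have a4 : t * (b * R) < b * R' + 1 / 2 := by linarith [hy2'.2]
    have a5 : t * (4 * N * (b * R')) ≤ t * (b * R) := mul_le_mul_of_nonneg_left k3 ht.le
    have a6 : 4 ≤ b * R' := by linarith
    by_contra hc
    rw [not_lt] at hc
    have a7 : 2 * (b * R') * 1 ≤ 2 * (b * R') * (t * (2 * N)) :=
      mul_le_mul_of_nonneg_left hc (by linarith)
    linarith
  -- `z` is close to `q` horizontally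
  have hpq : |(P p).1 - (P q).1| ≤ N := by
    rw [hxq, hxp, abs_le]
    constructor <;> linarith [b1.1, b1.2, b2.1, b2.2]
  have near : |z.1 - (P q).1| < 1 / 2 := by
    have : z.1 - (P q).1 = t * ((P p).1 - (P q).1) := by rw [e1]; ring
    rw [this, abs_mul, abs_of_pos ht]
    have := mul_le_mul_of_nonneg_left hpq ht.le
    linarith
  rw [abs_lt] at near
  have q1 : β q ≠ β q' := fun h => hqq (H.injβ q q' (by rw [hq']) h)
  have q2 : β q ≠ β p' := fun h => hqp (H.injβ q p' (by rw [hp']) h)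
  have q3 : β q' ≠ β p' := by
    intro h
    have := H.injβ q' p' (by rw [hq', hp']) h
    rw [this] at hτ2
    exact lt_irrefl _ hτ2
  unfold Btw
  simp only
  rcases lt_or_gt_of_ne q3 with d | d
  · left
    have d' : (β q' : ℝ) < β p' := by exact_mod_cast d
    have dx : 0 < (P p').1 - (P q').1 := by rw [hxq', hxp']; linarith
    have v1 : (P q').1 < z.1 := by
      have := mul_pos ht' dx
      linarith
    have v2 : z.1 < (P p').1 := by
      have := mul_pos (sub_pos.2 ht1') dx
      linarith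
    have w1 : (β q' : ℝ) < β q + 1 := by rw [hxq'] at v1; rw [hxq] at near; linarith [near.2]
    have w2 : (β q : ℝ) < β p' + 1 := by rw [hxp'] at v2; rw [hxq] at near; linarith [near.1]
    have w1' : β q' < β q + 1 := by exact_mod_cast w1
    have w2' : β q < β p' + 1 := by exact_mod_cast w2
    omega
  · right
    have d' : (β p' : ℝ) < β q' := by exact_mod_cast d
    have dx : 0 < (P q').1 - (P p').1 := by rw [hxq', hxp']; linarith
    have v1 : z.1 < (P q').1 := by
      have := mul_pos ht' dx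
      linarith
    have v2 : (P p').1 < z.1 := by
      have := mul_pos (sub_pos.2 ht1') dx
      linarith
    have w1 : (β q : ℝ) < β q' + 1 := by rw [hxq'] at v1; rw [hxq] at near; linarith [near.1]
    have w2 : (β p' : ℝ) < β q + 1 := by rw [hxp'] at v2; rw [hxq] at near; linarith [near.2]
    have w1' : β q < β q' + 1 := by exact_mod_cast w1
    have w2' : β p' < β q + 1 := by exact_mod_cast w2
    omega

end

end GA

open GA in
theorem stG4 : StG4 := by
  intro V n ℓ β τ c P H q p q' p' hq' hp hp' cq' cp cp' hqq hqp hpq hpp hτ1 hτ2 hne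
  obtain ⟨z, hz, hz'⟩ := hne
  have hτn : τ p ≠ τ p' := fun h => hpp (H.injτ p p' (by rw [hp, hp']) h)
  rcases lt_or_gt_of_ne hτn with h | h
  · right
    exact lcHalf H (q := q') (p := p') (q' := q) (p' := p) hq'.symm (by rw [hp', hq'])
      (by rw [hp, hq']) cq'.symm (by rw [cp', cq']) (by rw [cp, cq']) hqq.symm hpq.symm
      hτ2 hτ1 hz' hz h
  · left
    exact lcHalf H hq' hp hp' cq' cp cp' hqq hqp hτ1 hτ2 hz hz' h

open GA in
theorem stG6 : StG6 := by
  intro V n ℓ β τ c P H q p q' p' hne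
  obtain ⟨z, hz, hz'⟩ := hne
  obtain ⟨t, ht, ht1, e1, e2⟩ := mem_sg hz
  obtain ⟨t', ht', ht1', e1', e2'⟩ := mem_sg hz'
  have hN := n_ge H.n1
  have hV := gV_ge H.n1
  have hD := gD_cast n
  have hDN : (n : ℝ) ≤ (gD n : ℝ) := by
    rw [hD]
    have : (n : ℝ) * 1 ≤ n * (32 * (gV n : ℝ)) := mul_le_mul_of_nonneg_left (by linarith) (by linarith)
    linarith
  refine ⟨?_, ?_⟩
  · rintro ⟨h1, h2, h3, h4⟩
    -- everything on the left is at most `D (m + 1) - 1`, `m` the larger level of `q`, `p`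
    have key : ∀ a a' : V, ℓ a < ℓ a' → (P a).1 + 1 ≤ (gD n : ℝ) * (ℓ a' : ℝ) := by
      intro a a' h
      have x1 := px H a
      have b1 := hβ' H a
      have : (ℓ a : ℝ) + 1 ≤ ℓ a' := by exact_mod_cast h
      have := mul_le_mul_of_nonneg_left this (by linarith : (0 : ℝ) ≤ gD n)
      rw [x1]
      linarith [b1.2]
    have key2 : ∀ a : V, (gD n : ℝ) * (ℓ a : ℝ) ≤ (P a).1 := by
      intro a
      rw [px H a]
      linarith [(hβ' H a).1]
    have k1 := (key q q' h1).trans (key2 q')
    have k2 := (key q p' h2).trans (key2 p')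
    have k3 := (key p q' h3).trans (key2 q')
    have k4 := (key p p' h4).trans (key2 p')
    -- convexity
    have f1 : z.1 = (1 - t) * (P q).1 + t * (P p).1 := by rw [e1]; ring
    have f2 : z.1 = (1 - t') * (P q').1 + t' * (P p').1 := by rw [e1']; ring
    rcases le_total (P q).1 (P p).1 with c1 | c1
    · have a1 : z.1 ≤ (P p).1 := by
        have := mul_le_mul_of_nonneg_left c1 (sub_pos.2 ht1).le
        linarith
      rcases le_total (P q').1 (P p').1 with c2 | c2
      · have := mul_le_mul_of_nonneg_left c2 ht'.le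
        linarith
      · have := mul_le_mul_of_nonneg_left c2 (sub_pos.2 ht1').le
        linarith
    · have a1 : z.1 ≤ (P q).1 := by
        have := mul_le_mul_of_nonneg_left c1 ht.le
        linarith
      rcases le_total (P q').1 (P p').1 with c2 | c2
      · have := mul_le_mul_of_nonneg_left c2 ht'.le
        linarith
      · have := mul_le_mul_of_nonneg_left c2 (sub_pos.2 ht1').le
        linarith
  · rintro ⟨hq', hp, hp', cq, cp, cq', cp'⟩
    have hb := b_ge H.n1 (ℓ q)
    have hVc := gV_cast n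
    have hr := rr_ge H.n1
    have low : ∀ a : V, ℓ a = ℓ q → c a = false → (P a).2 <
        (gY n (ℓ q) : ℝ) + (gB n : ℝ) ^ ℓ q * (gV n : ℝ) := by
      intro a ha hc
      have y := (py H a).2
      rw [ha, hc] at y
      unfold hh at y
      simp only [if_false, Bool.false_eq_true, zero_add] at y
      obtain ⟨r1, r2⟩ := hτ' H a
      have s1 : (4 * (n : ℝ)) ^ τ a + 1 ≤ (gV n : ℝ) := by
        have s2 : 4 * (4 * (n : ℝ)) ^ τ a ≤ 4 * (n : ℝ) * (4 * (n : ℝ)) ^ τ a :=
          mul_le_mul_of_nonneg_right (by linarith) (by linarith)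
        have s3 : 8 * rr n ≤ 8 * (n : ℝ) * rr n :=
          mul_le_mul_of_nonneg_right (by linarith) (by linarith)
        linarith
      have s4 := mul_le_mul_of_nonneg_left s1 (by linarith : (0 : ℝ) ≤ (gB n : ℝ) ^ ℓ q)
      linarith
    have high : ∀ a : V, ℓ a = ℓ q → c a = true →
        (gY n (ℓ q) : ℝ) + (gB n : ℝ) ^ ℓ q * (gV n : ℝ) < (P a).2 := by
      intro a ha hc
      have y := (py H a).1
      rw [ha, hc] at y
      unfold hh at y
      simp only [if_true] at y
      obtain ⟨r1, r2⟩ := hτ' H a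
      have s1 := one_le_mul_of_one_le_of_one_le hb r1
      linarith
    have l1 := low q rfl cq
    have l2 := low p hp cp
    have u1 := high q' hq' cq'
    have u2 := high p' hp' cp'
    have a1 : z.2 < (gY n (ℓ q) : ℝ) + (gB n : ℝ) ^ ℓ q * (gV n : ℝ) := by
      have := mul_lt_mul_of_pos_left l1 (sub_pos.2 ht1)
      have := mul_lt_mul_of_pos_left l2 ht
      linarith
    have a2 : (gY n (ℓ q) : ℝ) + (gB n : ℝ) ^ ℓ q * (gV n : ℝ) < z.2 := by
      have := mul_lt_mul_of_pos_left u1 (sub_pos.2 ht1')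
      have := mul_lt_mul_of_pos_left u2 ht'
      linarith
    linarith

end

end Pool.Agent.Lib.MP_1fca17_co.Q
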