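import Mathlib
import Pool.Agent.Lib.MP_1fca17_co.Final

/-!
# MP_1fca17_co : general position of the vertices gives general position of the drawing
-/

namespace Pool.Agent.Lib.MP_1fca17_co.Q

open Finset
open scoped Classical
open Pool.Agent.Lib.MP_1fca17_co (sg GenPos Good edgeSeg edgeSeg_mk)

noncomputable section

theorem good_of_genPos {V : Type} (G : SimpleGraph V) {P : V → ℝ × ℝ} (hP : GenPos P) :
    Good G P := by
  have hor : ∀ e ∈ G.edgeSet, ∃ p : V × V, e = s(p.1, p.2) ∧ G.Adj p.1 p.2 := by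
    intro e he
    induction e using Sym2.ind with
    | _ u v => exact ⟨(u, v), rfl, by simpa using he⟩
  have hshare : ∀ a b c : V, a ≠ b → a ≠ c → b ≠ c →
      openSegment ℝ (P a) (P b) ∩ openSegment ℝ (P a) (P c) = ∅ := by
    intro a b c hab hac hbc
    ext z
    simp only [Set.mem_inter_iff, Set.mem_empty_iff_false, iff_false, not_and]
    intro hz1 hz2
    apply hP.col a b c hab hac hbc
    rw [collinear_iff_of_mem (p₀ := P a) (by simp)]
    obtain ⟨s1, s2, hs1, hs2, hs, hz⟩ := hz1
    obtain ⟨t1, t2, ht1, ht2, ht, hz'⟩ := hz2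
    have e1 : z - P a = s2 • (P b - P a) := by
      rw [← hz]; have : s1 = 1 - s2 := by linarith
      rw [this]; module
    have e2 : z - P a = t2 • (P c - P a) := by
      rw [← hz']; have : t1 = 1 - t2 := by linarith
      rw [this]; module
    refine ⟨z - P a, ?_⟩
    intro p hp
    simp only [Set.mem_insert_iff, Set.mem_singleton_iff] at hp
    rcases hp with rfl | rfl | rfl
    · exact ⟨0, by simp⟩
    · refine ⟨s2⁻¹, ?_⟩
      rw [e1, smul_smul, inv_mul_cancel₀ hs2.ne', one_smul, vadd_eq_add]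
      abel
    · refine ⟨t2⁻¹, ?_⟩
      rw [e2, smul_smul, inv_mul_cancel₀ ht2.ne', one_smul, vadd_eq_add]
      abel
  have hdist : ∀ a b c d : V, G.Adj a b → G.Adj c d → s(a, b) ≠ s(c, d) →
      (sg P (a, b) ∩ sg P (c, d)).Nonempty → a ≠ c ∧ a ≠ d ∧ b ≠ c ∧ b ≠ d := by
    intro a b c d hab hcd hne hz
    have hab' := hab.ne
    have hcd' := hcd.ne
    refine ⟨?_, ?_, ?_, ?_⟩
    · rintro rfl
      have hbd : b ≠ d := by rintro rfl; exact hne rfl
      have := hshare a b d hab' hcd' hbd
      simp only [sg] at hz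
      rw [this] at hz
      exact Set.not_nonempty_empty hz
    · rintro rfl
      have hbc : b ≠ c := by rintro rfl; exact hne Sym2.eq_swap
      have := hshare a b c hab' hcd'.symm hbc
      simp only [sg] at hz
      rw [openSegment_symm ℝ (P c) (P a), this] at hz
      exact Set.not_nonempty_empty hz
    · rintro rfl
      have had : a ≠ d := by rintro rfl; exact hne Sym2.eq_swap
      have := hshare b a d hab'.symm hcd' had
      simp only [sg] at hz
      rw [openSegment_symm ℝ (P a) (P b), this] at hz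
      exact Set.not_nonempty_empty hz
    · rintro rfl
      have hac : a ≠ c := by rintro rfl; exact hne rfl
      have := hshare b a c hab'.symm hcd'.symm hac
      simp only [sg] at hz
      rw [openSegment_symm ℝ (P a) (P b), openSegment_symm ℝ (P c) (P b), this] at hz
      exact Set.not_nonempty_empty hz
  refine ⟨hP.inj, hP.col, ?_⟩
  intro e he f hf g hg hef heg hfg
  obtain ⟨p, rfl, hp⟩ := hor e he
  obtain ⟨q, rfl, hq⟩ := hor f hf
  obtain ⟨r, rfl, hr⟩ := hor g hg
  by_contra hne
  have hne' := Set.nonempty_iff_ne_empty.2 hne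
  rw [edgeSeg_mk, edgeSeg_mk, edgeSeg_mk] at hne'
  obtain ⟨z, ⟨hz1, hz2⟩, hz3⟩ := hne'
  have h12 := hdist _ _ _ _ hp hq hef ⟨z, hz1, hz2⟩
  have h13 := hdist _ _ _ _ hp hr heg ⟨z, hz1, hz3⟩
  have h23 := hdist _ _ _ _ hq hr hfg ⟨z, hz2, hz3⟩
  have hnd : [p.1, p.2, q.1, q.2, r.1, r.2].Nodup := by
    simp only [List.nodup_cons, List.mem_cons, List.not_mem_nil, or_false, not_or,
      not_false_eq_true, List.nodup_nil, and_true]
    have := hp.ne; have := hq.ne; have := hr.ne
    tauto
  have := hP.conc _ _ _ _ _ _ hnd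
  rw [Set.eq_empty_iff_forall_notMem] at this
  exact this z ⟨⟨hz1, hz2⟩, hz3⟩

end

end Pool.Agent.Lib.MP_1fca17_co.Q
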