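import Pool.Agent.Lib.MP_1fca17_co.Q.Defs

/-!
# Labels that are good in every bag
-/

set_option autoImplicit false

namespace Pool.Agent.Lib.MP_1fca17_co.Q

open Finset
open scoped Classical
open Pool.Agent.Lib.MP_1fca17_co (sg GenPos Btw LC MonoFam StCount StNum1)

namespace Lab96

variable {V : Type}

theorem mono_congr {s s' : V → ℤ} {X X' : V → ℕ} {F : Finset (V × V)}
    (h : ∀ e ∈ F, s e.1 = s' e.1 ∧ X e.2 = X' e.2) (hm : MonoFam s X F) : MonoFam s' X' F := by
  intro e he f hf hne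
  obtain ⟨h1, h2⟩ := hm e he f hf hne
  rw [← (h e he).1, ← (h e he).2, ← (h f hf).1, ← (h f hf).2]
  exact ⟨h1, h2⟩

theorem key_congr {b m n : ℕ} {a : V → List ℕ} {lab lab' id : V → ℕ} {v : V}
    (h : lab v = lab' v) : key b m n a lab id v = key b m n a lab' id v := by
  rw [key, key, h]

variable [Fintype V]

/-- all the pairs with second end in the bag `l` -/
theorem card_EE {G : SimpleGraph V} {U : Finset V} {a : V → List ℕ} {s D : ℕ} (hdeg : DegLE D G)
    (hs : ∀ l, (U.filter (fun v => a v = l)).card ≤ s) (l : List ℕ) {E : Finset (V × V)}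
    (hE : ∀ e ∈ E, G.Adj e.1 e.2 ∧ e.2 ∈ U ∧ a e.2 = l) : E.card ≤ s * D := by
  have hdeg' : ∀ v, (univ.filter (fun u => G.Adj v u)).card ≤ D := by
    intro v
    have h := hdeg v
    rw [← Set.ncard_coe_finset]
    refine le_trans (le_of_eq ?_) h
    congr 1
    ext u
    simp
  have h1 : E ⊆ (U.filter (fun v => a v = l)).biUnion
      (fun v => (univ.filter (fun u => G.Adj v u)).image (fun u => (u, v))) := by
    intro e he
    obtain ⟨h2, h3, h4⟩ := hE e he
    rw [mem_biUnion]
    refine ⟨e.2, mem_filter.2 ⟨h3, h4⟩, ?_⟩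
    rw [mem_image]
    exact ⟨e.1, mem_filter.2 ⟨mem_univ _, h2.symm⟩, rfl⟩
  calc E.card ≤ _ := card_le_card h1
    _ ≤ (U.filter (fun v => a v = l)).card * D :=
        card_biUnion_le_card_mul _ _ _ (fun v _ => card_image_le.trans (hdeg' v))
    _ ≤ s * D := Nat.mul_le_mul_right _ (hs l)

/-- a bad event -/
def Bad (m : ℕ) (E : Finset (V × V)) (s : V → ℤ) (X : V → Fin m) : Prop :=
  ∃ F ⊆ E, F.card = m ∧ MonoFam s (fun v => (X v : ℕ)) F

/-- one bad event is rare -/
theorem rare (hc : StCount) (hn : StNum1) {m N : ℕ} (hm : 48 * (N + 4) ≤ m ^ 2)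
    (E : Finset (V × V)) (hE : E.card ≤ N) (s : V → ℤ) :
    24 * ((univ : Finset (V → Fin m)).filter (Bad m E s)).card < m ^ Fintype.card V := by
  have hm1 : 1 ≤ m := by
    rcases Nat.eq_zero_or_pos m with h | h
    · subst h
      simp at hm
    · exact h
  have h1 := hc V m hm1 E s
  set k := N / 4 + 1 with hk
  have h2 := hn k m (by omega) (by omega)
  have h3 : E.card.choose m ≤ (4 * k).choose m := Nat.choose_le_choose m (by omega)
  have h0 : ((univ : Finset (V → Fin m)).filter (Bad m E s)).card * m ^ m ≤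
      E.card.choose m * (2 * m - 1).choose m * m ^ Fintype.card V := by
    refine le_trans (Nat.mul_le_mul_right _ (card_le_card ?_)) h1
    intro X hX
    rw [mem_filter] at hX ⊢
    exact ⟨mem_univ _, hX.2⟩
  set c := ((univ : Finset (V → Fin m)).filter (Bad m E s)).card with hcdef
  set q := (4 * k).choose m * (2 * m - 1).choose m with hq
  have h4 : c * m ^ m ≤ q * m ^ Fintype.card V :=
    h0.trans (Nat.mul_le_mul_right _ (Nat.mul_le_mul_right _ h3))
  have h5 : 12 ≤ (2 * k + 1) * (2 * k + 2) := by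
    have : 1 ≤ k := by omega
    nlinarith
  have h6 : 24 * q < m ^ m := by
    refine lt_of_le_of_lt ?_ h2
    have : 24 ≤ 2 * ((2 * k + 1) * (2 * k + 2)) := by omega
    exact Nat.mul_le_mul_right _ this
  have hpos : 0 < m ^ Fintype.card V := Nat.pow_pos hm1
  have h7 : (24 * c) * m ^ m < m ^ Fintype.card V * m ^ m := by
    calc (24 * c) * m ^ m = 24 * (c * m ^ m) := by ring
      _ ≤ 24 * (q * m ^ Fintype.card V) := Nat.mul_le_mul_left _ h4
      _ = (24 * q) * m ^ Fintype.card V := by ring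
      _ < m ^ m * m ^ Fintype.card V := Nat.mul_lt_mul_of_pos_right h6 hpos
      _ = m ^ Fintype.card V * m ^ m := by ring
  exact lt_of_mul_lt_mul_right h7 (Nat.zero_le _)

/-- a function that avoids four rare events -/
theorem avoid4 {m : ℕ} (P0 P1 P2 P3 : (V → Fin m) → Prop)
    (h0 : 24 * ((univ : Finset (V → Fin m)).filter P0).card < m ^ Fintype.card V)
    (h1 : 24 * ((univ : Finset (V → Fin m)).filter P1).card < m ^ Fintype.card V)
    (h2 : 24 * ((univ : Finset (V → Fin m)).filter P2).card < m ^ Fintype.card V)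
    (h3 : 24 * ((univ : Finset (V → Fin m)).filter P3).card < m ^ Fintype.card V) :
    ∃ X : V → Fin m, ¬ P0 X ∧ ¬ P1 X ∧ ¬ P2 X ∧ ¬ P3 X := by
  by_contra hcon
  have h4 : (univ : Finset (V → Fin m)) ⊆
      ((univ.filter P0 ∪ univ.filter P1) ∪ univ.filter P2) ∪ univ.filter P3 := by
    intro X _
    by_contra hX
    simp only [mem_union, mem_filter, mem_univ, true_and, not_or] at hX
    exact hcon ⟨X, hX.1.1.1, hX.1.1.2, hX.1.2, hX.2⟩
  have h5 := card_le_card h4
  have h6 := card_union_le ((univ.filter P0 ∪ univ.filter P1) ∪ univ.filter P2) (univ.filter P3)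
  have h7 := card_union_le (univ.filter P0 ∪ univ.filter P1) (univ.filter P2)
  have h8 := card_union_le (univ.filter P0) (univ.filter P1)
  rw [card_univ, Fintype.card_fun, Fintype.card_fin] at h5
  omega

/-- the labels of one bag can be changed so that they become good in this bag -/
theorem one_bag (hc : StCount) (hn : StNum1) {G : SimpleGraph V} {A B : Finset V}
    {a : V → List ℕ} {s D b m n : ℕ} {τ id : V → ℕ} (hdeg : DegLE D G)
    (hs : ∀ l, ((A ∪ B).filter (fun v => a v = l)).card ≤ s) (hm : 48 * (s * D + 4) ≤ m ^ 2)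
    (lA lB : V → Fin m) (l : List ℕ) :
    ∃ lA' lB' : V → Fin m, (∀ v, a v ≠ l → lA' v = lA v ∧ lB' v = lB v) ∧
      GoodBag G A B a b m n τ id lA' lB' l := by
  have c1 : (E1 G A B a l).card ≤ s * D := card_EE hdeg hs l (fun e he => by
    obtain ⟨-, h1, -, h2, h3, -⟩ := mem_filter.1 he
    exact ⟨h1, mem_union_left _ h2, h3⟩)
  have c2 : (E2 G A A a l).card ≤ s * D := card_EE hdeg hs l (fun e he => by
    obtain ⟨-, h1, -, h2, h3, -⟩ := mem_filter.1 he
    exact ⟨h1, mem_union_left _ h2, h3⟩)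
  have c3 : (E3 G A a l).card ≤ s * D := card_EE hdeg hs l (fun e he => by
    obtain ⟨-, h1, -, h2, -, h3⟩ := mem_filter.1 he
    exact ⟨h1, mem_union_left _ h2, h3⟩)
  have c5 : (E2 G B A a l).card ≤ s * D := card_EE hdeg hs l (fun e he => by
    obtain ⟨-, h1, -, h2, h3, -⟩ := mem_filter.1 he
    exact ⟨h1, mem_union_right _ h2, h3⟩)
  -- the labels of `B`
  have r5 := rare (V := V) hc hn hm (E2 G B A a l) c5
    (fun v => - ((key b m n a (fun u => (lA u : ℕ)) id v : ℕ) : ℤ))
  obtain ⟨Y, hY, -, -, -⟩ := avoid4 _ _ _ _ r5 r5 r5 r5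
  set lB' : V → Fin m := fun v => if a v = l then Y v else lB v with hlB'
  -- the labels of `A`
  have r1 := rare (V := V) hc hn hm (E1 G A B a l) c1
    (fun v => - ((key b m n a (fun u => (lB' u : ℕ)) id v : ℕ) : ℤ))
  have r2 := rare (V := V) hc hn hm (E2 G A A a l) c2
    (fun v => - ((key b m n a (fun u => (lA u : ℕ)) id v : ℕ) : ℤ))
  have r3 := rare (V := V) hc hn hm (E3 G A a l) c3 (fun v => (τ v : ℤ))
  have r4 := rare (V := V) hc hn hm (E3 G A a l) c3 (fun v => - (τ v : ℤ))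
  obtain ⟨X, hX1, hX2, hX3, hX4⟩ := avoid4 _ _ _ _ r1 r2 r3 r4
  set lA' : V → Fin m := fun v => if a v = l then X v else lA v with hlA'
  have eA : ∀ v, a v = l → (lA' v : ℕ) = (X v : ℕ) := fun v hv => by
    rw [hlA']; simp only [hv, if_true]
  have eB : ∀ v, a v = l → (lB' v : ℕ) = (Y v : ℕ) := fun v hv => by
    rw [hlB']; simp only [hv, if_true]
  have eA' : ∀ v, a v ≠ l → lA' v = lA v := fun v hv => by
    rw [hlA']; simp only [hv, if_false]
  have eB' : ∀ v, a v ≠ l → lB' v = lB v := fun v hv => by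
    rw [hlB']; simp only [hv, if_false]
  have hne : ∀ x : ℕ, x :: l ≠ l := fun x h => by
    have := congrArg List.length h
    simp at this
  refine ⟨lA', lB', fun v hv => ⟨eA' v hv, eB' v hv⟩, ?_, ?_, ?_, ?_, ?_⟩
  · intro F hF hFm hmono
    refine hX1 ⟨F, hF, hFm, mono_congr (fun e he => ⟨rfl, ?_⟩) hmono⟩
    obtain ⟨-, -, -, -, h3, -⟩ := mem_filter.1 (hF he)
    exact eA _ h3
  · intro F hF hFm hmono
    refine hX2 ⟨F, hF, hFm, mono_congr (fun e he => ?_) hmono⟩
    obtain ⟨-, -, -, -, h3, x, h4⟩ := mem_filter.1 (hF he)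
    refine ⟨?_, eA _ h3⟩
    have h5 : a e.1 ≠ l := by rw [h4]; exact hne x
    show - ((key b m n a (fun u => (lA' u : ℕ)) id e.1 : ℕ) : ℤ) =
      - ((key b m n a (fun u => (lA u : ℕ)) id e.1 : ℕ) : ℤ)
    rw [key_congr (lab' := fun u => (lA u : ℕ)) (by rw [eA' _ h5])]
  · intro F hF hFm hmono
    refine hX3 ⟨F, hF, hFm, mono_congr (fun e he => ⟨rfl, ?_⟩) hmono⟩
    obtain ⟨-, -, -, -, -, h3⟩ := mem_filter.1 (hF he)
    exact eA _ h3
  · intro F hF hFm hmono
    refine hX4 ⟨F, hF, hFm, mono_congr (fun e he => ⟨rfl, ?_⟩) hmono⟩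
    obtain ⟨-, -, -, -, -, h3⟩ := mem_filter.1 (hF he)
    exact eA _ h3
  · intro F hF hFm hmono
    refine hY ⟨F, hF, hFm, mono_congr (fun e he => ?_) hmono⟩
    obtain ⟨-, -, -, -, h3, x, h4⟩ := mem_filter.1 (hF he)
    refine ⟨?_, eB _ h3⟩
    have h5 : a e.1 ≠ l := by rw [h4]; exact hne x
    show - ((key b m n a (fun u => (lA' u : ℕ)) id e.1 : ℕ) : ℤ) =
      - ((key b m n a (fun u => (lA u : ℕ)) id e.1 : ℕ) : ℤ)
    rw [key_congr (lab' := fun u => (lA u : ℕ)) (by rw [eA' _ h5])]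

/-- `GoodBag` depends on the labels in the bag and in its children only -/
theorem good_congr {G : SimpleGraph V} {A B : Finset V} {a : V → List ℕ} {b m n : ℕ}
    {τ id : V → ℕ} {lA lB lA' lB' : V → Fin m} {l : List ℕ}
    (h : ∀ v, (a v = l ∨ ∃ x, a v = x :: l) → lA' v = lA v ∧ lB' v = lB v)
    (hg : GoodBag G A B a b m n τ id lA lB l) : GoodBag G A B a b m n τ id lA' lB' l := by
  obtain ⟨g1, g2, g3, g4, g5⟩ := hg
  refine ⟨?_, ?_, ?_, ?_, ?_⟩
  · intro F hF hFm hmono
    refine g1 F hF hFm (mono_congr (fun e he => ?_) hmono)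
    obtain ⟨-, -, -, -, h3, h4⟩ := mem_filter.1 (hF he)
    refine ⟨?_, ?_⟩
    · show - ((key b m n a (fun u => (lB' u : ℕ)) id e.1 : ℕ) : ℤ) =
        - ((key b m n a (fun u => (lB u : ℕ)) id e.1 : ℕ) : ℤ)
      rw [key_congr (lab' := fun u => (lB u : ℕ)) (by rw [(h e.1 h4).2])]
    · show (lA' e.2 : ℕ) = (lA e.2 : ℕ)
      rw [(h e.2 (Or.inl h3)).1]
  · intro F hF hFm hmono
    refine g2 F hF hFm (mono_congr (fun e he => ?_) hmono)
    obtain ⟨-, -, -, -, h3, h4⟩ := mem_filter.1 (hF he)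
    refine ⟨?_, ?_⟩
    · show - ((key b m n a (fun u => (lA' u : ℕ)) id e.1 : ℕ) : ℤ) =
        - ((key b m n a (fun u => (lA u : ℕ)) id e.1 : ℕ) : ℤ)
      rw [key_congr (lab' := fun u => (lA u : ℕ)) (by rw [(h e.1 (Or.inr h4)).1])]
    · show (lA' e.2 : ℕ) = (lA e.2 : ℕ)
      rw [(h e.2 (Or.inl h3)).1]
  · intro F hF hFm hmono
    refine g3 F hF hFm (mono_congr (fun e he => ⟨rfl, ?_⟩) hmono)
    obtain ⟨-, -, -, -, -, h3⟩ := mem_filter.1 (hF he)
    show (lA' e.2 : ℕ) = (lA e.2 : ℕ)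
    rw [(h e.2 (Or.inl h3)).1]
  · intro F hF hFm hmono
    refine g4 F hF hFm (mono_congr (fun e he => ⟨rfl, ?_⟩) hmono)
    obtain ⟨-, -, -, -, -, h3⟩ := mem_filter.1 (hF he)
    show (lA' e.2 : ℕ) = (lA e.2 : ℕ)
    rw [(h e.2 (Or.inl h3)).1]
  · intro F hF hFm hmono
    refine g5 F hF hFm (mono_congr (fun e he => ?_) hmono)
    obtain ⟨-, -, -, -, h3, h4⟩ := mem_filter.1 (hF he)
    refine ⟨?_, ?_⟩
    · show - ((key b m n a (fun u => (lA' u : ℕ)) id e.1 : ℕ) : ℤ) =
        - ((key b m n a (fun u => (lA u : ℕ)) id e.1 : ℕ) : ℤ)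
      rw [key_congr (lab' := fun u => (lA u : ℕ)) (by rw [(h e.1 (Or.inr h4)).1])]
    · show (lB' e.2 : ℕ) = (lB e.2 : ℕ)
      rw [(h e.2 (Or.inl h3)).2]

/-- an empty bag is good -/
theorem good_empty {G : SimpleGraph V} {A B : Finset V} {a : V → List ℕ} {b m n : ℕ}
    {τ id : V → ℕ} {lA lB : V → Fin m} {l : List ℕ} (hm : 1 ≤ m) (h : ∀ v, a v ≠ l) :
    GoodBag G A B a b m n τ id lA lB l := by
  have key : ∀ F E : Finset (V × V), F ⊆ E → F.card = m → (∀ e ∈ E, a e.2 = l) → False := by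
    intro F E hF hc hE
    obtain ⟨e, he⟩ : F.Nonempty := by
      rw [← card_pos, hc]
      exact hm
    exact h _ (hE e (hF he))
  refine ⟨fun F hF hc _ => key F _ hF hc ?_, fun F hF hc _ => key F _ hF hc ?_,
    fun F hF hc _ => key F _ hF hc ?_, fun F hF hc _ => key F _ hF hc ?_,
    fun F hF hc _ => key F _ hF hc ?_⟩
  · intro e he
    exact (mem_filter.1 he).2.2.2.2.1
  · intro e he
    exact (mem_filter.1 he).2.2.2.2.1
  · intro e he
    exact (mem_filter.1 he).2.2.2.2.2
  · intro e he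
    exact (mem_filter.1 he).2.2.2.2.2
  · intro e he
    exact (mem_filter.1 he).2.2.2.2.1

end Lab96

open Lab96

/-- LAB -/
theorem stLab (_hrk : StRk) (hc : StCount) (hn : StNum1) : StLab := by
  intro V _ G A B a s D b m n τ id hdeg _ hs _ _ hm
  have hm1 : 1 ≤ m := by
    rcases Nat.eq_zero_or_pos m with h | h
    · subst h
      simp at hm
    · exact h
  obtain ⟨N0, hN0⟩ : ∃ N0, ∀ v, (a v).length < N0 := by
    refine ⟨(univ.sup (fun v => (a v).length)) + 1, fun v => Nat.lt_succ_of_le ?_⟩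
    exact le_sup (f := fun v => (a v).length) (mem_univ v)
  have main : ∀ i N, N + i = N0 → ∃ lA lB : V → Fin m, ∀ l : List ℕ, N ≤ l.length →
      GoodBag G A B a b m n τ id lA lB l := by
    intro i
    induction i with
    | zero =>
      intro N hN
      refine ⟨fun _ => ⟨0, hm1⟩, fun _ => ⟨0, hm1⟩, fun l hl => good_empty hm1 (fun v hv => ?_)⟩
      have := hN0 v
      rw [hv] at this
      omega
    | succ i ih =>
      intro N hN
      obtain ⟨lA0, lB0, h0⟩ := ih (N + 1) (by omega)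
      have step : ∀ S : Finset (List ℕ), (∀ l ∈ S, l.length = N) → ∃ lA lB : V → Fin m,
          (∀ l : List ℕ, N + 1 ≤ l.length → GoodBag G A B a b m n τ id lA lB l) ∧
          ∀ l ∈ S, GoodBag G A B a b m n τ id lA lB l := by
        intro S
        induction S using Finset.induction_on with
        | empty => exact fun _ => ⟨lA0, lB0, h0, by simp⟩
        | insert l0 S hl0 ihS =>
          intro hS
          obtain ⟨lA, lB, g1, g2⟩ := ihS (fun l hl => hS l (mem_insert_of_mem hl))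
          obtain ⟨lA', lB', k1, k2⟩ := one_bag (b := b) (n := n) (τ := τ) (id := id) hc hn hdeg hs
            hm lA lB l0
          have hl0N := hS l0 (mem_insert_self _ _)
          have tr : ∀ l : List ℕ, N ≤ l.length → l ≠ l0 →
              GoodBag G A B a b m n τ id lA lB l → GoodBag G A B a b m n τ id lA' lB' l := by
            intro l hl hne hg
            refine good_congr (fun v hv => k1 v ?_) hg
            rcases hv with hv | ⟨x, hv⟩
            · rw [hv]; exact hne
            · rw [hv]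
              intro h
              have := congrArg List.length h
              rw [List.length_cons, hl0N] at this
              omega
          refine ⟨lA', lB', fun l hl => tr l (by omega) (fun h => ?_) (g1 l hl), ?_⟩
          · rw [h, hl0N] at hl
            omega
          · intro l hl
            rcases mem_insert.1 hl with h | h
            · rw [h]; exact k2
            · exact tr l (by rw [hS l hl]) (fun h' => hl0 (h' ▸ h)) (g2 l h)
      obtain ⟨lA, lB, g1, g2⟩ := step ((univ.image a).filter (fun l => l.length = N))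
        (fun l hl => (mem_filter.1 hl).2)
      refine ⟨lA, lB, fun l hl => ?_⟩
      rcases Nat.lt_or_ge N l.length with h | h
      · exact g1 l h
      · by_cases hl' : l ∈ univ.image a
        · exact g2 l (mem_filter.2 ⟨hl', by omega⟩)
        · exact good_empty hm1 (fun v hv => hl' (mem_image.2 ⟨v, mem_univ _, hv⟩))
  obtain ⟨lA, lB, h⟩ := main N0 0 (by omega)
  exact ⟨lA, lB, fun l => h l (Nat.zero_le _)⟩

end Pool.Agent.Lib.MP_1fca17_co.Q
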