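import Mathlib
import Pool.Agent.Lib.MP_1fca17_co.Q.MapDefs

/-!
# MP_1fca17_co : the darts whose bag contains a given vertex are connected
-/

namespace Pool.Agent.Lib.MP_1fca17_co.Q

open Finset
open scoped Classical

namespace MC64

variable {X D : Type} [Fintype X] [Fintype D] {M : PlaneMap X D} {S : BFS M} {b : BaseD M}

/-- connected inside the darts whose bag contains `x` -/
def C (S : BFS M) (b : BaseD M) (x : X) (d d' : D) : Prop :=
  Relation.ReflTransGen (fun e f => x ∈ bagD S b e ∧ x ∈ bagD S b f ∧ (linkG S b).Adj e f) d d'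

lemma C_symm {x : X} {d d' : D} (h : C S b x d d') : C S b x d' d := by
  unfold C at h ⊢
  induction h with
  | refl => exact Relation.ReflTransGen.refl
  | tail _ h2 ih =>
    exact Relation.ReflTransGen.head ⟨h2.2.1, h2.1, h2.2.2.symm⟩ ih

lemma C_trans {x : X} {d d' d'' : D} (h : C S b x d d') (h' : C S b x d' d'') :
    C S b x d d'' := Relation.ReflTransGen.trans h h'

lemma mem_bag {x : X} {d : D} : x ∈ bagD S b d ↔
    (S.On x (M.vert d) ∨ S.On x (M.vert (M.α d)) ∨ S.On x (M.vert (b.base d))) := by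
  simp [bagD]

lemma on_refl (x : X) : S.On x x := Relation.ReflTransGen.refl

lemma on_up {x z y : X} (hz : z ≠ S.r) (hx : S.up z = x) (h : S.On z y) : S.On x y :=
  Relation.ReflTransGen.tail h ⟨hz, hx.symm⟩

lemma mem_up {x z : X} {d : D} (hz : z ≠ S.r) (hx : S.up z = x) (h : z ∈ bagD S b d) :
    x ∈ bagD S b d := by
  rw [mem_bag] at h ⊢
  rcases h with h | h | h
  · exact Or.inl (on_up hz hx h)
  · exact Or.inr (Or.inl (on_up hz hx h))
  · exact Or.inr (Or.inr (on_up hz hx h))

lemma C_up {x z : X} {d d' : D} (hz : z ≠ S.r) (hx : S.up z = x) (h : C S b z d d') :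
    C S b x d d' :=
  Relation.ReflTransGen.mono
    (fun _ _ hef => ⟨mem_up hz hx hef.1, mem_up hz hx hef.2.1, hef.2.2⟩) _ _ h

lemma mem_tail {x : X} {d : D} (h : S.On x (M.vert d)) : x ∈ bagD S b d := mem_bag.2 (Or.inl h)

lemma mem_head {x : X} {d : D} (h : S.On x (M.vert d)) : x ∈ bagD S b (M.α d) :=
  mem_bag.2 (Or.inr (Or.inl (by rw [M.invol]; exact h)))

lemma base_base (d : D) : b.base (b.base d) = b.base d := (b.const _ _ (b.same d)).symm

/-- all the darts of a face are connected to the base dart if the face is inside -/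
lemma face {x : X} {d : D} (h : S.On x (M.vert (b.base d))) : C S b x (b.base d) d := by
  have hin : ∀ e, (M.σ * M.α).SameCycle (b.base d) e → x ∈ bagD S b e := by
    intro e he
    have h1 := b.const _ _ he
    rw [base_base] at h1
    exact mem_bag.2 (Or.inr (Or.inr (by rw [← h1]; exact h)))
  have hpow : ∀ n : ℕ, C S b x (b.base d) (((M.σ * M.α) ^ n) (b.base d)) := by
    intro n
    induction n with
    | zero => exact Relation.ReflTransGen.refl
    | succ n ih =>
      obtain ⟨e, he⟩ : ∃ e, e = ((M.σ * M.α) ^ n) (b.base d) := ⟨_, rfl⟩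
      have hs : ((M.σ * M.α) ^ (n + 1)) (b.base d) = M.σ (M.α e) := by
        rw [pow_succ', he]; rfl
      have hc1 : (M.σ * M.α).SameCycle (b.base d) e := by
        rw [he]; exact Equiv.Perm.sameCycle_pow_right.2 (Equiv.Perm.SameCycle.refl _ _)
      have hc2 : (M.σ * M.α).SameCycle (b.base d) (M.σ (M.α e)) := by
        rw [← hs]; exact Equiv.Perm.sameCycle_pow_right.2 (Equiv.Perm.SameCycle.refl _ _)
      rw [← he] at ih
      rw [hs]
      by_cases h1 : M.σ (M.α e) = b.base d
      · rw [h1]; exact Relation.ReflTransGen.refl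
      · by_cases h2 : e = M.σ (M.α e)
        · rw [← h2]; exact ih
        · refine Relation.ReflTransGen.tail ih ⟨hin _ hc1, hin _ hc2, h2, Or.inl ⟨rfl, ?_⟩⟩
          have h3 := b.const _ _ hc2
          rw [base_base] at h3
          rw [← h3]
          exact fun h4 => h1 h4.symm
  obtain ⟨n, hn⟩ := (b.same d).symm.exists_nat_pow_eq
  have h1 := hpow n
  rw [hn] at h1
  exact h1

/-- consecutive darts at a vertex -/
lemma r1 {x : X} {d : D} (h : S.On x (M.vert d)) : C S b x (M.α d) (M.σ d) := by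
  have hv : M.vert (M.σ d) = M.vert d :=
    ((M.orbit (M.σ d) d).2 (Equiv.Perm.sameCycle_apply_left.2 (Equiv.Perm.SameCycle.refl _ _)))
  have hφ : (M.σ * M.α) (M.α d) = M.σ d := by
    rw [Equiv.Perm.mul_apply, M.invol]
  by_cases hb : b.base (M.σ d) = M.σ d
  · have h1 : b.base (M.α d) = M.σ d := by
      refine (b.const _ _ ?_).trans hb
      rw [← hφ]
      exact Equiv.Perm.sameCycle_apply_right.2 (Equiv.Perm.SameCycle.refl _ _)
    have h2 : C S b x (b.base (M.α d)) (M.α d) := face (by rw [h1, hv]; exact h)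
    rw [h1] at h2
    exact C_symm h2
  · by_cases he : M.α d = M.σ d
    · rw [he]; exact Relation.ReflTransGen.refl
    · refine Relation.ReflTransGen.single ⟨mem_head h, mem_tail (by rw [hv]; exact h), he,
        Or.inl ⟨?_, hb⟩⟩
      rw [M.invol]

theorem main (N : ℕ) (hN : ∀ y, S.dist y ≤ N) : ∀ (m : ℕ) (x : X), N - S.dist x = m →
    ∀ d d', x ∈ bagD S b d → x ∈ bagD S b d' → C S b x d d' := by
  intro m
  induction m using Nat.strong_induction_on with
  | _ m ih =>
  intro x hm
  have hz : ∀ z, z ≠ S.r → S.up z = x → ∀ d d', z ∈ bagD S b d → z ∈ bagD S b d' →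
      C S b x d d' := by
    intro z hzr hzx d d' hd hd'
    have h1 : S.dist x + 1 = S.dist z := by
      rw [← hzx]; exact S.pd_head z hzr
    have h2 := hN z
    exact C_up hzr hzx (ih (N - S.dist z) (by omega) z rfl d d' hd hd')
  -- the reference dart
  obtain ⟨d0, hd0, hd0'⟩ : ∃ d0, M.vert d0 = x ∧ (x ≠ S.r → d0 = S.pd x) := by
    by_cases hr : x = S.r
    · obtain ⟨d0, h0⟩ := M.surj x
      exact ⟨d0, h0, fun h => absurd hr h⟩
    · exact ⟨S.pd x, S.pd_tail x hr, fun _ => rfl⟩
  have hE : ∀ e, M.vert e = x → e ≠ d0 → C S b x e (M.α e) := by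
    intro e he hne
    by_cases ht : S.tree e
    · obtain ⟨y, hy, h1 | h1⟩ := ht
      · exfalso
        have h2 : y = x := by rw [← he, h1, S.pd_tail y hy]
        rw [h2] at hy h1
        exact hne (by rw [h1, hd0' hy])
      · have h2 : S.up y = x := by rw [← he, h1]; rfl
        refine hz y hy h2 _ _ ?_ ?_
        · rw [h1]
          exact mem_head (by rw [S.pd_tail y hy]; exact on_refl y)
        · rw [h1, M.invol]
          exact mem_tail (by rw [S.pd_tail y hy]; exact on_refl y)
    · refine Relation.ReflTransGen.single ⟨mem_tail (by rw [he]; exact on_refl x),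
        mem_head (by rw [he]; exact on_refl x), (M.nofix e).symm, Or.inr (Or.inr ⟨rfl, ht⟩)⟩
  have hQ : ∀ n : ℕ, M.vert ((M.σ ^ (n + 1)) d0) = x ∧ C S b x (M.α d0) ((M.σ ^ (n + 1)) d0) ∧
      C S b x (M.α d0) (M.α ((M.σ ^ (n + 1)) d0)) := by
    have hstep : ∀ e, M.vert e = x → C S b x (M.α d0) (M.α e) →
        M.vert (M.σ e) = x ∧ C S b x (M.α d0) (M.σ e) ∧ C S b x (M.α d0) (M.α (M.σ e)) := by
      intro e he hc
      have hv : M.vert (M.σ e) = x := by
        rw [← he]
        exact (M.orbit (M.σ e) e).2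
          (Equiv.Perm.sameCycle_apply_left.2 (Equiv.Perm.SameCycle.refl _ _))
      have h1 : C S b x (M.α d0) (M.σ e) := C_trans hc (r1 (by rw [he]; exact on_refl x))
      refine ⟨hv, h1, ?_⟩
      by_cases h2 : M.σ e = d0
      · rw [h2]; exact Relation.ReflTransGen.refl
      · exact C_trans h1 (hE _ hv h2)
    intro n
    induction n with
    | zero =>
      have h1 := hstep d0 hd0 Relation.ReflTransGen.refl
      simpa using h1
    | succ n ihn =>
      have h1 := hstep _ ihn.1 ihn.2.2
      rw [pow_succ' M.σ (n + 1), Equiv.Perm.mul_apply]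
      exact h1
  have hA : ∀ e, M.vert e = x → C S b x (M.α d0) e ∧ C S b x (M.α d0) (M.α e) := by
    intro e he
    have h1 : M.σ.SameCycle d0 e := (M.orbit d0 e).1 (by rw [hd0, he])
    obtain ⟨n, hn0, _, hn⟩ := h1.exists_pow_eq
    obtain ⟨k, rfl⟩ : ∃ k, n = k + 1 := ⟨n - 1, by omega⟩
    have h2 := hQ k
    rw [hn] at h2
    exact h2.2
  have hB : ∀ e, S.On x (M.vert e) → C S b x (M.α d0) e ∧ C S b x (M.α d0) (M.α e) := by
    intro e he
    rcases Relation.ReflTransGen.cases_tail he with h1 | ⟨z, h1, h2, h3⟩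
    · exact hA e h1.symm
    · have h4 : C S b x (M.α d0) (S.pd z) := by
        have h5 := (hA (M.α (S.pd z)) h3.symm).2
        rwa [M.invol] at h5
      have h6 : z ∈ bagD S b (S.pd z) := mem_tail (by rw [S.pd_tail z h2]; exact on_refl z)
      exact ⟨C_trans h4 (hz z h2 h3.symm _ _ h6 (mem_tail h1)),
        C_trans h4 (hz z h2 h3.symm _ _ h6 (mem_head h1))⟩
  have hAll : ∀ e, x ∈ bagD S b e → C S b x (M.α d0) e := by
    intro e he
    rcases mem_bag.1 he with h1 | h1 | h1
    · exact (hB e h1).1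
    · have h2 := (hB (M.α e) h1).2
      rwa [M.invol] at h2
    · exact C_trans (hB _ h1).1 (face h1)
  intro d d' hd hd'
  exact C_trans (C_symm (hAll d hd)) (hAll d' hd')

end MC64

open MC64 in
/-- MCONN -/
theorem stMConn : StMConn := by
  intro X D _ _ M S b x d d' hd hd'
  exact main (univ.sup S.dist) (fun y => Finset.le_sup (mem_univ y)) _ x rfl d d' hd hd'

end Pool.Agent.Lib.MP_1fca17_co.Q
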