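import Mathlib
import Pool.Agent.Lib.MP_1fca17_co.Q.MapDefs

/-!
# MP_1fca17_co : the number of links
-/

namespace Pool.Agent.Lib.MP_1fca17_co.Q

open Finset
open scoped Classical

namespace Cnt64

variable {X D : Type} [Fintype X] [Fintype D] {M : PlaneMap X D} {S : BFS M} {b : BaseD M}

lemma base_base (d : D) : b.base (b.base d) = b.base d := (b.const _ _ (b.same d)).symm

/-- there are at least as many base darts as faces -/
lemma card_base (b : BaseD M) : Nat.card (Quotient (Equiv.Perm.SameCycle.setoid (M.σ * M.α))) ≤
    (univ.filter (fun d => b.base d = d)).card := by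
  have h : Nat.card (Quotient (Equiv.Perm.SameCycle.setoid (M.σ * M.α))) ≤
      Nat.card {d // b.base d = d} := by
    refine Nat.card_le_card_of_injective
      (fun q : Quotient (Equiv.Perm.SameCycle.setoid (M.σ * M.α)) =>
        (⟨b.base q.out, base_base q.out⟩ : {d // b.base d = d})) ?_
    intro q q' hq
    have h1 : b.base q.out = b.base q'.out := by
      have := congrArg Subtype.val hq
      exact this
    have h2 : (M.σ * M.α).SameCycle q.out q'.out := by
      refine (b.same q.out).trans ?_
      rw [h1]
      exact (b.same q'.out).symm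
    rw [← Quotient.out_eq q, ← Quotient.out_eq q']
    exact Quotient.sound h2
  refine h.trans (le_of_eq ?_)
  rw [Nat.card_eq_fintype_card, Fintype.card_subtype]

/-- there are enough tree darts -/
lemma card_tree (S : BFS M) : 2 * (Fintype.card X - 1) ≤
    (univ.filter (fun d => S.tree d)).card := by
  have hinj : ∀ x y, x ≠ S.r → y ≠ S.r → S.pd x ≠ M.α (S.pd y) := by
    intro x y hx hy h
    have h1 : x = M.vert (M.α (S.pd y)) := by rw [← h, S.pd_tail x hx]
    have h2 : M.vert (M.α (S.pd x)) = y := by rw [h, M.invol, S.pd_tail y hy]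
    have h3 := S.pd_head x hx
    have h4 := S.pd_head y hy
    rw [h2] at h3
    rw [← h1] at h4
    omega
  have h1 : ((univ.erase S.r) ×ˢ (univ : Finset Bool)).card ≤
      (univ.filter (fun d => S.tree d)).card := by
    refine Finset.card_le_card_of_injOn
      (fun p => if p.2 then S.pd p.1 else M.α (S.pd p.1)) ?_ ?_
    · rintro ⟨x, c⟩ hx
      simp only [mem_coe, mem_product, mem_erase, mem_univ, and_true] at hx
      simp only [mem_coe, mem_filter, mem_univ, true_and]
      refine ⟨x, hx, ?_⟩
      cases c
      · exact Or.inr rfl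
      · exact Or.inl rfl
    · rintro ⟨x, c⟩ hx ⟨y, c'⟩ hy h
      simp only [mem_coe, mem_product, mem_erase, mem_univ, and_true] at hx hy
      have hpd : S.pd x = S.pd y → x = y := by
        intro h5
        rw [← S.pd_tail x hx, ← S.pd_tail y hy, h5]
      cases c <;> cases c' <;> simp only [if_true, if_false, Bool.false_eq_true] at h
      · rw [hpd (M.α.injective h)]
      · exact absurd h.symm (hinj y x hy hx)
      · exact absurd h (hinj x y hx hy)
      · rw [hpd h]
  rw [Finset.card_product, Finset.card_erase_of_mem (mem_univ _), Finset.card_univ,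
    Finset.card_univ, Fintype.card_bool] at h1
  omega

lemma tree_alpha {d : D} (h : S.tree (M.α d)) : S.tree d := by
  obtain ⟨x, hx, h1 | h1⟩ := h
  · exact ⟨x, hx, Or.inr (by rw [← h1, M.invol])⟩
  · exact ⟨x, hx, Or.inl (M.α.injective h1)⟩

lemma card_non (S : BFS M) : 2 * ((univ.filter (fun d => ¬ S.tree d)).image
    (fun d => s(d, M.α d))).card ≤ (univ.filter (fun d => ¬ S.tree d)).card := by
  refine Finset.mul_card_image_le_card _ 2 ?_
  intro e he
  obtain ⟨d, hd, rfl⟩ := Finset.mem_image.1 he
  simp only [mem_filter, mem_univ, true_and] at hd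
  have h1 : ({d, M.α d} : Finset D).card = 2 := Finset.card_pair (M.nofix d).symm
  rw [← h1]
  refine Finset.card_le_card ?_
  intro f hf
  simp only [mem_insert, mem_singleton] at hf
  simp only [mem_filter, mem_univ, true_and]
  rcases hf with rfl | rfl
  · exact ⟨hd, rfl⟩
  · refine ⟨fun h => hd (tree_alpha h), ?_⟩
    rw [M.invol]
    exact Sym2.eq_swap

end Cnt64

open Cnt64 in
/-- MCOUNT -/
theorem stMCount : StMCount := by
  intro X D _ _ M S b
  obtain ⟨A, hA⟩ : ∃ A : Finset (Sym2 D), A = (univ.filter (fun d => b.base d ≠ d)).image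
      (fun d => s((M.σ * M.α).symm d, d)) := ⟨_, rfl⟩
  obtain ⟨B, hB⟩ : ∃ B : Finset (Sym2 D), B = (univ.filter (fun d => ¬ S.tree d)).image
      (fun d => s(d, M.α d)) := ⟨_, rfl⟩
  have hsub : (linkG S b).edgeSet ⊆ ((A ∪ B : Finset (Sym2 D)) : Set (Sym2 D)) := by
    intro e
    induction e using Sym2.ind with
    | _ d d' =>
      intro he
      rw [SimpleGraph.mem_edgeSet] at he
      obtain ⟨_, h1 | h1 | h1⟩ := he
      · rw [mem_coe, mem_union, hA]
        refine Or.inl (Finset.mem_image.2 ⟨d', by simpa using h1.2, ?_⟩)
        have h2 : (M.σ * M.α).symm d' = d := by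
          rw [Equiv.symm_apply_eq, h1.1]; rfl
        rw [h2]
      · rw [mem_coe, mem_union, hA]
        refine Or.inl (Finset.mem_image.2 ⟨d, by simpa using h1.2, ?_⟩)
        have h2 : (M.σ * M.α).symm d = d' := by
          rw [Equiv.symm_apply_eq]
          exact h1.1
        rw [h2]
        exact Sym2.eq_swap
      · rw [mem_coe, mem_union, hB]
        refine Or.inr (Finset.mem_image.2 ⟨d, by simpa using h1.2, ?_⟩)
        rw [h1.1]
  have h1 : Set.ncard (linkG S b).edgeSet ≤ (A ∪ B).card := by
    have := Set.ncard_le_ncard hsub (Finset.finite_toSet _)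
    rwa [Set.ncard_coe_finset] at this
  have h2 := Finset.card_union_le A B
  have h3 : A.card ≤ (univ.filter (fun d => b.base d ≠ d)).card := by
    rw [hA]; exact Finset.card_image_le
  have h4 : 2 * B.card ≤ (univ.filter (fun d => ¬ S.tree d)).card := by
    rw [hB]; exact card_non S
  have h5 := card_base b
  have h6 := card_tree S
  have h7 : (univ.filter (fun d => b.base d = d)).card +
      (univ.filter (fun d => b.base d ≠ d)).card = Fintype.card D := by
    have := Finset.card_filter_add_card_filter_not (s := (univ : Finset D))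
      (fun d => b.base d = d)
    rwa [Finset.card_univ] at this
  have h8 : (univ.filter (fun d => S.tree d)).card +
      (univ.filter (fun d => ¬ S.tree d)).card = Fintype.card D := by
    have := Finset.card_filter_add_card_filter_not (s := (univ : Finset D))
      (fun d => S.tree d)
    rwa [Finset.card_univ] at this
  have h9 := M.euler
  have h10 : 0 < Fintype.card X := Fintype.card_pos_iff.2 ⟨S.r⟩
  omega

end Pool.Agent.Lib.MP_1fca17_co.Q
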