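import Mathlib
import Pool.Agent.Lib.MP_1fca17_co.Q.Defs

/-!
# MP_1fca17_co : MAIN, k-planar graphs of bounded degree
-/

namespace Pool.Agent.Lib.MP_1fca17_co.Q

open Finset
open scoped Classical
open Pool.Agent.Lib.MP_1fca17_co (sg GenPos Btw LC MonoFam StCount StNum1)

noncomputable section

theorem exists_m92 (k Δ : ℕ) (hk : 1 ≤ k) (hpos : 1 ≤ Δ) : ∃ m : ℕ,
    48 * ((24 * (48 * (k + 1)) * Δ) * Δ + 4) ≤ m ^ 2 ∧
    ((16 * m : ℕ) : ℝ) ≤ 5400 * Δ * Real.sqrt k := by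
  obtain ⟨N, hN⟩ : ∃ N, N = 110784 * (k * Δ ^ 2) := ⟨_, rfl⟩
  obtain ⟨q, hq⟩ : ∃ q, q = Nat.sqrt N := ⟨_, rfl⟩
  have hq1 : N < (q + 1) ^ 2 := by rw [hq]; exact Nat.lt_succ_sqrt' N
  have hq2 : q ^ 2 ≤ N := by rw [hq]; exact Nat.sqrt_le' N
  refine ⟨q + 1, ?_, ?_⟩
  · have h1 : 1 * Δ ^ 2 ≤ k * Δ ^ 2 := Nat.mul_le_mul_right _ hk
    have h2 : 1 ≤ Δ ^ 2 := Nat.one_le_pow _ _ hpos
    have h3 : 48 * ((24 * (48 * (k + 1)) * Δ) * Δ + 4) =
        55296 * (k * Δ ^ 2) + 55296 * Δ ^ 2 + 192 := by ring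
    rw [h3]
    omega
  · have hs : (1 : ℝ) ≤ Real.sqrt k := by
      rw [Real.one_le_sqrt]; exact_mod_cast hk
    have hd : (1 : ℝ) ≤ Δ := by exact_mod_cast hpos
    have h10 : (1 : ℝ) ≤ Δ * Real.sqrt k := by nlinarith
    obtain ⟨t, ht⟩ : ∃ t : ℝ, t = Δ * Real.sqrt k := ⟨_, rfl⟩
    have h12 : t ^ 2 = k * (Δ : ℝ) ^ 2 := by
      rw [ht, mul_pow, Real.sq_sqrt (by positivity)]; ring
    have h5 : (q : ℝ) ≤ 333 * t := by
      have h6 : (q : ℝ) ^ 2 ≤ 110784 * (k * (Δ : ℝ) ^ 2) := by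
        have : ((q ^ 2 : ℕ) : ℝ) ≤ ((110784 * (k * Δ ^ 2) : ℕ) : ℝ) := by
          exact_mod_cast hq2.trans hN.le
        push_cast at this
        exact this
      have ht0 : 0 ≤ t := by rw [ht]; positivity
      rw [← h12] at h6
      by_contra hc
      push Not at hc
      nlinarith
    have h13 : 1 ≤ t := by rw [ht]; exact h10
    have h14 : 5400 * Δ * Real.sqrt k = 5400 * t := by rw [ht]; ring
    rw [h14]
    push_cast
    linarith

theorem stMain (hgp : StGP) (hasm : StAsm) (htp : StTP) (hsep : StSep) (hkpl : StKpl) :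
    StMain := by
  intro V _ k Δ hk G hG hΔ
  rcases Nat.eq_zero_or_pos Δ with rfl | hpos
  · -- no edges
    obtain ⟨P, hP, -⟩ := hgp V (fun v => ((Fintype.equivFin V v : ℕ) : ℝ)) (fun _ => 0) 1
      (by
        intro u v huv
        have h : ((Fintype.equivFin V u : ℕ) : ℝ) = ((Fintype.equivFin V v : ℕ) : ℝ) := huv
        exact (Fintype.equivFin V).injective (Fin.ext (by exact_mod_cast h))) one_pos
    refine ⟨P, hP, fun F hF _ => ?_⟩
    have hempty : F = ∅ := by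
      rw [Finset.eq_empty_iff_forall_notMem]
      intro e he
      have hE := hF e he
      induction e using Sym2.ind with
      | _ u v =>
        have huv : G.Adj u v := by simpa using hE
        have h0 : Set.ncard {x | G.Adj u x} = 0 := Nat.le_zero.1 (hΔ u)
        rw [Set.ncard_eq_zero (Set.toFinite _)] at h0
        have : v ∈ {x | G.Adj u x} := huv
        rw [h0] at this
        exact this
    rw [hempty]
    simp
  · obtain ⟨ℓ, hℓ, htd⟩ := hkpl V G k hG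
    obtain ⟨m, hm1, hm2⟩ := exists_m92 k Δ hk hpos
    obtain ⟨P, hP, hF⟩ := hasm V G ℓ (24 * (48 * (k + 1)) * Δ) Δ m hℓ hΔ hm1
      (fun j => htp V G _ (48 * (k + 1)) Δ (by omega) hpos hΔ
        (hsep V G _ (48 * (k + 1)) (htd j)))
    refine ⟨P, hP, fun F h1 h2 => ?_⟩
    have h3 := hF F h1 h2
    have h4 : (F.card : ℝ) ≤ ((16 * m : ℕ) : ℝ) := by exact_mod_cast h3
    exact h4.trans hm2

end

end Pool.Agent.Lib.MP_1fca17_co.Q
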