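import Mathlib
import Pool.Agent.Lib.MP_1fca17_co.Q.MapDefs

/-!
# MP_1fca17_co : MAP, the layered tree decomposition of a plane map
-/

namespace Pool.Agent.Lib.MP_1fca17_co.Q

open Finset
open scoped Classical

noncomputable section

namespace MapAux

variable {X D : Type} [Fintype X] [Fintype D] {M : PlaneMap X D}

theorem nonempty_darts (M : PlaneMap X D) : Nonempty D := by
  by_contra h
  rw [not_nonempty_iff] at h
  have : IsEmpty X := ⟨fun x => by
    obtain ⟨d, -⟩ := M.surj x
    exact h.elim d⟩
  have h1 : Fintype.card X = 0 := Fintype.card_eq_zero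
  have h2 : Fintype.card D = 0 := Fintype.card_eq_zero
  have : IsEmpty (Quotient (Equiv.Perm.SameCycle.setoid (M.σ * M.α))) :=
    ⟨fun q => Quotient.inductionOn q fun d => h.elim d⟩
  have h3 : Nat.card (Quotient (Equiv.Perm.SameCycle.setoid (M.σ * M.α))) = 0 :=
    Nat.card_of_isEmpty
  have := M.euler
  rw [h1, h2, h3] at this
  omega

theorem on_root (S : BFS M) : ∀ (n : ℕ) (y : X), S.dist y = n → S.On S.r y := by
  intro n
  induction n with
  | zero =>
    intro y hy
    by_cases h : y = S.r
    · subst h
      exact Relation.ReflTransGen.refl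
    · have := S.pd_head y h
      omega
  | succ n ih =>
    intro y hy
    by_cases h : y = S.r
    · rw [h]
      exact Relation.ReflTransGen.refl
    · have h1 := S.pd_head y h
      have h2 : S.On S.r (S.up y) := ih (S.up y) (by
        change S.dist (M.vert (M.α (S.pd y))) = n
        omega)
      exact Relation.ReflTransGen.head ⟨h, rfl⟩ h2

end MapAux

open MapAux in
/-- MAP -/
theorem stMap (hb : StBfs) (hba : StBase) (hc : StMConn) (hn : StMCount) (hg : StMBag) :
    StMap := by
  intro X D _ _ M
  obtain ⟨S⟩ := hb X D M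
  obtain ⟨b⟩ := hba X D M
  refine ⟨S.dist, linkG S b, bagD S b, S.lip, ?_, hn X D M S b, ?_, hg X D M S b, ?_⟩
  · have := nonempty_darts M
    refine ⟨fun d d' => ?_⟩
    have hr : ∀ e, S.r ∈ bagD S b e := by
      intro e
      unfold bagD
      rw [Finset.mem_filter]
      exact ⟨mem_univ _, Or.inl (on_root S _ _ rfl)⟩
    have h := hc X D M S b S.r d d' (hr d) (hr d')
    induction h with
    | refl => exact SimpleGraph.Reachable.refl _
    | tail _ h2 ih => exact ih.trans h2.2.2.reachable
  · intro d
    unfold bagD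
    rw [Finset.mem_filter, Finset.mem_filter]
    exact ⟨⟨mem_univ _, Or.inl Relation.ReflTransGen.refl⟩,
      ⟨mem_univ _, Or.inr (Or.inl Relation.ReflTransGen.refl)⟩⟩
  · intro x d d' h1 h2
    exact hc X D M S b x d d' h1 h2

end

end Pool.Agent.Lib.MP_1fca17_co.Q
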