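import Pool.Agent.Lib.MP_1fca17_co.Q.Defs

/-!
# MP_1fca17_co : row RK, properties of the rank (helper5)
-/

namespace Pool.Agent.Lib.MP_1fca17_co.Q

open Finset
open scoped Classical

theorem stRk : StRk := by
  intro b hb
  have hpos : ∀ l, 0 < rk b l := by
    intro l
    induction l with
    | nil => simp [rk]
    | cons x l ih =>
      simp only [rk]
      have : 0 < rk b l * b := Nat.mul_pos ih (by omega)
      omega
  refine ⟨?_, ?_, ?_⟩
  · intro l x
    simp only [rk]
    have := hpos l
    nlinarith
  · intro l l' x x' hx _ h
    simp only [rk]
    nlinarith
  · intro l
    induction l with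
    | nil =>
      intro l' _ hl' h
      cases l' with
      | nil => rfl
      | cons x l =>
        simp only [rk] at h
        have := hpos l
        nlinarith
    | cons x l ih =>
      intro l' hl hl' h
      cases l' with
      | nil =>
        simp only [rk] at h
        have := hpos l
        nlinarith
      | cons x' l' =>
        simp only [rk] at h
        have hx : x < b := hl x (by simp)
        have hx' : x' < b := hl' x' (by simp)
        have h1 : rk b l = rk b l' := by
          have e1 : (rk b l * b + x) / b = rk b l := by
            rw [Nat.mul_comm, Nat.mul_add_div (by omega), Nat.div_eq_of_lt hx, Nat.add_zero]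
          have e2 : (rk b l' * b + x') / b = rk b l' := by
            rw [Nat.mul_comm, Nat.mul_add_div (by omega), Nat.div_eq_of_lt hx', Nat.add_zero]
          rw [← e1, ← e2, h]
        have h2 : l = l' := ih l' (fun y hy => hl y (by simp [hy])) (fun y hy => hl' y (by simp [hy])) h1
        subst h2
        have h3 : x = x' := by omega
        rw [h3]

end Pool.Agent.Lib.MP_1fca17_co.Q
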