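import Mathlib
import Pool.Agent.Lib.MP_1fca17_co.Q.Defs

/-!
# MP_1fca17_co : separators from rooted tree decompositions (row SEP)
-/

namespace Pool.Agent.Lib.MP_1fca17_co.Q

open Finset
open scoped Classical

noncomputable section

namespace SepRow

/-- grouping of classes of weight at most `n / 2` -/
theorem group {V K : Type} (cl : V → K) (S' : Finset V) (n : ℕ) (hn : S'.card ≤ n)
    (hc : ∀ c, 2 * (S'.filter (fun v => cl v = c)).card ≤ n) :
    ∃ Q : Finset K, 3 * (S'.filter (fun v => cl v ∈ Q)).card ≤ 2 * n ∧
      3 * (S'.filter (fun v => ¬ cl v ∈ Q)).card ≤ 2 * n := by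
  by_cases h : ∃ c, n < 3 * (S'.filter (fun v => cl v = c)).card
  · obtain ⟨c, hc'⟩ := h
    refine ⟨{c}, ?_, ?_⟩
    · simp only [mem_singleton]
      have := hc c
      omega
    · simp only [mem_singleton]
      have := card_filter_add_card_filter_not (s := S') (fun v => cl v = c)
      omega
  · push Not at h
    obtain ⟨Q, hQ, hmax⟩ := exists_max_image ((S'.image cl).powerset.filter
      (fun Q => 3 * (S'.filter (fun v => cl v ∈ Q)).card ≤ 2 * n)) (fun Q => Q.card)
      ⟨∅, by simp⟩
    rw [mem_filter, mem_powerset] at hQ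
    refine ⟨Q, hQ.2, ?_⟩
    by_contra h3
    push Not at h3
    have h4 : (S'.filter (fun v => ¬ cl v ∈ Q)).Nonempty := by
      rw [← card_pos]
      omega
    obtain ⟨v, hv⟩ := h4
    rw [mem_filter] at hv
    have h5 : (S'.filter (fun u => cl u ∈ insert (cl v) Q)).card =
        (S'.filter (fun u => cl u ∈ Q)).card + (S'.filter (fun u => cl u = cl v)).card := by
      rw [← card_union_of_disjoint]
      · congr 1
        ext u
        simp only [mem_filter, mem_union, mem_insert]
        tauto
      · rw [disjoint_filter]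
        intro u _ hu hu'
        exact hv.2 (hu' ▸ hu)
    have h6 := h (cl v)
    have h9 := card_filter_add_card_filter_not (s := S') (fun v => cl v ∈ Q)
    have h7 : 3 * (S'.filter (fun u => cl u ∈ insert (cl v) Q)).card ≤ 2 * n := by
      rw [h5]
      omega
    have h8 := hmax (insert (cl v) Q) (by
      rw [mem_filter, mem_powerset]
      exact ⟨insert_subset (mem_image_of_mem _ hv.1) hQ.1, h7⟩)
    rw [card_insert_of_notMem hv.2] at h8
    omega

variable {I : Type} (par : I → I) (dep : I → ℕ) (B : Set I)

/-- `j` lies below `i` -/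
def Below (j i : I) : Prop := Relation.ReflTransGen (fun a c => dep a ≠ 0 ∧ par a = c) j i

/-- the highest node that one reaches from `j` without meeting `B`, with fuel -/
def topN : ℕ → I → I
  | 0, j => j
  | n + 1, j => if dep j = 0 ∨ par j ∈ B then j else topN n (par j)

/-- the highest node that one reaches from `j` without meeting `B` -/
def top (j : I) : I := topN par dep B (dep j) j

variable {par dep B}

theorem top_stop {j : I} (h : dep j = 0 ∨ par j ∈ B) : top par dep B j = j := by
  unfold top
  rcases hd : dep j with _ | n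
  · rfl
  · simp only [topN, if_pos h]

theorem top_par (hdep : ∀ i, dep i ≠ 0 → dep (par i) + 1 = dep i) {j : I} (h : dep j ≠ 0)
    (hB : par j ∉ B) : top par dep B j = top par dep B (par j) := by
  unfold top
  rw [← hdep j h]
  have : ¬ (dep j = 0 ∨ par j ∈ B) := by
    rintro (h1 | h1)
    · exact h h1
    · exact hB h1
  simp only [topN, if_neg this]

/-- induction on the depth -/
theorem below_top (hdep : ∀ i, dep i ≠ 0 → dep (par i) + 1 = dep i) (j : I) :
    Below par dep j (top par dep B j) ∧
      (dep (top par dep B j) = 0 ∨ par (top par dep B j) ∈ B) := by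
  have H : ∀ (n : ℕ) (j : I), dep j = n → Below par dep j (top par dep B j) ∧
      (dep (top par dep B j) = 0 ∨ par (top par dep B j) ∈ B) := by
    intro n
    induction n with
    | zero =>
      intro j hj
      rw [top_stop (Or.inl hj)]
      exact ⟨Relation.ReflTransGen.refl, Or.inl hj⟩
    | succ n ih =>
      intro j hj
      by_cases h : par j ∈ B
      · rw [top_stop (Or.inr h)]
        exact ⟨Relation.ReflTransGen.refl, Or.inr h⟩
      · have h1 : dep j ≠ 0 := by omega
        have h2 := hdep j h1
        rw [top_par hdep h1 h]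
        obtain ⟨h3, h4⟩ := ih (par j) (by omega)
        exact ⟨Relation.ReflTransGen.head ⟨h1, rfl⟩ h3, h4⟩
  exact H _ j rfl

theorem top_child (hdep : ∀ i, dep i ≠ 0 → dep (par i) + 1 = dep i) {b : I} {j : I}
    (hj : Below par dep j b) (hb : j ≠ b) : dep (top par dep {b} j) ≠ 0 := by
  have H : ∀ (n : ℕ) (j : I), dep j = n → Below par dep j b → j ≠ b →
      dep (top par dep {b} j) ≠ 0 := by
    intro n
    induction n with
    | zero =>
      intro j hj h1 h2
      rcases Relation.ReflTransGen.cases_head h1 with h3 | ⟨c, ⟨h3, _⟩, _⟩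
      · exact absurd h3 h2
      · exact absurd hj h3
    | succ n ih =>
      intro j hj h1 h2
      have h5 : dep j ≠ 0 := by omega
      by_cases h : par j = b
      · rw [top_stop (Or.inr h)]
        exact h5
      · rw [top_par hdep h5 h]
        have h6 := hdep j h5
        rcases Relation.ReflTransGen.cases_head h1 with h3 | ⟨c, ⟨_, h3⟩, h4⟩
        · exact absurd h3 h2
        · rw [← h3] at h4
          exact ih (par j) (by omega) h4 h
  exact H _ j rfl hj hb

/-- all the nodes whose bag contains `v` have the same top, if `v` is in no bag of `B` -/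
theorem top_bag {V : Type} (hdep : ∀ i, dep i ≠ 0 → dep (par i) + 1 = dep i)
    {bag : I → Finset V} {v : V} {t : I}
    (ht : ∀ i, v ∈ bag i → i ≠ t → dep i ≠ 0 ∧ v ∈ bag (par i)) (hB : ∀ b ∈ B, v ∉ bag b)
    (i : I) (hi : v ∈ bag i) : top par dep B i = top par dep B t := by
  have H : ∀ (n : ℕ) (i : I), dep i = n → v ∈ bag i → top par dep B i = top par dep B t := by
    intro n
    induction n with
    | zero =>
      intro i hi hv
      by_cases h : i = t
      · rw [h]
      · exact absurd hi (ht i hv h).1
    | succ n ih =>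
      intro i hi hv
      by_cases h : i = t
      · rw [h]
      · obtain ⟨h1, h2⟩ := ht i hv h
        rw [top_par hdep h1 (fun h3 => hB _ h3 h2)]
        have := hdep i h1
        exact ih _ (by omega) h2
  exact H _ i rfl hi

/-- the end of the proof for a given separator -/
theorem finish {V : Type} {w : ℕ} {G : SimpleGraph V} {W : Finset V}
    (hdep : ∀ i, dep i ≠ 0 → dep (par i) + 1 = dep i) {bag : I → Finset V} {t : V → I}
    (ht : ∀ v ∈ W, v ∈ bag (t v) ∧ ∀ i, v ∈ bag i → i ≠ t v → dep i ≠ 0 ∧ v ∈ bag (par i))
    (hadj : ∀ u ∈ W, ∀ v ∈ W, G.Adj u v → ∃ i, u ∈ bag i ∧ v ∈ bag i)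
    {U S X : Finset V} (hU : U ⊆ W) (_hS : S ⊆ U) (hX : ∀ v, v ∈ X ↔ v ∈ U ∧ ∃ b ∈ B, v ∈ bag b)
    (hXc : X.card ≤ w)
    (hwt : ∀ c, 2 * ((S \ X).filter (fun v => top par dep B (t v) = c)).card ≤ S.card) :
    ∃ X A B : Finset V, X ∪ A ∪ B = U ∧ Disjoint X A ∧ Disjoint X B ∧
      Disjoint A B ∧ X.card ≤ w ∧ (∀ a ∈ A, ∀ b ∈ B, ¬ G.Adj a b) ∧
      3 * (S ∩ A).card ≤ 2 * S.card ∧ 3 * (S ∩ B).card ≤ 2 * S.card := by
  obtain ⟨Q, hQ1, hQ2⟩ := group (fun v => top par dep B (t v)) (S \ X) S.card
    (card_le_card sdiff_subset) hwt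
  have hXU : X ⊆ U := fun v hv => ((hX v).1 hv).1
  refine ⟨X, (U \ X).filter (fun v => top par dep B (t v) ∈ Q),
    (U \ X).filter (fun v => ¬ top par dep B (t v) ∈ Q), ?_, ?_, ?_, ?_, hXc, ?_, ?_, ?_⟩
  · rw [union_assoc, filter_union_filter_not_eq]
    exact union_sdiff_of_subset hXU
  · exact disjoint_sdiff.mono_right (filter_subset _ _)
  · exact disjoint_sdiff.mono_right (filter_subset _ _)
  · exact disjoint_filter_filter_not _ _ _
  · intro u hu v hv huv
    rw [mem_filter, mem_sdiff] at hu hv
    obtain ⟨i, hui, hvi⟩ := hadj u (hU hu.1.1) v (hU hv.1.1) huv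
    have e1 := top_bag hdep (ht u (hU hu.1.1)).2
      (fun b hb h => hu.1.2 ((hX u).2 ⟨hu.1.1, b, hb, h⟩)) i hui
    have e2 := top_bag hdep (ht v (hU hv.1.1)).2
      (fun b hb h => hv.1.2 ((hX v).2 ⟨hv.1.1, b, hb, h⟩)) i hvi
    apply hv.2
    rw [← e2, e1]
    exact hu.2
  · refine le_trans (Nat.mul_le_mul_left 3 (card_le_card ?_)) hQ1
    intro v hv
    rw [mem_inter, mem_filter, mem_sdiff] at hv
    rw [mem_filter, mem_sdiff]
    exact ⟨⟨hv.1, hv.2.1.2⟩, hv.2.2⟩
  · refine le_trans (Nat.mul_le_mul_left 3 (card_le_card ?_)) hQ2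
    intro v hv
    rw [mem_inter, mem_filter, mem_sdiff] at hv
    rw [mem_filter, mem_sdiff]
    exact ⟨⟨hv.1, hv.2.1.2⟩, hv.2.2⟩

end SepRow

open SepRow in
theorem stSep : StSep := by
  intro V _ G W w hTD U hU S hS
  obtain ⟨I, _, par, dep, bag, hdep, htop, hadj, hw⟩ := hTD
  rcases isEmpty_or_nonempty I with hI | hI
  · have hW : ∀ v, v ∉ W := fun v hv => hI.false (htop v hv).choose
    have hU0 : U = ∅ := eq_empty_of_forall_notMem fun v hv => hW v (hU hv)
    exact ⟨∅, ∅, ∅, by simp [hU0], by simp, by simp, by simp, by simp, by simp, by simp, by simp⟩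
  have ht' : ∀ v : V, ∃ t : I, v ∈ W →
      (v ∈ bag t ∧ ∀ i, v ∈ bag i → i ≠ t → dep i ≠ 0 ∧ v ∈ bag (par i)) := by
    intro v
    by_cases hv : v ∈ W
    · obtain ⟨t, h1, h2⟩ := htop v hv
      exact ⟨t, fun _ => ⟨h1, h2⟩⟩
    · exact ⟨hI.some, fun h => absurd h hv⟩
  choose t ht using ht'
  by_cases hb : ∃ b, S.card < 2 * (S.filter (fun v => Below par dep (t v) b)).card
  · obtain ⟨b, hb1, hb2⟩ := exists_max_image (univ.filter
      (fun b => S.card < 2 * (S.filter (fun v => Below par dep (t v) b)).card)) dep (by
        obtain ⟨b, hb⟩ := hb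
        exact ⟨b, by rw [mem_filter]; exact ⟨mem_univ _, hb⟩⟩)
    rw [mem_filter] at hb1
    refine finish (B := {b}) (X := U ∩ bag b) hdep ht hadj hU hS ?_ ?_ ?_
    · intro v
      rw [mem_inter]
      simp
    · exact (card_le_card inter_subset_right).trans (hw b)
    · intro c
      by_cases hne : ((S \ (U ∩ bag b)).filter (fun v => top par dep {b} (t v) = c)).Nonempty
      · obtain ⟨v0, hv0⟩ := hne
        rw [mem_filter] at hv0
        have h1 := below_top (B := {b}) hdep (t v0)
        rw [hv0.2] at h1
        rcases Nat.eq_zero_or_pos (dep c) with h0 | h0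
        · -- a root
          have h2 : ((S \ (U ∩ bag b)).filter (fun v => top par dep {b} (t v) = c)) ⊆
              S.filter (fun v => ¬ Below par dep (t v) b) := by
            intro v hv
            rw [mem_filter, mem_sdiff, mem_inter] at hv
            rw [mem_filter]
            refine ⟨hv.1.1, fun h3 => ?_⟩
            have h4 : t v ≠ b := by
              intro h5
              apply hv.1.2
              refine ⟨hS hv.1.1, ?_⟩
              rw [← h5]
              exact (ht v (hU (hS hv.1.1))).1
            apply top_child hdep h3 h4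
            rw [hv.2]
            exact h0
          have h3 := card_le_card h2
          have h4 := card_filter_add_card_filter_not (s := S) (fun v => Below par dep (t v) b)
          have h5 := hb1.2
          omega
        · -- a child of `b`
          have h2 : par c = b := by
            rcases h1.2 with h3 | h3
            · omega
            · exact h3
          have h3 := hdep c (by omega)
          rw [h2] at h3
          have h4 : ((S \ (U ∩ bag b)).filter (fun v => top par dep {b} (t v) = c)) ⊆
              S.filter (fun v => Below par dep (t v) c) := by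
            intro v hv
            rw [mem_filter, mem_sdiff] at hv
            rw [mem_filter]
            refine ⟨hv.1.1, ?_⟩
            have := (below_top (B := {b}) hdep (t v)).1
            rwa [hv.2] at this
          have h5 := card_le_card h4
          by_contra h6
          have h7 := hb2 c (by
            rw [mem_filter]
            exact ⟨mem_univ _, by omega⟩)
          omega
      · rw [not_nonempty_iff_eq_empty] at hne
        rw [hne, card_empty]
        omega
  · push Not at hb
    refine finish (B := ∅) (X := ∅) hdep ht hadj hU hS ?_ ?_ ?_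
    · intro v
      simp
    · simp
    · intro c
      have h4 : ((S \ ∅).filter (fun v => top par dep ∅ (t v) = c)) ⊆
          S.filter (fun v => Below par dep (t v) c) := by
        intro v hv
        rw [mem_filter, mem_sdiff] at hv
        rw [mem_filter]
        refine ⟨hv.1.1, ?_⟩
        have := (below_top (B := ∅) hdep (t v)).1
        rwa [hv.2] at this
      have h5 := card_le_card h4
      have h6 := hb c
      omega

end

end Pool.Agent.Lib.MP_1fca17_co.Q
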