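import Mathlib
import Pool.Agent.Lib.MP_1fca17_co.Q.Defs

/-!
# MP_1fca17_co : tree partitions of graphs of bounded degree with small separators (row TP)
-/

namespace Pool.Agent.Lib.MP_1fca17_co.Q

open Finset
open scoped Classical

noncomputable section

namespace TpRow

theorem rel_refl (l : List ℕ) : Rel l l := Or.inl rfl

theorem rel_symm {l l' : List ℕ} (h : Rel l l') : Rel l' l := by
  rcases h with h | h | h
  · exact Or.inl h.symm
  · exact Or.inr (Or.inr h)
  · exact Or.inr (Or.inl h)

theorem rel_append {l l' : List ℕ} (r : List ℕ) (h : Rel l l') : Rel (l ++ r) (l' ++ r) := by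
  rcases h with h | ⟨x, h⟩ | ⟨x, h⟩
  · exact Or.inl (by rw [h])
  · exact Or.inr (Or.inl ⟨x, by rw [h]; rfl⟩)
  · exact Or.inr (Or.inr ⟨x, by rw [h]; rfl⟩)

theorem rel_map {l l' : List ℕ} (f : ℕ → ℕ) (h : Rel l l') : Rel (l.map f) (l'.map f) := by
  rcases h with h | ⟨x, h⟩ | ⟨x, h⟩
  · exact Or.inl (by rw [h])
  · exact Or.inr (Or.inl ⟨f x, by rw [h]; rfl⟩)
  · exact Or.inr (Or.inr ⟨f x, by rw [h]; rfl⟩)

variable {V : Type} [Fintype V] (G : SimpleGraph V)

/-- the conclusion of the induction for `U`, `S` -/
def Good (w Δ : ℕ) (U S : Finset V) : Prop :=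
  ∃ a : V → List ℕ, (∀ u ∈ U, ∀ v ∈ U, G.Adj u v → Rel (a u) (a v)) ∧
    (∀ l, (U.filter (fun v => a v = l)).card ≤ 24 * w * Δ) ∧ (∀ v ∈ S, a v = []) ∧
    (U.filter (fun v => a v = [])).card + 3 * w ≤ 2 * S.card

variable {G}

/-- case 1: few vertices outside `S` -/
theorem case1 {w Δ : ℕ} {U S : Finset V} (_hSU : S ⊆ U) (h1 : 4 * w ≤ S.card)
    (h2 : S.card ≤ 12 * w * Δ) (h3 : (U \ S).card ≤ 24 * w * Δ) : Good G w Δ U S := by
  refine ⟨fun v => if v ∈ S then [] else [0], ?_, ?_, ?_, ?_⟩
  · intro u _ v _ _
    by_cases hu : u ∈ S <;> by_cases hv : v ∈ S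
    · simp only [hu, hv, if_true]; exact rel_refl _
    · simp only [hu, hv, if_true, if_false]; exact Or.inr (Or.inl ⟨0, rfl⟩)
    · simp only [hu, hv, if_true, if_false]; exact Or.inr (Or.inr ⟨0, rfl⟩)
    · simp only [hu, hv, if_false]; exact rel_refl _
  · intro l
    beta_reduce
    by_cases hl : l = []
    · have : U.filter (fun v => (if v ∈ S then [] else [0] : List ℕ) = l) ⊆ S := by
        intro v hv
        rw [mem_filter] at hv
        by_contra hvS
        rw [if_neg hvS, hl] at hv
        exact absurd hv.2 (by simp)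
      have h4 := card_le_card this
      have h5 : 12 * w * Δ ≤ 24 * w * Δ := by
        apply Nat.mul_le_mul_right
        omega
      omega
    · have : U.filter (fun v => (if v ∈ S then [] else [0] : List ℕ) = l) ⊆ U \ S := by
        intro v hv
        rw [mem_filter] at hv
        rw [mem_sdiff]
        refine ⟨hv.1, fun hvS => ?_⟩
        rw [if_pos hvS] at hv
        exact hl hv.2.symm
      exact (card_le_card this).trans h3
  · intro v hv
    simp only [hv, if_true]
  · beta_reduce
    have : U.filter (fun v => (if v ∈ S then [] else [0] : List ℕ) = []) ⊆ S := by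
      intro v hv
      rw [mem_filter] at hv
      by_contra hvS
      rw [if_neg hvS] at hv
      exact absurd hv.2 (by simp)
    have h4 := card_le_card this
    omega

/-- the neighbours of a set -/
theorem nb_card {Δ : ℕ} (hd : DegLE Δ G) (S : Finset V) :
    (univ.filter (fun v => ∃ u ∈ S, G.Adj u v)).card ≤ S.card * Δ := by
  have h1 : univ.filter (fun v => ∃ u ∈ S, G.Adj u v) ⊆
      S.biUnion (fun u => univ.filter (fun v => G.Adj u v)) := by
    intro v hv
    rw [mem_filter] at hv
    obtain ⟨_, u, hu, huv⟩ := hv
    rw [mem_biUnion]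
    exact ⟨u, hu, by rw [mem_filter]; exact ⟨mem_univ _, huv⟩⟩
  refine (card_le_card h1).trans ?_
  refine card_biUnion_le_card_mul _ _ _ ?_
  intro u _
  have h2 := hd u
  rw [← Set.ncard_coe_finset] 
  refine le_trans (le_of_eq ?_) h2
  congr 1
  ext v
  simp

/-- case 2: `S` is small -/
theorem case2 {w Δ : ℕ} (hΔ : 1 ≤ Δ) (hd : DegLE Δ G) {U S : Finset V} (hSU : S ⊆ U)
    (h1 : 4 * w ≤ S.card) (h2 : S.card ≤ 12 * w) (h3 : 24 * w * Δ < (U \ S).card)
    (ih : ∀ N ⊆ U \ S, 4 * w ≤ N.card → N.card ≤ 12 * w * Δ → Good G w Δ (U \ S) N) :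
    Good G w Δ U S := by
  have hw12 : 12 * w ≤ 12 * w * Δ := Nat.le_mul_of_pos_right _ hΔ
  have hw4 : 4 * w ≤ 12 * w * Δ := by omega
  have hw24 : 12 * w * Δ ≤ 24 * w * Δ := by
    apply Nat.mul_le_mul_right
    omega
  set N0 := (U \ S).filter (fun v => ∃ u ∈ S, G.Adj u v) with hN0
  have hN0c : N0.card ≤ 12 * w * Δ := by
    have h4 : N0 ⊆ univ.filter (fun v => ∃ u ∈ S, G.Adj u v) := by
      intro v hv
      rw [hN0, mem_filter] at hv
      rw [mem_filter]
      exact ⟨mem_univ _, hv.2⟩
    exact ((card_le_card h4).trans (nb_card hd S)).trans (Nat.mul_le_mul_right _ h2)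
  obtain ⟨N, hN1, hN2, hN3⟩ := exists_subsuperset_card_eq (s := N0) (t := U \ S)
    (n := max N0.card (4 * w)) (filter_subset _ _) (le_max_left _ _)
    (max_le (by omega) (by omega))
  obtain ⟨a, ha1, ha2, ha3, ha4⟩ := ih N hN2 (by rw [hN3]; exact le_max_right _ _)
    (by rw [hN3]; exact max_le hN0c hw4)
  have hroot : U.filter (fun v => (if v ∈ S then [] else a v ++ [0] : List ℕ) = []) ⊆ S := by
    intro v hv
    rw [mem_filter] at hv
    by_contra hvS
    rw [if_neg hvS] at hv
    exact absurd hv.2 (by simp)
  refine ⟨fun v => if v ∈ S then [] else a v ++ [0], ?_, ?_, ?_, ?_⟩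
  · have key : ∀ u ∈ U, ∀ v ∈ U, G.Adj u v → u ∈ S → v ∉ S → Rel [] (a v ++ [0]) := by
      intro u hu v hv huv huS hvS
      have hvN : v ∈ N := by
        apply hN1
        rw [hN0, mem_filter]
        exact ⟨by rw [mem_sdiff]; exact ⟨hv, hvS⟩, u, huS, huv⟩
      rw [ha3 v hvN]
      exact Or.inr (Or.inl ⟨0, rfl⟩)
    intro u hu v hv huv
    by_cases huS : u ∈ S <;> by_cases hvS : v ∈ S
    · simp only [huS, hvS, if_true]; exact rel_refl _
    · simp only [huS, hvS, if_true, if_false]; exact key u hu v hv huv huS hvS
    · simp only [huS, hvS, if_true, if_false]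
      exact rel_symm (key v hv u hu huv.symm hvS huS)
    · simp only [huS, hvS, if_false]
      exact rel_append _ (ha1 u (by rw [mem_sdiff]; exact ⟨hu, huS⟩) v
        (by rw [mem_sdiff]; exact ⟨hv, hvS⟩) huv)
  · intro l
    beta_reduce
    by_cases hl : l = []
    · rw [hl]
      have := card_le_card hroot
      omega
    · rcases List.eq_nil_or_concat l with h | ⟨l', x, h⟩
      · exact absurd h hl
      · refine le_trans (card_le_card ?_) (ha2 l')
        intro v hv
        rw [mem_filter] at hv
        obtain ⟨hvU, hv⟩ := hv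
        by_cases hvS : v ∈ S
        · rw [if_pos hvS] at hv
          exact absurd hv.symm hl
        · rw [if_neg hvS, h, List.concat_eq_append] at hv
          rw [mem_filter, mem_sdiff]
          refine ⟨⟨hvU, hvS⟩, ?_⟩
          exact (List.append_inj' hv rfl).1
  · intro v hv
    simp only [hv, if_true]
  · beta_reduce
    have := card_le_card hroot
    omega

/-- case 3: `S` is large -/
theorem case3 {w Δ : ℕ} (hΔ : 1 ≤ Δ) {U S X A C : Finset V} (hSU : S ⊆ U)
    (h1 : 12 * w < S.card) (h2 : S.card ≤ 12 * w * Δ) (hU : X ∪ A ∪ C = U) (hXA : Disjoint X A)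
    (hXC : Disjoint X C) (hAC : Disjoint A C) (hX : X.card ≤ w)
    (hAdj : ∀ a ∈ A, ∀ c ∈ C, ¬ G.Adj a c) (hA : 3 * (S ∩ A).card ≤ 2 * S.card)
    (hC : 3 * (S ∩ C).card ≤ 2 * S.card)
    (ih : ∀ U', U'.card < U.card → U' ⊆ U → ∀ N ⊆ U', 4 * w ≤ N.card → N.card ≤ 12 * w * Δ →
      Good G w Δ U' N) : Good G w Δ U S := by
  -- cardinalities
  have hS : S.card = (S ∩ X).card + (S ∩ A).card + (S ∩ C).card := by
    have e1 : S = ((S ∩ X) ∪ (S ∩ A)) ∪ (S ∩ C) := by
      rw [← inter_union_distrib_left, ← inter_union_distrib_left, hU]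
      exact (inter_eq_left.2 hSU).symm
    have d1 : Disjoint (S ∩ X) (S ∩ A) := hXA.mono inter_subset_right inter_subset_right
    have d2 : Disjoint ((S ∩ X) ∪ (S ∩ A)) (S ∩ C) := by
      rw [disjoint_union_left]
      exact ⟨hXC.mono inter_subset_right inter_subset_right,
        hAC.mono inter_subset_right inter_subset_right⟩
    calc S.card = (((S ∩ X) ∪ (S ∩ A)) ∪ (S ∩ C)).card := by rw [← e1]
      _ = _ := by rw [card_union_of_disjoint d2, card_union_of_disjoint d1]
  have hSX : (S ∩ X).card ≤ X.card := card_le_card inter_subset_right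
  have hUc : U.card = X.card + A.card + C.card := by
    rw [← hU, card_union_of_disjoint, card_union_of_disjoint hXA]
    rw [disjoint_union_left]
    exact ⟨hXC, hAC⟩
  have hAc : (S ∩ A).card ≤ A.card := card_le_card inter_subset_right
  have hCc : (S ∩ C).card ≤ C.card := card_le_card inter_subset_right
  have hXU : X ⊆ U := by rw [← hU]; exact subset_union_left.trans subset_union_left
  have hAU : A ⊆ U := by rw [← hU]; exact subset_union_right.trans subset_union_left
  have hCU : C ⊆ U := by rw [← hU]; exact subset_union_right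
  have c1 : ((S ∩ A) ∪ X).card = (S ∩ A).card + X.card :=
    card_union_of_disjoint (hXA.symm.mono_left inter_subset_right)
  have c2 : ((S ∩ C) ∪ X).card = (S ∩ C).card + X.card :=
    card_union_of_disjoint (hXC.symm.mono_left inter_subset_right)
  have u1 : (X ∪ A).card = X.card + A.card := card_union_of_disjoint hXA
  have u2 : (X ∪ C).card = X.card + C.card := card_union_of_disjoint hXC
  obtain ⟨a1, ha1, hb1, hc1, hd1⟩ := ih (X ∪ A) (by omega) (union_subset hXU hAU)
    ((S ∩ A) ∪ X) (union_subset (inter_subset_right.trans subset_union_right) subset_union_left)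
    (by omega) (by omega)
  obtain ⟨a2, ha2, hb2, hc2, hd2⟩ := ih (X ∪ C) (by omega) (union_subset hXU hCU)
    ((S ∩ C) ∪ X) (union_subset (inter_subset_right.trans subset_union_right) subset_union_left)
    (by omega) (by omega)
  have hX1 : ∀ v ∈ X, a1 v = [] := fun v hv => hc1 v (mem_union_right _ hv)
  have hX2 : ∀ v ∈ X, a2 v = [] := fun v hv => hc2 v (mem_union_right _ hv)
  set a : V → List ℕ := fun v => if v ∈ X ∪ A then List.map (fun t => 2 * t) (a1 v)
    else List.map (fun t => 2 * t + 1) (a2 v) with ha
  have hav1 : ∀ v ∈ X ∪ A, a v = List.map (fun t => 2 * t) (a1 v) := fun v hv => by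
    simp only [ha, if_pos hv]
  have hav2 : ∀ v ∈ X ∪ C, a v = List.map (fun t => 2 * t + 1) (a2 v) := fun v hv => by
    by_cases hvX : v ∈ X
    · rw [hav1 v (mem_union_left _ hvX), hX1 v hvX, hX2 v hvX]
      rfl
    · have hvC : v ∈ C := (mem_union.1 hv).resolve_left hvX
      have : v ∉ X ∪ A := by
        rw [mem_union]
        rintro (h | h)
        · exact hvX h
        · exact (disjoint_left.1 hAC h) hvC
      simp only [ha, if_neg this]
  have inj1 : Function.Injective (fun t : ℕ => 2 * t) := fun x y h => by
    simp only at h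
    omega
  have inj2 : Function.Injective (fun t : ℕ => 2 * t + 1) := fun x y h => by
    simp only at h
    omega
  have hroot : (U.filter (fun v => a v = [])).card + 3 * w ≤ 2 * S.card := by
    have e1 : U.filter (fun v => a v = []) ⊆ ((X ∪ A).filter (fun v => a1 v = [])) ∪
        ((X ∪ C).filter (fun v => a2 v = []) \ X) := by
      intro v hv
      rw [mem_filter] at hv
      obtain ⟨hvU, hv⟩ := hv
      by_cases hvA : v ∈ X ∪ A
      · rw [hav1 v hvA, List.map_eq_nil_iff] at hv
        exact mem_union_left _ (mem_filter.2 ⟨hvA, hv⟩)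
      · have hvC : v ∈ X ∪ C := by
          rw [← hU] at hvU
          rcases mem_union.1 hvU with h | h
          · exact absurd h hvA
          · exact mem_union_right _ h
        rw [hav2 v hvC, List.map_eq_nil_iff] at hv
        apply mem_union_right
        rw [mem_sdiff, mem_filter]
        exact ⟨⟨hvC, hv⟩, fun h => hvA (mem_union_left _ h)⟩
    have e2 : X ⊆ (X ∪ C).filter (fun v => a2 v = []) := by
      intro v hv
      rw [mem_filter]
      exact ⟨mem_union_left _ hv, hX2 v hv⟩
    have e3 := card_le_card e1
    have e4 := card_union_le ((X ∪ A).filter (fun v => a1 v = []))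
      ((X ∪ C).filter (fun v => a2 v = []) \ X)
    rw [card_sdiff_of_subset e2] at e4
    have e5 := card_le_card e2
    omega
  refine ⟨a, ?_, ?_, ?_, hroot⟩
  · intro u hu v hv huv
    by_cases h3 : u ∈ X ∪ A ∧ v ∈ X ∪ A
    · rw [hav1 u h3.1, hav1 v h3.2]
      exact rel_map _ (ha1 u h3.1 v h3.2 huv)
    · have h4 : u ∈ X ∪ C ∧ v ∈ X ∪ C := by
        rw [← hU] at hu hv
        by_cases huX : u ∈ X
        · refine ⟨mem_union_left _ huX, ?_⟩
          rcases mem_union.1 hv with h | h
          · exact absurd ⟨mem_union_left _ huX, h⟩ h3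
          · exact mem_union_right _ h
        · by_cases hvX : v ∈ X
          · refine ⟨?_, mem_union_left _ hvX⟩
            rcases mem_union.1 hu with h | h
            · exact absurd ⟨h, mem_union_left _ hvX⟩ h3
            · exact mem_union_right _ h
          · have hu' : u ∈ A ∨ u ∈ C := by
              rcases mem_union.1 hu with h | h
              · exact Or.inl ((mem_union.1 h).resolve_left huX)
              · exact Or.inr h
            have hv' : v ∈ A ∨ v ∈ C := by
              rcases mem_union.1 hv with h | h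
              · exact Or.inl ((mem_union.1 h).resolve_left hvX)
              · exact Or.inr h
            rcases hu' with hu' | hu' <;> rcases hv' with hv' | hv'
            · exact absurd ⟨mem_union_right _ hu', mem_union_right _ hv'⟩ h3
            · exact absurd huv (hAdj u hu' v hv')
            · exact absurd huv.symm (hAdj v hv' u hu')
            · exact ⟨mem_union_right _ hu', mem_union_right _ hv'⟩
      rw [hav2 u h4.1, hav2 v h4.2]
      exact rel_map _ (ha2 u h4.1 v h4.2 huv)
  · intro l
    rcases l with _ | ⟨x, l⟩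
    · have h24 : 24 * w * Δ = 2 * (12 * w * Δ) := by ring
      rw [h24]
      omega
    · rcases Nat.even_or_odd' x with ⟨y, hy | hy⟩
      · by_cases hl : ∃ l', List.map (fun t => 2 * t) l' = x :: l
        · obtain ⟨l', hl'⟩ := hl
          refine le_trans (card_le_card ?_) (hb1 l')
          intro v hv
          rw [mem_filter] at hv
          obtain ⟨hvU, hv⟩ := hv
          by_cases hvA : v ∈ X ∪ A
          · rw [hav1 v hvA, ← hl'] at hv
            rw [mem_filter]
            exact ⟨hvA, (List.map_injective_iff.2 inj1) hv⟩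
          · have hvC : v ∈ X ∪ C := by
              rw [← hU] at hvU
              rcases mem_union.1 hvU with h | h
              · exact absurd h hvA
              · exact mem_union_right _ h
            rw [hav2 v hvC, hy] at hv
            rcases hav : a2 v with _ | ⟨z, l2⟩
            · rw [hav] at hv
              simp at hv
            · rw [hav, List.map_cons, List.cons.injEq] at hv
              omega
        · have : U.filter (fun v => a v = x :: l) = ∅ := by
            rw [filter_eq_empty_iff]
            intro v hvU hv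
            by_cases hvA : v ∈ X ∪ A
            · rw [hav1 v hvA] at hv
              exact hl ⟨_, hv⟩
            · have hvC : v ∈ X ∪ C := by
                rw [← hU] at hvU
                rcases mem_union.1 hvU with h | h
                · exact absurd h hvA
                · exact mem_union_right _ h
              rw [hav2 v hvC, hy] at hv
              rcases hav : a2 v with _ | ⟨z, l2⟩
              · rw [hav] at hv
                simp at hv
              · rw [hav, List.map_cons, List.cons.injEq] at hv
                omega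
          rw [this, card_empty]
          exact Nat.zero_le _
      · by_cases hl : ∃ l', List.map (fun t => 2 * t + 1) l' = x :: l
        · obtain ⟨l', hl'⟩ := hl
          refine le_trans (card_le_card ?_) (hb2 l')
          intro v hv
          rw [mem_filter] at hv
          obtain ⟨hvU, hv⟩ := hv
          by_cases hvA : v ∈ X ∪ A
          · rw [hav1 v hvA, hy] at hv
            rcases hav : a1 v with _ | ⟨z, l2⟩
            · rw [hav] at hv
              simp at hv
            · rw [hav, List.map_cons, List.cons.injEq] at hv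
              omega
          · have hvC : v ∈ X ∪ C := by
              rw [← hU] at hvU
              rcases mem_union.1 hvU with h | h
              · exact absurd h hvA
              · exact mem_union_right _ h
            rw [hav2 v hvC, ← hl'] at hv
            rw [mem_filter]
            exact ⟨hvC, (List.map_injective_iff.2 inj2) hv⟩
        · have : U.filter (fun v => a v = x :: l) = ∅ := by
            rw [filter_eq_empty_iff]
            intro v hvU hv
            by_cases hvA : v ∈ X ∪ A
            · rw [hav1 v hvA, hy] at hv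
              rcases hav : a1 v with _ | ⟨z, l2⟩
              · rw [hav] at hv
                simp at hv
              · rw [hav, List.map_cons, List.cons.injEq] at hv
                omega
            · have hvC : v ∈ X ∪ C := by
                rw [← hU] at hvU
                rcases mem_union.1 hvU with h | h
                · exact absurd h hvA
                · exact mem_union_right _ h
              rw [hav2 v hvC] at hv
              exact hl ⟨_, hv⟩
          rw [this, card_empty]
          exact Nat.zero_le _
  · intro v hv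
    have hvU := hSU hv
    rw [← hU] at hvU
    rcases mem_union.1 hvU with h | h
    · rw [hav1 v h]
      rcases mem_union.1 h with h' | h'
      · rw [hX1 v h']
        rfl
      · rw [hc1 v (mem_union_left _ (mem_inter.2 ⟨hv, h'⟩))]
        rfl
    · rw [hav2 v (mem_union_right _ h), hc2 v (mem_union_left _ (mem_inter.2 ⟨hv, h⟩))]
      rfl

/-- the claim of the induction -/
theorem claim {W : Finset V} {w Δ : ℕ} (hw : 1 ≤ w) (hΔ : 1 ≤ Δ) (hd : DegLE Δ G)
    (hs : Sep w G W) : ∀ (k : ℕ) (U : Finset V), U.card ≤ k → U ⊆ W → ∀ S ⊆ U,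
    4 * w ≤ S.card → S.card ≤ 12 * w * Δ → Good G w Δ U S := by
  intro k
  induction k with
  | zero =>
    intro U hU hUW S hSU h1 h2
    have := card_le_card hSU
    omega
  | succ k ih =>
    intro U hU hUW S hSU h1 h2
    by_cases h3 : (U \ S).card ≤ 24 * w * Δ
    · exact case1 hSU h1 h2 h3
    push Not at h3
    by_cases h4 : S.card ≤ 12 * w
    · refine case2 hΔ hd hSU h1 h4 h3 ?_
      intro N hN h5 h6
      refine ih (U \ S) ?_ (sdiff_subset.trans hUW) N hN h5 h6
      have := card_sdiff_add_card_eq_card hSU
      omega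
    push Not at h4
    obtain ⟨X, A, C, h5, h6, h7, h8, h9, h10, h11, h12⟩ := hs U hUW S hSU
    refine case3 hΔ hSU h4 h2 h5 h6 h7 h8 h9 h10 h11 h12 ?_
    intro U' hU' hU'U N hN h13 h14
    exact ih U' (by omega) (hU'U.trans hUW) N hN h13 h14

end TpRow

open TpRow in
theorem stTP : StTP := by
  intro V _ G W w Δ hw hΔ hd hs
  have h0 : 4 * w ≤ 24 * w * Δ := by
    have : 24 * w ≤ 24 * w * Δ := Nat.le_mul_of_pos_right _ hΔ
    omega
  have h1 : 4 * w ≤ 12 * w * Δ := by
    have : 12 * w ≤ 12 * w * Δ := Nat.le_mul_of_pos_right _ hΔ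
    omega
  by_cases hW : W.card ≤ 24 * w * Δ
  · exact ⟨fun _ => [], fun _ _ _ _ _ => rel_refl _, fun l =>
      (card_le_card (filter_subset _ _)).trans hW⟩
  · push Not at hW
    obtain ⟨S, hS, hSc⟩ := exists_subset_card_eq (s := W) (n := 4 * w) (by omega)
    obtain ⟨a, ha1, ha2, _, _⟩ := claim hw hΔ hd hs W.card W le_rfl (Subset.refl _) S hS
      (by omega) (by omega)
    exact ⟨a, ha1, ha2⟩

end

end Pool.Agent.Lib.MP_1fca17_co.Q
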