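import Mathlib
import Pool.Agent.Lib.MP_1fca17_co.Q.Defs

/-!
# MP_1fca17_co : WIN, the orders in one window
-/

namespace Pool.Agent.Lib.MP_1fca17_co.Q

open Finset
open scoped Classical
open Pool.Agent.Lib.MP_1fca17_co (sg GenPos Btw LC MonoFam StCount StNum1)

noncomputable section

namespace Win92

variable {V : Type}

theorem mono_sub {s : V → ℤ} {X : V → ℕ} {F F' : Finset (V × V)} (h : MonoFam s X F)
    (hs : F' ⊆ F) : MonoFam s X F' :=
  fun e he f hf hef => h e (hs he) f (hs hf) hef

theorem fam_lt {m : ℕ} {s : V → ℤ} {X : V → ℕ} {E F : Finset (V × V)}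
    (hg : ∀ F ⊆ E, F.card = m → ¬ MonoFam s X F) (hF : F ⊆ E) (h : MonoFam s X F) :
    F.card < m := by
  by_contra hc
  push Not at hc
  obtain ⟨F', hF', hcard⟩ := Finset.exists_subset_card_eq hc
  exact hg F' (hF'.trans hF) hcard (mono_sub h hF')

/-- keys: bag first -/
theorem key_lt_of_rk {b m n : ℕ} {a : V → List ℕ} {lab id : V → ℕ} {u v : V}
    (hm : ∀ v, lab v < m) (hn : ∀ v, id v < n) (h : rk b (a u) < rk b (a v)) :
    key b m n a lab id u < key b m n a lab id v := by
  unfold key
  have h1 : rk b (a u) * m + lab u + 1 ≤ rk b (a v) * m + lab v := by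
    have := hm u
    calc rk b (a u) * m + lab u + 1 ≤ (rk b (a u) + 1) * m := by rw [add_mul]; omega
      _ ≤ rk b (a v) * m := Nat.mul_le_mul_right _ h
      _ ≤ _ := Nat.le_add_right _ _
  have h2 := hn u
  calc (rk b (a u) * m + lab u) * n + id u < (rk b (a u) * m + lab u + 1) * n := by
        rw [Nat.succ_mul]; omega
    _ ≤ (rk b (a v) * m + lab v) * n := Nat.mul_le_mul_right _ h1
    _ ≤ _ := Nat.le_add_right _ _

/-- keys: then the label -/
theorem lab_le {b m n : ℕ} {a : V → List ℕ} {lab id : V → ℕ} {u v : V}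
    (hn : ∀ v, id v < n) (ha : a u = a v)
    (h : key b m n a lab id u < key b m n a lab id v) : lab u ≤ lab v := by
  by_contra hc
  push Not at hc
  unfold key at h
  rw [ha] at h
  have h1 : rk b (a v) * m + lab v + 1 ≤ rk b (a v) * m + lab u := by omega
  have h2 := hn v
  have : (rk b (a v) * m + lab v) * n + id v < (rk b (a v) * m + lab u) * n + id u := by
    calc (rk b (a v) * m + lab v) * n + id v < (rk b (a v) * m + lab v + 1) * n := by
          rw [Nat.succ_mul]; omega
      _ ≤ (rk b (a v) * m + lab u) * n := Nat.mul_le_mul_right _ h1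
      _ ≤ _ := Nat.le_add_right _ _
  omega

theorem key_inj {b m n : ℕ} {a : V → List ℕ} {lab id : V → ℕ}
    (hn : ∀ v, id v < n) (hid : Function.Injective id) :
    Function.Injective (key b m n a lab id) := by
  intro u v h
  apply hid
  have h1 := congrArg (· % n) h
  simp only [key, Nat.mul_add_mod_self_right] at h1
  rwa [Nat.mod_eq_of_lt (hn u), Nat.mod_eq_of_lt (hn v)] at h1

theorem rk_le {b m n : ℕ} {a : V → List ℕ} {lab id : V → ℕ} {u v : V}
    (hm : ∀ v, lab v < m) (hn : ∀ v, id v < n)
    (h : key b m n a lab id u < key b m n a lab id v) : rk b (a u) ≤ rk b (a v) := by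
  by_contra hc
  push Not at hc
  have := key_lt_of_rk (b := b) (m := m) (n := n) (a := a) hm hn hc
  omega

/-- confinement: the upper ends lie in one bag -/
theorem confine {b m n : ℕ} {a : V → List ℕ} {l1 l2 id : V → ℕ} (hrk : StRk) (hb : 2 ≤ b)
    (hab : ∀ v, ∀ x ∈ a v, x < b) (hm1 : ∀ v, l1 v < m) (hm2 : ∀ v, l2 v < m)
    (hn : ∀ v, id v < n) {F : Finset (V × V)}
    (ht : (∀ e ∈ F, a e.1 = a e.2) ∨ (∀ e ∈ F, ∃ x, a e.1 = x :: a e.2))
    (hF : ∀ e ∈ F, ∀ f ∈ F, e ≠ f →
      (key b m n a l1 id e.1 < key b m n a l1 id f.1 ∧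
        key b m n a l2 id f.2 < key b m n a l2 id e.2) ∨
      (key b m n a l1 id f.1 < key b m n a l1 id e.1 ∧
        key b m n a l2 id e.2 < key b m n a l2 id f.2)) :
    ∀ e ∈ F, ∀ f ∈ F, a e.2 = a f.2 := by
  obtain ⟨-, h2, h3⟩ := hrk b hb
  have key1 : ∀ e ∈ F, ∀ f ∈ F, ¬ rk b (a e.2) < rk b (a f.2) := by
    intro e he f hf hlt
    have hef : e ≠ f := by rintro rfl; exact lt_irrefl _ hlt
    have hk2 := key_lt_of_rk (b := b) (m := m) (n := n) (a := a) (lab := l2) (id := id) hm2 hn hlt
    have hlt1 : rk b (a e.1) < rk b (a f.1) := by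
      rcases ht with ht | ht
      · rw [ht e he, ht f hf]; exact hlt
      · obtain ⟨x, hx⟩ := ht e he
        obtain ⟨y, hy⟩ := ht f hf
        rw [hx, hy]
        refine h2 _ _ _ _ (hab e.1 x (by rw [hx]; simp)) (hab f.1 y (by rw [hy]; simp)) hlt
    have hk1 := key_lt_of_rk (b := b) (m := m) (n := n) (a := a) (lab := l1) (id := id) hm1 hn hlt1
    rcases hF e he f hf hef with h | h
    · exact absurd h.2 (by omega)
    · exact absurd h.1 (by omega)
  intro e he f hf
  apply h3 _ _ (hab _) (hab _)
  have h4 := key1 e he f hf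
  have h5 := key1 f hf e he
  omega

/-- in one bag an antitone family is monotone for the labels -/
theorem mono {b m n : ℕ} {a : V → List ℕ} {l1 l2 id : V → ℕ} (hn : ∀ v, id v < n)
    {F : Finset (V × V)} (hbag : ∀ e ∈ F, ∀ f ∈ F, a e.2 = a f.2)
    (hF : ∀ e ∈ F, ∀ f ∈ F, e ≠ f →
      (key b m n a l1 id e.1 < key b m n a l1 id f.1 ∧
        key b m n a l2 id f.2 < key b m n a l2 id e.2) ∨
      (key b m n a l1 id f.1 < key b m n a l1 id e.1 ∧
        key b m n a l2 id e.2 < key b m n a l2 id f.2)) :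
    MonoFam (fun v => - ((key b m n a l1 id v : ℕ) : ℤ)) l2 F := by
  intro e he f hf hef
  rcases hF e he f hf hef with h | h
  · refine ⟨fun hc => ?_, Or.inr ⟨?_, lab_le hn (hbag f hf e he) h.2⟩⟩
    · rw [hc] at h; exact lt_irrefl _ h.2
    · simp only [neg_lt_neg_iff]; exact_mod_cast h.1
  · refine ⟨fun hc => ?_, Or.inl ⟨?_, lab_le hn (hbag e he f hf) h.2⟩⟩
    · rw [hc] at h; exact lt_irrefl _ h.2
    · simp only [neg_lt_neg_iff]; exact_mod_cast h.1

end Win92

open Win92

theorem stWin (hrk : StRk) (hlab : StLab) : StWin := by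
  intro V _ G A B a s Δ m τ hAB hΔ hRel hbag _hτ hm
  -- the base of the ranks
  obtain ⟨b, hb, hab⟩ : ∃ b : ℕ, 2 ≤ b ∧ ∀ v, ∀ x ∈ a v, x < b := by
    refine ⟨univ.sup (fun v => (a v).sum) + 2, by omega, fun v x hx => ?_⟩
    have h1 : x ≤ (a v).sum := List.le_sum_of_mem hx
    have h2 : (a v).sum ≤ univ.sup (fun v => (a v).sum) :=
      Finset.le_sup (f := fun v => (a v).sum) (mem_univ v)
    omega
  set n := Fintype.card V with hn
  set id : V → ℕ := fun v => (Fintype.equivFin V v : ℕ) with hid
  have hidn : ∀ v, id v < n := fun v => (Fintype.equivFin V v).2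
  have hidi : Function.Injective id := fun u v h =>
    (Fintype.equivFin V).injective (Fin.ext h)
  obtain ⟨lA, lB, hgood⟩ := hlab V G A B a s Δ b m n τ id hΔ hAB hbag hb hab hm
  have hA : ∀ v, ((lA v : ℕ)) < m := fun v => (lA v).2
  have hB : ∀ v, ((lB v : ℕ)) < m := fun v => (lB v).2
  set β := key b m n a (fun u => (lA u : ℕ)) id with hβ
  set κ := key b m n a (fun u => (lB u : ℕ)) id with hκ
  have hadj : ∀ u v, G.Adj u v → u ∈ A ∪ B → v ∈ A ∪ B →
      a u = a v ∨ (∃ x, a v = x :: a u) ∨ (∃ x, a u = x :: a v) :=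
    fun u v h hu hv => hRel u hu v hv h
  have hsw : ∀ F : Finset (V × V), (F.image Prod.swap).card = F.card := fun F =>
    Finset.card_image_of_injective _ Prod.swap_injective
  refine ⟨β, κ, key_inj hidn hidi, key_inj hidn hidi, ?_, ?_, ?_⟩
  · -- W1
    intro F hF hanti
    -- the three types
    set F1 := F.filter (fun e => a e.1 = a e.2) with hF1
    set F2 := F.filter (fun e => ∃ x, a e.2 = x :: a e.1) with hF2
    set F3 := F.filter (fun e => ∃ x, a e.1 = x :: a e.2) with hF3
    have hcov : F ⊆ F1 ∪ F2 ∪ F3 := by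
      intro e he
      obtain ⟨h1, h2, h3⟩ := hF e he
      simp only [hF1, hF2, hF3, mem_union, mem_filter]
      rcases hadj _ _ h1 (mem_union_left _ h2) (mem_union_right _ h3) with h | h | h
      · exact Or.inl (Or.inl ⟨he, h⟩)
      · exact Or.inl (Or.inr ⟨he, h⟩)
      · exact Or.inr ⟨he, h⟩
    -- swapped families with upper end in A
    have swapped : ∀ F' ⊆ F, ((∀ e ∈ F', a e.2 = a e.1) ∨ (∀ e ∈ F', ∃ x, a e.2 = x :: a e.1)) →
        F'.card ≤ m := by
      intro F' hF' ht
      have hanti' : ∀ e ∈ F'.image Prod.swap, ∀ f ∈ F'.image Prod.swap, e ≠ f →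
          (κ e.1 < κ f.1 ∧ β f.2 < β e.2) ∨ (κ f.1 < κ e.1 ∧ β e.2 < β f.2) := by
        intro e he f hf hef
        obtain ⟨e', he', rfl⟩ := mem_image.1 he
        obtain ⟨f', hf', rfl⟩ := mem_image.1 hf
        have := hanti e' (hF' he') f' (hF' hf') (fun h => hef (by rw [h]))
        simp only [Prod.fst_swap, Prod.snd_swap]
        tauto
      have ht' : (∀ e ∈ F'.image Prod.swap, a e.1 = a e.2) ∨
          (∀ e ∈ F'.image Prod.swap, ∃ x, a e.1 = x :: a e.2) := by
        rcases ht with ht | ht
        · left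
          intro e he
          obtain ⟨e', he', rfl⟩ := mem_image.1 he
          exact ht e' he'
        · right
          intro e he
          obtain ⟨e', he', rfl⟩ := mem_image.1 he
          exact ht e' he'
      have hone := confine hrk hb hab hB hA hidn ht' hanti'
      rcases F'.eq_empty_or_nonempty with rfl | ⟨e0, he0⟩
      · simp
      have he0' : e0.swap ∈ F'.image Prod.swap := mem_image_of_mem _ he0
      have hmono := mono (b := b) (m := m) (n := n) hidn hone hanti'
      have hsub : F'.image Prod.swap ⊆ E1 G A B a (a e0.1) := by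
        intro e he
        have h1 := hone e he _ he0'
        obtain ⟨e', he', rfl⟩ := mem_image.1 he
        obtain ⟨h2, h3, h4⟩ := hF e' (hF' he')
        simp only [Prod.snd_swap] at h1
        simp only [E1, mem_filter, mem_univ, true_and, Prod.fst_swap, Prod.snd_swap]
        refine ⟨h2.symm, h4, h3, h1, ?_⟩
        rcases ht with ht | ht
        · left; rw [ht e' he', h1]
        · right
          obtain ⟨x, hx⟩ := ht e' he'
          exact ⟨x, by rw [hx, h1]⟩
      have := fam_lt (hgood (a e0.1)).1 hsub hmono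
      rw [hsw] at this
      exact this.le
    have c1 : F1.card ≤ m := swapped F1 (filter_subset _ _)
      (Or.inl fun e he => (mem_filter.1 he).2.symm)
    have c2 : F2.card ≤ m := swapped F2 (filter_subset _ _)
      (Or.inr fun e he => (mem_filter.1 he).2)
    have c3 : F3.card ≤ m := by
      have hanti3 : ∀ e ∈ F3, ∀ f ∈ F3, e ≠ f →
          (β e.1 < β f.1 ∧ κ f.2 < κ e.2) ∨ (β f.1 < β e.1 ∧ κ e.2 < κ f.2) :=
        fun e he f hf hef => hanti e (mem_filter.1 he).1 f (mem_filter.1 hf).1 hef
      have ht : (∀ e ∈ F3, a e.1 = a e.2) ∨ (∀ e ∈ F3, ∃ x, a e.1 = x :: a e.2) :=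
        Or.inr fun e he => (mem_filter.1 he).2
      have hone := confine hrk hb hab hA hB hidn ht hanti3
      rcases F3.eq_empty_or_nonempty with h0 | ⟨e0, he0⟩
      · rw [h0]; simp
      have hmono := mono (b := b) (m := m) (n := n) hidn hone hanti3
      have hsub : F3 ⊆ E2 G B A a (a e0.2) := by
        intro e he
        obtain ⟨h2, h3, h4⟩ := hF e (mem_filter.1 he).1
        obtain ⟨x, hx⟩ := (mem_filter.1 he).2
        have h1 := hone e he e0 he0
        simp only [E2, mem_filter, mem_univ, true_and]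
        exact ⟨h2, h3, h4, h1, x, by rw [hx, h1]⟩
      exact (fam_lt (hgood (a e0.2)).2.2.2.2 hsub hmono).le
    have := card_le_card hcov
    have h4 := card_union_le (F1 ∪ F2) F3
    have h5 := card_union_le F1 F2
    omega
  · -- W2
    intro F hF hanti
    set F2 := F.filter (fun e => ∃ x, a e.2 = x :: a e.1) with hF2
    set F3 := F.filter (fun e => ∃ x, a e.1 = x :: a e.2) with hF3
    have hcov : F ⊆ F2 ∪ F3 := by
      intro e he
      obtain ⟨h1, h2, h3, h4, h5⟩ := hF e he
      simp only [hF2, hF3, mem_union, mem_filter]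
      rcases hadj _ _ h1 (mem_union_left _ h2) (mem_union_left _ h3) with h | h | h
      · rw [h] at h4; exact absurd h4 h5
      · exact Or.inl ⟨he, h⟩
      · exact Or.inr ⟨he, h⟩
    have c2 : F2.card ≤ m := by
      have hanti' : ∀ e ∈ F2.image Prod.swap, ∀ f ∈ F2.image Prod.swap, e ≠ f →
          (β e.1 < β f.1 ∧ β f.2 < β e.2) ∨ (β f.1 < β e.1 ∧ β e.2 < β f.2) := by
        intro e he f hf hef
        obtain ⟨e', he', rfl⟩ := mem_image.1 he
        obtain ⟨f', hf', rfl⟩ := mem_image.1 hf
        have := hanti e' (mem_filter.1 he').1 f' (mem_filter.1 hf').1 (fun h => hef (by rw [h]))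
        simp only [Prod.fst_swap, Prod.snd_swap]
        tauto
      have ht' : (∀ e ∈ F2.image Prod.swap, a e.1 = a e.2) ∨
          (∀ e ∈ F2.image Prod.swap, ∃ x, a e.1 = x :: a e.2) := by
        right
        intro e he
        obtain ⟨e', he', rfl⟩ := mem_image.1 he
        exact (mem_filter.1 he').2
      have hone := confine hrk hb hab hA hA hidn ht' hanti'
      rcases F2.eq_empty_or_nonempty with h0 | ⟨e0, he0⟩
      · rw [h0]; simp
      have he0' : e0.swap ∈ F2.image Prod.swap := mem_image_of_mem _ he0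
      have hmono := mono (b := b) (m := m) (n := n) hidn hone hanti'
      have hsub : F2.image Prod.swap ⊆ E2 G A A a (a e0.1) := by
        intro e he
        have h1 := hone e he _ he0'
        obtain ⟨e', he', rfl⟩ := mem_image.1 he
        obtain ⟨h2, h3, h4, -, -⟩ := hF e' (mem_filter.1 he').1
        obtain ⟨x, hx⟩ := (mem_filter.1 he').2
        simp only [Prod.snd_swap] at h1
        simp only [E2, mem_filter, mem_univ, true_and, Prod.fst_swap, Prod.snd_swap]
        exact ⟨h2.symm, h4, h3, h1, x, by rw [hx, h1]⟩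
      have := fam_lt (hgood (a e0.1)).2.1 hsub hmono
      rw [hsw] at this
      exact this.le
    have c3 : F3.card ≤ m := by
      have hanti3 : ∀ e ∈ F3, ∀ f ∈ F3, e ≠ f →
          (β e.1 < β f.1 ∧ β f.2 < β e.2) ∨ (β f.1 < β e.1 ∧ β e.2 < β f.2) :=
        fun e he f hf hef => hanti e (mem_filter.1 he).1 f (mem_filter.1 hf).1 hef
      have ht : (∀ e ∈ F3, a e.1 = a e.2) ∨ (∀ e ∈ F3, ∃ x, a e.1 = x :: a e.2) :=
        Or.inr fun e he => (mem_filter.1 he).2
      have hone := confine hrk hb hab hA hA hidn ht hanti3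
      rcases F3.eq_empty_or_nonempty with h0 | ⟨e0, he0⟩
      · rw [h0]; simp
      have hmono := mono (b := b) (m := m) (n := n) hidn hone hanti3
      have hsub : F3 ⊆ E2 G A A a (a e0.2) := by
        intro e he
        obtain ⟨h2, h3, h4, -, -⟩ := hF e (mem_filter.1 he).1
        obtain ⟨x, hx⟩ := (mem_filter.1 he).2
        have h1 := hone e he e0 he0
        simp only [E2, mem_filter, mem_univ, true_and]
        exact ⟨h2, h3, h4, h1, x, by rw [hx, h1]⟩
      exact (fam_lt (hgood (a e0.2)).2.1 hsub hmono).le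
    have := card_le_card hcov
    have h4 := card_union_le F2 F3
    omega
  · -- W3
    intro F hF hLC
    have hsame : ∀ e ∈ F, a e.1 = a e.2 := by
      intro e he
      obtain ⟨h1, h2, h3, h4, -⟩ := hF e he
      rcases hadj _ _ h1 (mem_union_left _ h2) (mem_union_left _ h3) with h | ⟨x, h⟩ | ⟨x, h⟩
      · exact h
      · rw [h, List.length_cons, Nat.even_add_one] at h4
        tauto
      · rw [h, List.length_cons, Nat.even_add_one] at h4
        tauto
    have hinj := (hrk b hb).2.2
    have hbtw : ∀ x f1 f2, a f1 = a f2 → Btw β x f1 f2 → a x = a f1 := by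
      intro x f1 f2 h12 h
      apply hinj _ _ (hab _) (hab _)
      rcases h with h | h
      · have h1 := rk_le hA hidn h.1
        have h2 := rk_le hA hidn h.2
        rw [← h12] at h2
        omega
      · have h1 := rk_le hA hidn h.1
        have h2 := rk_le hA hidn h.2
        rw [← h12] at h1
        omega
    have hone : ∀ e ∈ F, ∀ f ∈ F, a e.1 = a f.1 := by
      intro e he f hf
      by_cases hef : e = f
      · rw [hef]
      · rcases hLC e he f hf hef with h | h
        · exact hbtw _ _ _ (hsame f hf) h.2.2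
        · exact (hbtw _ _ _ (hsame e he) h.2.2).symm
    rcases F.eq_empty_or_nonempty with rfl | ⟨e0, he0⟩
    · simp
    set P := F.filter (fun e => β e.1 < β e.2) with hP
    set N := F.filter (fun e => β e.2 < β e.1) with hN
    have hβi : Function.Injective β := key_inj hidn hidi
    have hcov : F ⊆ P ∪ N := by
      intro e he
      obtain ⟨h1, -⟩ := hF e he
      have hne : β e.1 ≠ β e.2 := fun h => h1.ne (hβi h)
      simp only [hP, hN, mem_union, mem_filter]
      rcases lt_or_gt_of_ne hne with h | h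
      · exact Or.inl ⟨he, h⟩
      · exact Or.inr ⟨he, h⟩
    have hsub : ∀ F' ⊆ F, F'.image Prod.swap ⊆ E3 G A a (a e0.1) := by
      intro F' hF' e he
      obtain ⟨e', he', rfl⟩ := mem_image.1 he
      obtain ⟨h2, h3, h4, -, -⟩ := hF e' (hF' he')
      simp only [E3, mem_filter, mem_univ, true_and, Prod.fst_swap, Prod.snd_swap]
      have h5 := hone e' (hF' he') e0 he0
      exact ⟨h2.symm, h4, h3, by rw [← hsame e' (hF' he'), h5], h5⟩
    have cP : P.card ≤ m := by
      have hmono : MonoFam (fun v => (τ v : ℤ)) (fun v => (lA v : ℕ)) (P.image Prod.swap) := by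
        intro e he f hf hef
        obtain ⟨e', he', rfl⟩ := mem_image.1 he
        obtain ⟨f', hf', rfl⟩ := mem_image.1 hf
        have hne : e' ≠ f' := fun h => hef (by rw [h])
        obtain ⟨he1, he2⟩ := mem_filter.1 he'
        obtain ⟨hf1, hf2⟩ := mem_filter.1 hf'
        simp only [Prod.fst_swap, Prod.snd_swap]
        rcases hLC e' he1 f' hf1 hne with ⟨h1, -, h3⟩ | ⟨h1, -, h3⟩
        · -- LC f' e' : τ f'.2 < τ e'.2
          rcases h3 with h3 | h3
          · refine ⟨fun hc => ?_, Or.inr ⟨by exact_mod_cast h1,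
              lab_le (lab := fun u => (lA u : ℕ)) hidn (hone f' hf1 e' he1) h3.1⟩⟩
            rw [hc] at h3; exact lt_irrefl _ h3.1
          · omega
        · rcases h3 with h3 | h3
          · refine ⟨fun hc => ?_, Or.inl ⟨by exact_mod_cast h1,
              lab_le (lab := fun u => (lA u : ℕ)) hidn (hone e' he1 f' hf1) h3.1⟩⟩
            rw [hc] at h3; exact lt_irrefl _ h3.1
          · omega
      have := fam_lt (hgood (a e0.1)).2.2.1 (hsub P (filter_subset _ _)) hmono
      rw [hsw] at this
      exact this.le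
    have cN : N.card ≤ m := by
      have hmono : MonoFam (fun v => - (τ v : ℤ)) (fun v => (lA v : ℕ))
          (N.image Prod.swap) := by
        intro e he f hf hef
        obtain ⟨e', he', rfl⟩ := mem_image.1 he
        obtain ⟨f', hf', rfl⟩ := mem_image.1 hf
        have hne : e' ≠ f' := fun h => hef (by rw [h])
        obtain ⟨he1, he2⟩ := mem_filter.1 he'
        obtain ⟨hf1, hf2⟩ := mem_filter.1 hf'
        simp only [Prod.fst_swap, Prod.snd_swap]
        rcases hLC e' he1 f' hf1 hne with ⟨h1, -, h3⟩ | ⟨h1, -, h3⟩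
        · -- τ f'.2 < τ e'.2, β f'.2 < β e'.1 < β f'.1
          rcases h3 with h3 | h3
          · omega
          · refine ⟨fun hc => ?_, Or.inl ⟨by simp only [neg_lt_neg_iff]; exact_mod_cast h1,
              lab_le (lab := fun u => (lA u : ℕ)) hidn (hone e' he1 f' hf1) h3.2⟩⟩
            rw [hc] at h3; exact lt_irrefl _ h3.2
        · rcases h3 with h3 | h3
          · omega
          · refine ⟨fun hc => ?_, Or.inr ⟨by simp only [neg_lt_neg_iff]; exact_mod_cast h1,
              lab_le (lab := fun u => (lA u : ℕ)) hidn (hone f' hf1 e' he1) h3.2⟩⟩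
            rw [hc] at h3; exact lt_irrefl _ h3.2
      have := fam_lt (hgood (a e0.1)).2.2.2.1 (hsub N (filter_subset _ _)) hmono
      rw [hsw] at this
      exact this.le
    have := card_le_card hcov
    have h4 := card_union_le P N
    omega

end

end Pool.Agent.Lib.MP_1fca17_co.Q
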