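import Mathlib

/-!
MP_1fca17_co, unbounded degree: numeric order of words (helper52).

Words have their LAST letter first. A letter is a pair (type, sibling index). `code B L m` orders the
words with types at most `m`, sibling indices below `B` and length at most `L`.
-/

namespace Pool.Agent.Lib.MP_1fca17_co.Q.W52

/-- words, last letter first -/
abbrev Wd := List (ℕ × ℕ)

/-- numeral of a word -/
def num (B : ℕ) : Wd → ℕ
  | [] => 1
  | p :: w => num B w * B + p.2

/-- the current piece of level `m` -/
def pc (m : ℕ) (w : Wd) : Wd := w.takeWhile (fun p => decide (p.1 ≤ m))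

/-- numeral of the finished pieces -/
def AA (M B m : ℕ) (c : Wd → ℕ) : Wd → ℕ
  | [] => 1
  | p :: w => if p.1 ≤ m then AA M B m c w else (AA M B m c w * M + c (pc m w)) * B + p.2

/-- bound for the codes of level `m` -/
def MM (B L : ℕ) : ℕ → ℕ
  | 0 => 2 * B ^ L
  | m + 1 => 2 * MM B L m * (B * MM B L m) ^ L

/-- the code of a word -/
def code (B L : ℕ) : ℕ → Wd → ℕ
  | 0 => num B
  | m + 1 => fun w => AA (MM B L m) B m (code B L m) w * MM B L m + code B L m (pc m w)

/-- valid words -/
def Val (B m : ℕ) (w : Wd) : Prop := ∀ p ∈ w, p.1 ≤ m ∧ p.2 < B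

/-- path of a hub: letters between the birth region and the region -/
def HP : ℕ → Wd → Prop
  | 0, l => l = []
  | m + 1, l => HP m l ∨ ∃ l2 x l1, l = l2 ++ (m + 1, x) :: l1 ∧ HP m l1 ∧ ∀ p ∈ l2, p.1 ≤ m

variable {B L m : ℕ}

theorem HP.types : ∀ {m : ℕ} {l : Wd}, HP m l → ∀ p ∈ l, p.1 ≤ m
  | 0, l, h, p, hp => by
    rw [show l = [] from h] at hp; simp at hp
  | m + 1, l, h, p, hp => by
    rcases h with h | ⟨l2, x, l1, rfl, h1, h2⟩
    · exact (HP.types h p hp).trans (Nat.le_succ m)
    · rw [List.mem_append, List.mem_cons] at hp
      rcases hp with hp | rfl | hp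
      · exact (h2 p hp).trans (Nat.le_succ m)
      · exact le_rfl
      · exact (HP.types h1 p hp).trans (Nat.le_succ m)

theorem pc_nil : pc m [] = [] := rfl

theorem pc_le {p : ℕ × ℕ} {w : Wd} (h : p.1 ≤ m) : pc m (p :: w) = p :: pc m w := by
  simp [pc, h]

theorem pc_gt {p : ℕ × ℕ} {w : Wd} (h : ¬p.1 ≤ m) : pc m (p :: w) = [] := by
  simp [pc, h]

theorem pc_append {l w : Wd} (h : ∀ p ∈ l, p.1 ≤ m) : pc m (l ++ w) = l ++ pc m w := by
  induction l with
  | nil => rfl
  | cons p l ih =>
    rw [List.cons_append, pc_le (h p (by simp)), ih (fun q hq => h q (by simp [hq]))]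
    rfl

theorem pc_length (m : ℕ) (w : Wd) : (pc m w).length ≤ w.length := by
  unfold pc
  exact (List.takeWhile_sublist _).length_le

theorem mem_pc {p : ℕ × ℕ} {w : Wd} (h : p ∈ pc m w) : p ∈ w ∧ p.1 ≤ m := by
  unfold pc at h
  refine ⟨(List.takeWhile_sublist _).subset h, ?_⟩
  have := List.mem_takeWhile_imp h
  simpa using this

theorem Val.pc {w : Wd} (h : Val B (m + 1) w) : Val B m (pc m w) := fun p hp =>
  ⟨(mem_pc hp).2, (h p (mem_pc hp).1).2⟩

theorem Val.tail {p : ℕ × ℕ} {w : Wd} (h : Val B m (p :: w)) : Val B m w := fun q hq =>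
  h q (by simp [hq])

theorem Val.right {l w : Wd} (h : Val B m (l ++ w)) : Val B m w := fun q hq =>
  h q (by simp [hq])

theorem AA_le {M : ℕ} {c : Wd → ℕ} {p : ℕ × ℕ} {w : Wd} (h : p.1 ≤ m) :
    AA M B m c (p :: w) = AA M B m c w := by
  simp [AA, h]

theorem AA_gt {M : ℕ} {c : Wd → ℕ} {p : ℕ × ℕ} {w : Wd} (h : ¬p.1 ≤ m) :
    AA M B m c (p :: w) = (AA M B m c w * M + c (pc m w)) * B + p.2 := by
  simp [AA, h]

theorem AA_append {M : ℕ} {c : Wd → ℕ} {l w : Wd} (h : ∀ p ∈ l, p.1 ≤ m) :
    AA M B m c (l ++ w) = AA M B m c w := by
  induction l with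
  | nil => rfl
  | cons p l ih =>
    rw [List.cons_append, AA_le (h p (by simp)), ih (fun q hq => h q (by simp [hq]))]

theorem code_succ (w : Wd) : code B L (m + 1) w =
    AA (MM B L m) B m (code B L m) w * MM B L m + code B L m (pc m w) := rfl

theorem MM_pos (hB : 1 ≤ B) : ∀ m, 2 ≤ MM B L m
  | 0 => by
    have : 1 ≤ B ^ L := Nat.one_le_pow _ _ hB
    simp only [MM]; omega
  | m + 1 => by
    have h := MM_pos hB m
    have h1 : 1 ≤ B * MM B L m := Nat.one_le_iff_ne_zero.mpr (by positivity)
    have : 1 ≤ (B * MM B L m) ^ L := Nat.one_le_pow _ _ h1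
    simp only [MM]
    calc 2 = 2 * 1 * 1 := rfl
      _ ≤ 2 * MM B L m * (B * MM B L m) ^ L := by gcongr; omega

theorem num_bound (hB : 1 ≤ B) : ∀ w : Wd, (∀ p ∈ w, p.2 < B) → num B w + 1 ≤ 2 * B ^ w.length
  | [], _ => by simp [num]
  | p :: w, h => by
    have ih := num_bound hB w (fun q hq => h q (by simp [hq]))
    have hp := h p (by simp)
    simp only [num, List.length_cons, pow_succ]
    calc num B w * B + p.2 + 1 ≤ (num B w + 1) * B := by
          rw [add_mul]; omega
      _ ≤ 2 * B ^ w.length * B := by gcongr
      _ = _ := by ring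

/-- the codes are bounded -/
theorem code_lt (hB : 1 ≤ B) : ∀ (m : ℕ) (w : Wd), Val B m w → w.length ≤ L →
    code B L m w < MM B L m
  | 0, w, hv, hl => by
    have h := num_bound hB w (fun p hp => (hv p hp).2)
    have h2 : B ^ w.length ≤ B ^ L := Nat.pow_le_pow_right hB hl
    simp only [code, MM]; omega
  | m + 1, w, hv, hl => by
    have M2 := MM_pos (L := L) hB m
    set M := MM B L m with hM
    have ih := code_lt hB m
    have key : ∀ w : Wd, Val B (m + 1) w → w.length ≤ L →
        code B L (m + 1) w + 1 ≤ 2 * M * (B * M) ^ w.length := by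
      intro w
      induction w with
      | nil =>
        intro _ _
        have h := ih [] (by simp [Val]) (by simp)
        rw [code_succ, pc_nil]
        simp only [AA, List.length_nil, pow_zero, mul_one]
        omega
      | cons p w ihw =>
        intro hv hl
        have hv' := hv.tail
        have hl' : w.length ≤ L := by simp at hl; omega
        have h1 := ihw hv' hl'
        have hc := code_succ (B := B) (L := L) (m := m) w
        rw [code_succ, List.length_cons, pow_succ]
        by_cases hp : p.1 ≤ m
        · rw [AA_le hp]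
          have h2 : code B L m (pc m (p :: w)) < M :=
            ih _ hv.pc ((pc_length _ _).trans hl)
          calc AA M B m (code B L m) w * M + code B L m (pc m (p :: w)) + 1
              ≤ (code B L (m + 1) w + 1) * M := by
                have h3 : AA M B m (code B L m) w * M ≤ code B L (m + 1) w := by
                  rw [hc]; exact Nat.le_add_right _ _
                have h4 : code B L (m + 1) w * 1 ≤ code B L (m + 1) w * M :=
                  Nat.mul_le_mul_left _ (by omega)
                rw [add_mul]; omega
            _ ≤ 2 * M * (B * M) ^ w.length * (1 * M) := by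
                rw [one_mul]; gcongr
            _ ≤ 2 * M * (B * M) ^ w.length * (B * M) := by gcongr
            _ = _ := by ring
        · rw [AA_gt hp, pc_gt hp, ← hM, ← hc]
          have h2 := ih [] (by simp [Val]) (by simp)
          have hx := (hv p (by simp)).2
          calc (code B L (m + 1) w * B + p.2) * M + code B L m [] + 1
              ≤ (code B L (m + 1) w * B + p.2 + 1) * M := by
                rw [add_mul _ 1]; omega
            _ ≤ ((code B L (m + 1) w + 1) * B) * M := by
                gcongr; rw [add_mul]; omega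
            _ ≤ ((2 * M * (B * M) ^ w.length) * B) * M := by gcongr
            _ = _ := by ring
    have h := key w hv hl
    have h2 : (B * M) ^ w.length ≤ (B * M) ^ L :=
      Nat.pow_le_pow_right (Nat.one_le_iff_ne_zero.mpr (by positivity)) hl
    have h3 : 2 * M * (B * M) ^ w.length ≤ 2 * M * (B * M) ^ L := Nat.mul_le_mul_left _ h2
    have h4 : MM B L (m + 1) = 2 * M * (B * M) ^ L := rfl
    omega

/-- comparison of numbers with two digits -/
theorem dig_lt {M A A' c c' : ℕ} (h : c < M) (h' : c' < M) :
    A * M + c < A' * M + c' ↔ A < A' ∨ A = A' ∧ c < c' := by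
  constructor
  · intro hl
    rcases lt_trichotomy A A' with h1 | h1 | h1
    · exact Or.inl h1
    · right; subst h1; exact ⟨rfl, by omega⟩
    · exfalso
      have : (A' + 1) * M ≤ A * M := Nat.mul_le_mul_right _ h1
      rw [add_mul] at this; omega
  · rintro (h1 | ⟨rfl, h1⟩)
    · have : (A + 1) * M ≤ A' * M := Nat.mul_le_mul_right _ h1
      rw [add_mul] at this; omega
    · omega

theorem dig_le {M A A' c c' : ℕ} (h : c < M) (h' : c' < M) :
    A * M + c ≤ A' * M + c' ↔ A < A' ∨ A = A' ∧ c ≤ c' := by
  constructor
  · intro hl
    rcases lt_trichotomy A A' with h1 | h1 | h1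
    · exact Or.inl h1
    · right; subst h1; exact ⟨rfl, by omega⟩
    · exfalso
      have : (A' + 1) * M ≤ A * M := Nat.mul_le_mul_right _ h1
      rw [add_mul] at this; omega
  · rintro (h1 | ⟨rfl, h1⟩)
    · have : (A + 1) * M ≤ A' * M := Nat.mul_le_mul_right _ h1
      rw [add_mul] at this; omega
    · omega

/-- KP1: the order of the parents decides -/
theorem kp1 (hB : 1 ≤ B) : ∀ (m t x x' : ℕ) (w w' : Wd), t ≤ m → Val B m w → Val B m w' →
    x < B → x' < B → w.length < L → w'.length < L → code B L m w < code B L m w' →
    code B L m ((t, x) :: w) < code B L m ((t, x') :: w')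
  | 0, t, x, x', w, w', _, _, _, hx, hx', _, _, h => by
    simp only [code, num] at h ⊢
    exact (dig_lt hx hx').mpr (Or.inl h)
  | m + 1, t, x, x', w, w', ht, hv, hv', hx, hx', hl, hl', h => by
    have hc := code_lt (L := L) hB m (pc m w) hv.pc ((pc_length _ _).trans hl.le)
    have hc' := code_lt (L := L) hB m (pc m w') hv'.pc ((pc_length _ _).trans hl'.le)
    by_cases htm : t ≤ m
    · rw [code_succ, code_succ, AA_le (p := (t, x)) htm, AA_le (p := (t, x')) htm,
        pc_le (p := (t, x)) htm, pc_le (p := (t, x')) htm]
      rw [code_succ, code_succ, dig_lt hc hc'] at h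
      have hn : Val B m ((t, x) :: pc m w) := by
        intro p hp
        rcases List.mem_cons.mp hp with rfl | hp
        · exact ⟨htm, hx⟩
        · exact hv.pc p hp
      have hn' : Val B m ((t, x') :: pc m w') := by
        intro p hp
        rcases List.mem_cons.mp hp with rfl | hp
        · exact ⟨htm, hx'⟩
        · exact hv'.pc p hp
      have e1 := code_lt (L := L) hB m _ hn (by
        have := pc_length m w; simp only [List.length_cons]; omega)
      have e2 := code_lt (L := L) hB m _ hn' (by
        have := pc_length m w'; simp only [List.length_cons]; omega)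
      rw [dig_lt e1 e2]
      rcases h with h | ⟨h, h2⟩
      · exact Or.inl h
      · exact Or.inr ⟨h, kp1 hB m t x x' _ _ htm hv.pc hv'.pc hx hx'
          ((pc_length _ _).trans_lt hl) ((pc_length _ _).trans_lt hl') h2⟩
    · rw [code_succ, code_succ, AA_gt (p := (t, x)) htm, AA_gt (p := (t, x')) htm,
        pc_gt (p := (t, x)) htm, pc_gt (p := (t, x')) htm, ← code_succ, ← code_succ]
      have e := code_lt (L := L) hB m [] (by simp [Val]) (by simp)
      rw [dig_lt e e]
      exact Or.inl ((dig_lt hx hx').mpr (Or.inl h))

/-- the order of the siblings of one type -/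
theorem kp1_sib (hB : 1 ≤ B) : ∀ (m t x x' : ℕ) (w : Wd), t ≤ m → Val B m w →
    x < x' → x' < B → w.length < L →
    code B L m ((t, x) :: w) < code B L m ((t, x') :: w)
  | 0, t, x, x', w, _, _, hx, hx', _ => by
    simp only [code, num]; omega
  | m + 1, t, x, x', w, ht, hv, hx, hx', hl => by
    by_cases htm : t ≤ m
    · rw [code_succ, code_succ, AA_le (p := (t, x)) htm, AA_le (p := (t, x')) htm,
        pc_le (p := (t, x)) htm, pc_le (p := (t, x')) htm]
      have := kp1_sib hB m t x x' (pc m w) htm hv.pc hx hx' ((pc_length _ _).trans_lt hl)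
      omega
    · rw [code_succ, code_succ, AA_gt (p := (t, x)) htm, AA_gt (p := (t, x')) htm,
        pc_gt (p := (t, x)) htm, pc_gt (p := (t, x')) htm, ← code_succ]
      have e := code_lt (L := L) hB m [] (by simp [Val]) (by simp)
      rw [dig_lt e e]
      left
      simp only
      omega

theorem code_pos : ∀ (m : ℕ) (w : Wd), 1 ≤ B → 1 ≤ code B L m w
  | 0, [], _ => by simp [code, num]
  | 0, p :: w, hB => by
    have := code_pos 0 w hB
    simp only [code, num] at this ⊢
    have h2 : 1 * 1 ≤ num B w * B := Nat.mul_le_mul this hB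
    omega
  | m + 1, w, hB => by
    have := code_pos m (pc m w) hB
    rw [code_succ]; omega

theorem AA_one_or {M : ℕ} {c : Wd → ℕ} : ∀ w : Wd, (AA M B m c w = 1 ∧ ∀ p ∈ w, p.1 ≤ m) ∨
    ∃ l p u, w = l ++ p :: u ∧ (∀ q ∈ l, q.1 ≤ m) ∧ ¬p.1 ≤ m ∧
      AA M B m c w = (AA M B m c u * M + c (pc m u)) * B + p.2
  | [] => Or.inl ⟨rfl, by simp⟩
  | p :: w => by
    by_cases hp : p.1 ≤ m
    · rcases AA_one_or (M := M) (c := c) w with ⟨h1, h2⟩ | ⟨l, q, u, rfl, h1, h2, h3⟩
      · left
        refine ⟨by rw [AA_le hp, h1], ?_⟩
        intro r hr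
        rcases List.mem_cons.mp hr with rfl | hr
        · exact hp
        · exact h2 r hr
      · right
        refine ⟨p :: l, q, u, rfl, ?_, h2, by rw [AA_le hp, h3]⟩
        intro r hr
        rcases List.mem_cons.mp hr with rfl | hr
        · exact hp
        · exact h1 r hr
    · right
      exact ⟨[], p, w, rfl, by simp, hp, AA_gt hp⟩

/-- different words have different codes -/
theorem code_inj (hB : 2 ≤ B) : ∀ (m : ℕ) (w w' : Wd), Val B m w → Val B m w' →
    w.length ≤ L → w'.length ≤ L → code B L m w = code B L m w' → w = w'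
  | 0, w, w', hv, hv', hl, hl', h => by
    have key : ∀ w w' : Wd, Val B 0 w → Val B 0 w' → num B w = num B w' → w = w' := by
      intro w
      induction w with
      | nil =>
        intro w' _ hv' h
        cases w' with
        | nil => rfl
        | cons p w' =>
          exfalso
          have := code_pos (B := B) (L := L) 0 w' (by omega)
          simp only [code] at this
          simp only [num] at h
          have h2 : 1 * 2 ≤ num B w' * B := Nat.mul_le_mul this hB
          omega
      | cons p w ih =>
        intro w' hv hv' h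
        cases w' with
        | nil =>
          exfalso
          have := code_pos (B := B) (L := L) 0 w (by omega)
          simp only [code] at this
          simp only [num] at h
          have h2 : 1 * 2 ≤ num B w * B := Nat.mul_le_mul this hB
          omega
        | cons p' w' =>
          simp only [num] at h
          have hx := (hv p (by simp)).2
          have hx' := (hv' p' (by simp)).2
          have h1 := (dig_le hx hx').mp h.le
          have h2 := (dig_le hx' hx).mp h.ge
          have e1 : num B w = num B w' := by
            rcases h1 with h1 | h1 <;> rcases h2 with h2 | h2 <;> omega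
          have e2 : p.2 = p'.2 := by
            rcases h1 with h1 | h1 <;> rcases h2 with h2 | h2 <;> omega
          have e3 : p.1 = p'.1 := by
            have a := (hv p (by simp)).1
            have b := (hv' p' (by simp)).1
            omega
          rw [ih w' hv.tail hv'.tail e1, Prod.ext e3 e2]
    exact key w w' hv hv' h
  | m + 1, w, w', hv, hv', hl, hl', h => by
    have hB1 : 1 ≤ B := by omega
    have key : ∀ (n : ℕ) (w w' : Wd), w.length ≤ n → Val B (m + 1) w → Val B (m + 1) w' →
        w.length ≤ L → w'.length ≤ L → code B L (m + 1) w = code B L (m + 1) w' → w = w' := by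
      intro n
      induction n with
      | zero =>
        intro w w' hn hv hv' hl hl' h
        have hw : w = [] := List.length_eq_zero_iff.mp (by omega)
        subst hw
        have c1 := code_lt (L := L) hB1 m (pc m []) hv.pc ((pc_length _ _).trans hl)
        have c2 := code_lt (L := L) hB1 m (pc m w') hv'.pc ((pc_length _ _).trans hl')
        rw [code_succ, code_succ] at h
        have h1 := (dig_le c1 c2).mp h.le
        have h2 := (dig_le c2 c1).mp h.ge
        have e1 : AA (MM B L m) B m (code B L m) [] = AA (MM B L m) B m (code B L m) w' := by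
          rcases h1 with h1 | h1 <;> rcases h2 with h2 | h2 <;> omega
        have e2 : code B L m (pc m []) = code B L m (pc m w') := by
          rcases h1 with h1 | h1 <;> rcases h2 with h2 | h2 <;> omega
        rcases AA_one_or (B := B) (m := m) (M := MM B L m) (c := code B L m) w' with
          ⟨h3, h4⟩ | ⟨l, p, u, rfl, h3, h4, h5⟩
        · have e3 : pc m w' = w' := by
            have := pc_append (m := m) (w := []) h4
            simpa [pc_nil] using this
          rw [e3] at e2
          exact code_inj hB m [] w' (by simp [Val]) (fun p hp => ⟨h4 p hp, (hv' p hp).2⟩) hl hl' e2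
        · exfalso
          rw [h5, ← code_succ] at e1
          have := code_pos (B := B) (L := L) (m + 1) u hB1
          have h6 : 1 * 2 ≤ code B L (m + 1) u * B := Nat.mul_le_mul this hB
          simp only [AA] at e1
          omega
      | succ n ih =>
        intro w w' hn hv hv' hl hl' h
        have c1 := code_lt (L := L) hB1 m (pc m w) hv.pc ((pc_length _ _).trans hl)
        have c2 := code_lt (L := L) hB1 m (pc m w') hv'.pc ((pc_length _ _).trans hl')
        rw [code_succ, code_succ] at h
        have h1 := (dig_le c1 c2).mp h.le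
        have h2 := (dig_le c2 c1).mp h.ge
        have e1 : AA (MM B L m) B m (code B L m) w = AA (MM B L m) B m (code B L m) w' := by
          rcases h1 with h1 | h1 <;> rcases h2 with h2 | h2 <;> omega
        have e2 : code B L m (pc m w) = code B L m (pc m w') := by
          rcases h1 with h1 | h1 <;> rcases h2 with h2 | h2 <;> omega
        have e3 := code_inj hB m _ _ hv.pc hv'.pc ((pc_length _ _).trans hl)
          ((pc_length _ _).trans hl') e2
        rcases AA_one_or (B := B) (m := m) (M := MM B L m) (c := code B L m) w with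
          ⟨h3, h4⟩ | ⟨l, p, u, rfl, h3, h4, h5⟩ <;>
        rcases AA_one_or (B := B) (m := m) (M := MM B L m) (c := code B L m) w' with
          ⟨h3', h4'⟩ | ⟨l', p', u', rfl, h3', h4', h5'⟩
        · have a1 := pc_append (m := m) (w := []) h4
          have a2 := pc_append (m := m) (w := []) h4'
          rw [List.append_nil, pc_nil, List.append_nil] at a1 a2
          rw [a1, a2] at e3
          exact e3
        · exfalso
          rw [h3, h5', ← code_succ] at e1
          have := code_pos (B := B) (L := L) (m + 1) u' hB1
          have h6 : 1 * 2 ≤ code B L (m + 1) u' * B := Nat.mul_le_mul this hB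
          omega
        · exfalso
          rw [h3', h5, ← code_succ] at e1
          have := code_pos (B := B) (L := L) (m + 1) u hB1
          have h6 : 1 * 2 ≤ code B L (m + 1) u * B := Nat.mul_le_mul this hB
          omega
        · rw [pc_append h3, pc_append h3', pc_gt h4, pc_gt h4', List.append_nil,
            List.append_nil] at e3
          subst e3
          rw [h5, h5', ← code_succ, ← code_succ] at e1
          have hp := hv p (by simp)
          have hp' := hv' p' (by simp)
          have g1 := (dig_le hp.2 hp'.2).mp e1.le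
          have g2 := (dig_le hp'.2 hp.2).mp e1.ge
          have e4 : code B L (m + 1) u = code B L (m + 1) u' := by
            rcases g1 with g1 | g1 <;> rcases g2 with g2 | g2 <;> omega
          have e5 : p.2 = p'.2 := by
            rcases g1 with g1 | g1 <;> rcases g2 with g2 | g2 <;> omega
          have e6 : p.1 = p'.1 := by omega
          have hvu : Val B (m + 1) u := hv.right.tail
          have hvu' : Val B (m + 1) u' := hv'.right.tail
          simp only [List.length_append, List.length_cons] at hn hl hl'
          rw [ih u u' (by omega) hvu hvu' (by omega) (by omega) e4, Prod.ext e6 e5]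
    exact key w.length w w' le_rfl hv hv' hl hl' h

/-- KP3: pairs (birth region, region) of hubs with increasing births and decreasing regions -/
theorem kp3 (hB : 1 ≤ B) {ι : Type*} : ∀ (m : ℕ) (s : Finset ι) (Q l : ι → Wd),
    (∀ i ∈ s, Val B m (l i ++ Q i) ∧ (l i ++ Q i).length ≤ L ∧ HP m (l i)) →
    (∀ i ∈ s, ∀ j ∈ s, i ≠ j →
      (code B L m (Q i) < code B L m (Q j) ∧
        code B L m (l j ++ Q j) ≤ code B L m (l i ++ Q i)) ∨
      (code B L m (Q j) < code B L m (Q i) ∧
        code B L m (l i ++ Q i) ≤ code B L m (l j ++ Q j))) →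
    s.card ≤ 2 ^ m
  | 0, s, Q, l, h1, h2 => by
    rw [pow_zero, Finset.card_le_one]
    intro i hi j hj
    by_contra hij
    have a : l i = [] := (h1 i hi).2.2
    have b : l j = [] := (h1 j hj).2.2
    rcases h2 i hi j hj hij with ⟨c, d⟩ | ⟨c, d⟩ <;>
    · rw [a, b, List.nil_append, List.nil_append] at d
      omega
  | m + 1, s, Q, l, h1, h2 => by
    classical
    -- the value of `A` for a word
    have fin : ∀ (s' : Finset ι) (l' : ι → Wd), s' ⊆ s → (∀ i ∈ s', HP m (l' i)) →
        (∀ i ∈ s', Val B (m + 1) (l' i ++ Q i) ∧ (l' i ++ Q i).length ≤ L) →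
        (∀ i ∈ s', ∀ j ∈ s', code B L (m + 1) (l j ++ Q j) ≤ code B L (m + 1) (l i ++ Q i) →
          code B L (m + 1) (l' j ++ Q j) ≤ code B L (m + 1) (l' i ++ Q i)) →
        s'.card ≤ 2 ^ m := by
      intro s' l' hs hP hV hle
      have hlt : ∀ i ∈ s', ∀ j ∈ s', code B L (m + 1) (Q i) < code B L (m + 1) (Q j) →
          code B L (m + 1) (l j ++ Q j) ≤ code B L (m + 1) (l i ++ Q i) →
          code B L m (pc m (Q i)) < code B L m (pc m (Q j)) ∧
          code B L m (l' j ++ pc m (Q j)) ≤ code B L m (l' i ++ pc m (Q i)) := by
        intro i hi j hj hc hd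
        have hd' := hle i hi j hj hd
        have ti := (hP i hi).types
        have tj := (hP j hj).types
        have vi := hV i hi
        have vj := hV j hj
        have li : (Q i).length ≤ L := by
          have := vi.2; rw [List.length_append] at this; omega
        have lj : (Q j).length ≤ L := by
          have := vj.2; rw [List.length_append] at this; omega
        have b1 := code_lt (L := L) hB m _ vi.1.right.pc ((pc_length _ _).trans li)
        have b2 := code_lt (L := L) hB m _ vj.1.right.pc ((pc_length _ _).trans lj)
        have b3 := code_lt (L := L) hB m _ vi.1.pc ((pc_length _ _).trans vi.2)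
        have b4 := code_lt (L := L) hB m _ vj.1.pc ((pc_length _ _).trans vj.2)
        rw [code_succ, code_succ, dig_lt b1 b2] at hc
        rw [code_succ, code_succ, dig_le b4 b3, AA_append ti, AA_append tj] at hd'
        rw [pc_append ti, pc_append tj] at hd'
        rcases hc with hc | ⟨hc, hc'⟩
        · exfalso
          rcases hd' with hd' | ⟨hd', -⟩ <;> omega
        · rcases hd' with hd' | ⟨-, hd'⟩
          · exfalso; omega
          · exact ⟨hc', hd'⟩
      refine kp3 hB m s' (fun i => pc m (Q i)) l' ?_ ?_
      · intro i hi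
        have vi := hV i hi
        have ti := (hP i hi).types
        refine ⟨?_, ?_, hP i hi⟩
        · rw [← pc_append ti]; exact vi.1.pc
        · rw [← pc_append ti]; exact (pc_length _ _).trans vi.2
      · intro i hi j hj hij
        rcases h2 i (hs hi) j (hs hj) hij with ⟨c, d⟩ | ⟨c, d⟩
        · exact Or.inl (hlt i hi j hj c d)
        · exact Or.inr (hlt j hj i hi c d)
    -- the two halves
    set s0 := s.filter (fun i => HP m (l i)) with hs0
    set s1 := s.filter (fun i => ¬HP m (l i)) with hs1
    have hcard : s.card = s0.card + s1.card :=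
      (Finset.card_filter_add_card_filter_not (s := s) (fun i => HP m (l i))).symm
    have c0 : s0.card ≤ 2 ^ m := by
      refine fin s0 l (Finset.filter_subset _ _) ?_ ?_ ?_
      · intro i hi; exact (Finset.mem_filter.mp hi).2
      · intro i hi
        have := h1 i (Finset.mem_filter.mp hi).1
        exact ⟨this.1, this.2.1⟩
      · intro i _ j _ h; exact h
    have hex : ∀ i, ∃ l2 x l1, i ∈ s1 → l i = l2 ++ (m + 1, x) :: l1 ∧ HP m l1 ∧
        ∀ p ∈ l2, p.1 ≤ m := by
      intro i
      by_cases hi : i ∈ s1
      · have h3 := Finset.mem_filter.mp hi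
        rcases (h1 i h3.1).2.2 with h4 | ⟨l2, x, l1, e, h4, h5⟩
        · exact absurd h4 h3.2
        · exact ⟨l2, x, l1, fun _ => ⟨e, h4, h5⟩⟩
      · exact ⟨[], 0, [], fun h => absurd h hi⟩
    choose l2 x l1 hl using hex
    have c1 : s1.card ≤ 2 ^ m := by
      have hV : ∀ i ∈ s1, Val B (m + 1) (l i ++ Q i) ∧ (l i ++ Q i).length ≤ L := by
        intro i hi
        have := h1 i (Finset.mem_filter.mp hi).1
        exact ⟨this.1, this.2.1⟩
      have hR : ∀ i ∈ s1, l i ++ Q i = l2 i ++ (m + 1, x i) :: (l1 i ++ Q i) := by
        intro i hi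
        rw [(hl i hi).1]; simp
      refine fin s1 l1 (Finset.filter_subset _ _) ?_ ?_ ?_
      · intro i hi; exact (hl i hi).2.1
      · intro i hi
        have hv := (hV i hi).1
        have hn := (hV i hi).2
        rw [hR i hi] at hv hn
        refine ⟨hv.right.tail, ?_⟩
        simp only [List.length_append, List.length_cons] at hn ⊢
        omega
      · intro i hi j hj hd
        have vi := hV i hi
        have vj := hV j hj
        have b3 := code_lt (L := L) hB m _ vi.1.pc ((pc_length _ _).trans vi.2)
        have b4 := code_lt (L := L) hB m _ vj.1.pc ((pc_length _ _).trans vj.2)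
        rw [code_succ, code_succ, dig_le b4 b3] at hd
        have hA : AA (MM B L m) B m (code B L m) (l j ++ Q j) ≤
            AA (MM B L m) B m (code B L m) (l i ++ Q i) := by
          rcases hd with hd | ⟨hd, -⟩
          · exact hd.le
          · exact hd.le
        have hgt : ¬(m + 1 ≤ m) := by omega
        rw [hR i hi, hR j hj, AA_append (hl i hi).2.2, AA_append (hl j hj).2.2,
          AA_gt (p := (m + 1, x j)) hgt, AA_gt (p := (m + 1, x i)) hgt, ← code_succ,
          ← code_succ] at hA
        have xi : x i < B := by
          have := vi.1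
          rw [hR i hi] at this
          exact (this (m + 1, x i) (by simp)).2
        have xj : x j < B := by
          have := vj.1
          rw [hR j hj] at this
          exact (this (m + 1, x j) (by simp)).2
        rcases (dig_le xj xi).mp hA with h3 | ⟨h3, -⟩
        · exact h3.le
        · exact h3.le
    rw [hcard, pow_succ]
    omega

end Pool.Agent.Lib.MP_1fca17_co.Q.W52
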